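import Mathlib

/-! Basic definitions for the lower bound `α₀(S) ≥ 5/7` (helper82). -/

namespace Pool.Agent.Lib.MP_7cecc1_co.SL

/-- `1` if `a < b`, `-1` if `b < a`, `0` if `a = b`. -/
noncomputable def sg {α : Type*} [LinearOrder α] (a b : α) : ℝ :=
  if a < b then 1 else if b < a then -1 else 0

/-- `A` is the adjacency matrix of a simple graph. -/
structure Adj {V : Type*} (A : V → V → ℝ) : Prop where
  symm : ∀ u v, A u v = A v u
  zero_one : ∀ u v, A u v = 0 ∨ A u v = 1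
  diag : ∀ v, A v v = 0

/-- `A + diag t` is positive semidefinite. -/
def PSDt {V : Type*} [Fintype V] (A : V → V → ℝ) (t : V → ℝ) : Prop :=
  ∀ c : V → ℝ, 0 ≤ ∑ u, ∑ v, A u v * c u * c v + ∑ v, t v * c v ^ 2

/-- The dual data. `∑ w, A v w * sg v w` is the outdegree minus the indegree of `v`. -/
structure Data {V : Type*} [Fintype V] [LinearOrder V] (A : V → V → ℝ) (t : V → ℝ) (m S : ℝ) :
    Prop where
  adj : Adj A
  edges : ∑ u, ∑ v, A u v = 2 * m
  t_one : ∀ v, 1 ≤ t v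
  t_sum : ∑ v, t v ≤ S
  psd : PSDt A t
  bal : ∀ c : V → ℝ, (∑ v, c v * ∑ w, A v w * sg v w) ^ 2 ≤
    S * (∑ u, ∑ v, A u v * c u * c v + ∑ v, t v * c v ^ 2)

/-- The adjacency matrix restricted to pairs inside one block of `Z`. -/
noncomputable def blk {V : Type*} [DecidableEq V] (A : V → V → ℝ) (Z : Finset V) (β : V → ℕ)
    (v w : V) : ℝ := if v ∈ Z ∧ w ∈ Z ∧ β v = β w then A v w else 0

/-- The non-isolated vertices. -/
abbrev NonIso {n : ℕ} (w : Fin n → Fin n → ℝ) : Type := {v : Fin n // ∃ u, w u v ≠ 0 ∨ w v u ≠ 0}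

/-- The swap ratio `(F_r(v) - B_r(v)) / max (D v) Ds`. -/
noncomputable def sigma {V : Type*} [Fintype V] (C : V → V → ℝ) (q : V → ℕ) (Ds : ℝ) (v : V)
    (r : ℕ) : ℝ := (∑ w, C v w * sg r (q w)) / max (∑ w, C v w) Ds

/-- The swap error. -/
noncomputable def swapErr {V : Type*} [Fintype V] (C : V → V → ℝ) (q : V → ℕ) (Ds : ℝ) : ℝ :=
  ∑ v, ∑ w, C v w * |sigma C q Ds v (q v) - sigma C q Ds w (q v)|

end Pool.Agent.Lib.MP_7cecc1_co.SL
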