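import Mathlib

/-! Gram coordinates in which `Σ a_v a_vᵀ` is diagonal. -/

set_option autoImplicit false

namespace Pool.Agent.Lib.MP_7cecc1_co.SL

open Finset

/-- P3a. Gram coordinates in which `Σ a_v a_vᵀ` is diagonal. -/
theorem spectral_coords {V : Type*} [Fintype V] [DecidableEq V] (G : V → V → ℝ)
    (hsymm : ∀ u v, G u v = G v u) (hpsd : ∀ c : V → ℝ, 0 ≤ ∑ u, ∑ v, G u v * c u * c v) :
    ∃ (a : V → V → ℝ) (p : V → ℝ), (∀ i, 0 ≤ p i) ∧ (∀ u v, ∑ i, a u i * a v i = G u v) ∧
      ∀ i j, ∑ v, a v i * a v j = if i = j then p i else 0 := by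
  classical
  set M : Matrix V V ℝ := Matrix.of G with hM
  have hH : M.IsHermitian := by
    ext i j
    rw [Matrix.conjTranspose_apply, hM, Matrix.of_apply, Matrix.of_apply, star_trivial]
    exact hsymm j i
  set U : V → V → ℝ := fun v i => (hH.eigenvectorUnitary : Matrix V V ℝ) v i with hU
  set l := hH.eigenvalues with hl
  have hU1 : ∀ i j, ∑ v, U v i * U v j = if i = j then 1 else 0 := by
    intro i j
    have h := Matrix.mem_unitaryGroup_iff'.mp (hH.eigenvectorUnitary).2
    have h2 := congrFun (congrFun h i) j
    rw [Matrix.mul_apply, Matrix.one_apply] at h2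
    simpa [Matrix.star_apply, hU] using h2
  have hU2 : ∀ u v, ∑ i, U u i * U v i = if u = v then 1 else 0 := by
    intro i j
    have h := Matrix.mem_unitaryGroup_iff.mp (hH.eigenvectorUnitary).2
    have h2 := congrFun (congrFun h i) j
    rw [Matrix.mul_apply, Matrix.one_apply] at h2
    simpa [Matrix.star_apply, hU] using h2
  have hE : ∀ u i, ∑ w, G u w * U w i = l i * U u i := by
    intro u i
    have h := congrFun (hH.mulVec_eigenvectorBasis i) u
    simpa [Matrix.mulVec, dotProduct, hM, hU] using h
  have hG : ∀ u v, ∑ i, l i * U u i * U v i = G u v := by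
    intro u v
    calc ∑ i, l i * U u i * U v i = ∑ i, ∑ w, G u w * U w i * U v i := by
          refine Finset.sum_congr rfl fun i _ => ?_
          rw [← hE, Finset.sum_mul]
      _ = ∑ w, G u w * ∑ i, U w i * U v i := by
          rw [Finset.sum_comm]
          refine Finset.sum_congr rfl fun w _ => ?_
          rw [Finset.mul_sum]
          exact Finset.sum_congr rfl fun i _ => by ring
      _ = G u v := by
          simp_rw [hU2]
          simp
  have hl0 : ∀ i, 0 ≤ l i := by
    intro i
    have h := hpsd (fun v => U v i)
    have e : ∑ u, ∑ v, G u v * U u i * U v i = l i := by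
      calc ∑ u, ∑ v, G u v * U u i * U v i = ∑ u, U u i * ∑ v, G u v * U v i := by
            refine Finset.sum_congr rfl fun u _ => ?_
            rw [Finset.mul_sum]
            exact Finset.sum_congr rfl fun v _ => by ring
        _ = l i * ∑ u, U u i * U u i := by
            rw [Finset.mul_sum]
            refine Finset.sum_congr rfl fun u _ => ?_
            rw [hE]; ring
        _ = l i := by rw [hU1, if_pos rfl, mul_one]
    rw [e] at h
    exact h
  refine ⟨fun v i => √(l i) * U v i, l, hl0, ?_, ?_⟩
  · intro u v
    rw [← hG]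
    refine Finset.sum_congr rfl fun i _ => ?_
    have := Real.mul_self_sqrt (hl0 i)
    calc √(l i) * U u i * (√(l i) * U v i) = (√(l i) * √(l i)) * U u i * U v i := by ring
      _ = l i * U u i * U v i := by rw [this]
  · intro i j
    calc ∑ v, √(l i) * U v i * (√(l j) * U v j) = √(l i) * √(l j) * ∑ v, U v i * U v j := by
          rw [Finset.mul_sum]
          exact Finset.sum_congr rfl fun v _ => by ring
      _ = if i = j then l i else 0 := by
          rw [hU1]
          by_cases h : i = j
          · subst h
            rw [if_pos rfl, if_pos rfl, mul_one, Real.mul_self_sqrt (hl0 i)]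
          · rw [if_neg h, if_neg h, mul_zero]

end Pool.Agent.Lib.MP_7cecc1_co.SL
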