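import Mathlib
import Pool.Agent.Lib.MP_7cecc1_co.SL.Spectral

/-! The key lemma: Lyapunov operator and the symmetric three-tensor inequality. -/

namespace Pool.Agent.Lib.MP_7cecc1_co.SL

open Finset

section Tensor

variable {V D : Type*} [Fintype V] [Fintype D]

/-- inner product of families of rank-one matrices -/
theorem inner_two (x y x' y' : V → D → ℝ) :
    ∑ i, ∑ j, (∑ u, x u i * y u j) * (∑ v, x' v i * y' v j) =
      ∑ u, ∑ v, (∑ i, x u i * x' v i) * (∑ j, y u j * y' v j) := by
  have h1 : ∀ i j, (∑ u, x u i * y u j) * (∑ v, x' v i * y' v j) =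
      ∑ u, ∑ v, (x u i * x' v i) * (y u j * y' v j) := by
    intro i j
    rw [Finset.sum_mul_sum]
    exact Finset.sum_congr rfl fun u _ => Finset.sum_congr rfl fun v _ => by ring
  have h2 : ∀ u v, (∑ i, x u i * x' v i) * (∑ j, y u j * y' v j) =
      ∑ i, ∑ j, (x u i * x' v i) * (y u j * y' v j) := by
    intro u v
    rw [Finset.sum_mul_sum]
  simp only [h1, h2]
  calc ∑ i, ∑ j, ∑ u, ∑ v, x u i * x' v i * (y u j * y' v j)
      = ∑ i, ∑ u, ∑ j, ∑ v, x u i * x' v i * (y u j * y' v j) :=
        Finset.sum_congr rfl fun i _ => Finset.sum_comm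
    _ = ∑ u, ∑ i, ∑ j, ∑ v, x u i * x' v i * (y u j * y' v j) := Finset.sum_comm
    _ = ∑ u, ∑ i, ∑ v, ∑ j, x u i * x' v i * (y u j * y' v j) :=
        Finset.sum_congr rfl fun u _ => Finset.sum_congr rfl fun i _ => Finset.sum_comm
    _ = ∑ u, ∑ v, ∑ i, ∑ j, x u i * x' v i * (y u j * y' v j) :=
        Finset.sum_congr rfl fun u _ => Finset.sum_comm

/-- inner product of families of rank-one three-tensors -/
theorem inner_three (x y z x' y' z' : V → D → ℝ) :
    ∑ k, ∑ i, ∑ j, (∑ u, x u i * y u j * z u k) * (∑ v, x' v i * y' v j * z' v k) =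
      ∑ u, ∑ v, (∑ i, x u i * x' v i) * (∑ j, y u j * y' v j) * (∑ k, z u k * z' v k) := by
  have h1 : ∀ k, ∑ i, ∑ j, (∑ u, x u i * y u j * z u k) * (∑ v, x' v i * y' v j * z' v k) =
      ∑ u, ∑ v, (∑ i, x u i * x' v i) * (∑ j, y u j * y' v j) * (z u k * z' v k) := by
    intro k
    have h2 := inner_two x (fun u j => y u j * z u k) x' (fun v j => y' v j * z' v k)
    have h3 : ∀ u v, ∑ j, y u j * z u k * (y' v j * z' v k) =
        (∑ j, y u j * y' v j) * (z u k * z' v k) := by
      intro u v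
      rw [Finset.sum_mul]
      exact Finset.sum_congr rfl fun j _ => by ring
    simp only [h3] at h2
    have h4 : ∀ i j, ∑ u, x u i * y u j * z u k = ∑ u, x u i * (y u j * z u k) :=
      fun i j => Finset.sum_congr rfl fun u _ => by ring
    have h5 : ∀ i j, ∑ u, x' u i * y' u j * z' u k = ∑ u, x' u i * (y' u j * z' u k) :=
      fun i j => Finset.sum_congr rfl fun u _ => by ring
    simp only [h4, h5]
    rw [h2]
    exact Finset.sum_congr rfl fun u _ => Finset.sum_congr rfl fun v _ => by ring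
  simp only [h1]
  calc ∑ k, ∑ u, ∑ v, (∑ i, x u i * x' v i) * (∑ j, y u j * y' v j) * (z u k * z' v k)
      = ∑ u, ∑ k, ∑ v, (∑ i, x u i * x' v i) * (∑ j, y u j * y' v j) * (z u k * z' v k) :=
        Finset.sum_comm
    _ = ∑ u, ∑ v, ∑ k, (∑ i, x u i * x' v i) * (∑ j, y u j * y' v j) * (z u k * z' v k) :=
        Finset.sum_congr rfl fun u _ => Finset.sum_comm
    _ = _ := Finset.sum_congr rfl fun u _ => Finset.sum_congr rfl fun v _ =>
        (Finset.mul_sum _ _ _).symm

end Tensor

section Lyapunov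

variable {V D : Type*} [Fintype V] [Fintype D]

/-- weighted covariance -/
def HH (a : V → D → ℝ) (h : V → ℝ) (i j : D) : ℝ := ∑ v, h v * a v i * a v j

/-- the Lyapunov operator -/
noncomputable def KK (a : V → D → ℝ) (p : D → ℝ) (h : V → ℝ) (i j : D) : ℝ :=
  2 * HH a h i j / (p i + p j)

/-- its images of the vectors -/
noncomputable def bb (a : V → D → ℝ) (p : D → ℝ) (h : V → ℝ) (v : V) (i : D) : ℝ :=
  ∑ l, KK a p h i l * a v l

theorem HH_symm (a : V → D → ℝ) (h : V → ℝ) (i j : D) : HH a h i j = HH a h j i :=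
  Finset.sum_congr rfl fun v _ => by ring

theorem KK_symm (a : V → D → ℝ) (p : D → ℝ) (h : V → ℝ) (i j : D) :
    KK a p h i j = KK a p h j i := by
  unfold KK
  rw [HH_symm, add_comm]

variable [DecidableEq D] {a : V → D → ℝ} {p : D → ℝ} (hp : ∀ i, 0 ≤ p i)
  (hP : ∀ i j, ∑ v, a v i * a v j = if i = j then p i else 0) (h : V → ℝ)

include hp hP in
theorem lyap (i j : D) : KK a p h i j * p j + KK a p h j i * p i = 2 * HH a h i j := by
  rw [KK_symm a p h j i, ← mul_add]
  unfold KK
  by_cases hz : p i + p j = 0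
  · have h1 : p i = 0 := by linarith [hp i, hp j]
    have h2 : ∑ v, a v i * a v i = 0 := by
      rw [hP, if_pos rfl, h1]
    have h3 : ∀ v, a v i = 0 := by
      intro v
      have := (Finset.sum_eq_zero_iff_of_nonneg fun v _ => mul_self_nonneg (a v i)).1 h2 v
        (Finset.mem_univ v)
      exact mul_self_eq_zero.1 this
    have h4 : HH a h i j = 0 := by
      unfold HH
      exact Finset.sum_eq_zero fun v _ => by rw [h3 v]; ring
    rw [h4]
    simp
  · rw [add_comm (p j) (p i)]
    field_simp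

include hP in
theorem sum_bb (i j : D) : ∑ v, bb a p h v i * a v j = KK a p h i j * p j := by
  unfold bb
  have h1 : ∑ v, (∑ l, KK a p h i l * a v l) * a v j =
      ∑ l, KK a p h i l * ∑ v, a v l * a v j := by
    simp only [Finset.sum_mul, Finset.mul_sum]
    rw [Finset.sum_comm]
    exact Finset.sum_congr rfl fun l _ => Finset.sum_congr rfl fun v _ => by ring
  rw [h1]
  simp only [hP]
  simp

theorem bb_symm (u v : V) : ∑ i, bb a p h u i * a v i = ∑ i, a u i * bb a p h v i := by
  unfold bb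
  simp only [Finset.sum_mul, Finset.mul_sum]
  rw [Finset.sum_comm]
  exact Finset.sum_congr rfl fun l _ => Finset.sum_congr rfl fun i _ => by
    rw [KK_symm a p h i l]
    ring

include hp hP in
theorem sum_bb_sq : ∑ v, ∑ i, bb a p h v i ^ 2 = ∑ v, h v * ∑ i, a v i * bb a p h v i := by
  have h1 : ∑ v, ∑ i, bb a p h v i ^ 2 = ∑ i, ∑ l, KK a p h i l * (KK a p h i l * p l) := by
    have : ∀ v i, bb a p h v i ^ 2 = ∑ l, KK a p h i l * (bb a p h v i * a v l) := by
      intro v i
      rw [pow_two]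
      nth_rewrite 1 [bb]
      rw [Finset.sum_mul]
      exact Finset.sum_congr rfl fun l _ => by ring
    simp only [this]
    rw [Finset.sum_comm]
    refine Finset.sum_congr rfl fun i _ => ?_
    rw [Finset.sum_comm]
    refine Finset.sum_congr rfl fun l _ => ?_
    rw [← Finset.mul_sum, sum_bb hP h]
  have h2 : ∑ v, h v * ∑ i, a v i * bb a p h v i = ∑ i, ∑ l, KK a p h i l * HH a h i l := by
    unfold bb HH
    simp only [Finset.mul_sum]
    rw [Finset.sum_comm]
    refine Finset.sum_congr rfl fun i _ => ?_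
    rw [Finset.sum_comm]
    exact Finset.sum_congr rfl fun l _ => Finset.sum_congr rfl fun v _ => by ring
  rw [h1, h2]
  have h3 : ∑ i, ∑ l, KK a p h i l * (KK a p h i l * p l) =
      ∑ i, ∑ l, KK a p h i l * (KK a p h l i * p i) := by
    rw [Finset.sum_comm]
    exact Finset.sum_congr rfl fun i _ => Finset.sum_congr rfl fun l _ => by
      rw [KK_symm a p h i l]
  have h4 : ∑ i, ∑ l, KK a p h i l * (KK a p h i l * p l) +
      ∑ i, ∑ l, KK a p h i l * (KK a p h l i * p i) = 2 * ∑ i, ∑ l, KK a p h i l * HH a h i l := by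
    simp only [← Finset.sum_add_distrib, Finset.mul_sum]
    refine Finset.sum_congr rfl fun i _ => Finset.sum_congr rfl fun l _ => ?_
    have := lyap hp hP h i l
    linear_combination KK a p h i l * this
  linarith

end Lyapunov

section Core

variable {V D : Type*} [Fintype V] [Fintype D]

theorem offdiag_le [DecidableEq V] {F1 F2 : V → V → ℝ} (h : ∀ u v, u ≠ v → F1 u v ≤ F2 u v) :
    ∑ u, ∑ v, F1 u v ≤ ∑ u, ∑ v, F2 u v + ∑ v, (F1 v v - F2 v v) := by
  have h1 : ∑ v, (F1 v v - F2 v v) = ∑ u, ∑ v, (if u = v then F1 v v - F2 v v else 0) := by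
    refine Finset.sum_congr rfl fun u _ => ?_
    rw [Finset.sum_ite_eq]
    simp
  rw [h1, ← Finset.sum_add_distrib]
  refine Finset.sum_le_sum fun u _ => ?_
  rw [← Finset.sum_add_distrib]
  refine Finset.sum_le_sum fun v _ => ?_
  by_cases huv : u = v
  · subst huv
    simp
  · rw [if_neg huv, add_zero]
    exact h u v huv

theorem offdiag_eq [DecidableEq V] {F1 F2 : V → V → ℝ} (h : ∀ u v, u ≠ v → F1 u v = F2 u v) :
    ∑ u, ∑ v, F1 u v = ∑ u, ∑ v, F2 u v + ∑ v, (F1 v v - F2 v v) := by
  apply le_antisymm (offdiag_le fun u v huv => (h u v huv).le)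
  have := offdiag_le (F1 := F2) (F2 := F1) fun u v huv => (h u v huv).ge
  rw [Finset.sum_sub_distrib] at this ⊢
  linarith

variable [DecidableEq V] [DecidableEq D] {a : V → D → ℝ} {p : D → ℝ} (hp : ∀ i, 0 ≤ p i)
  (hP : ∀ i j, ∑ v, a v i * a v j = if i = j then p i else 0) (h : V → ℝ)

theorem expand_four {D : Type*} [Fintype D] (t1 t2 t3 t4 : D → D → D → ℝ) :
    ∑ k, ∑ i, ∑ j, (t1 k i j + t2 k i j + t3 k i j - 3 * t4 k i j) ^ 2 =
      (∑ k, ∑ i, ∑ j, t1 k i j * t1 k i j) + (∑ k, ∑ i, ∑ j, t2 k i j * t2 k i j) +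
      (∑ k, ∑ i, ∑ j, t3 k i j * t3 k i j) + 2 * (∑ k, ∑ i, ∑ j, t1 k i j * t2 k i j) +
      2 * (∑ k, ∑ i, ∑ j, t1 k i j * t3 k i j) + 2 * (∑ k, ∑ i, ∑ j, t2 k i j * t3 k i j) -
      6 * (∑ k, ∑ i, ∑ j, t1 k i j * t4 k i j) - 6 * (∑ k, ∑ i, ∑ j, t2 k i j * t4 k i j) -
      6 * (∑ k, ∑ i, ∑ j, t3 k i j * t4 k i j) + 9 * (∑ k, ∑ i, ∑ j, t4 k i j * t4 k i j) := by
  simp only [Finset.mul_sum, ← Finset.sum_add_distrib, ← Finset.sum_sub_distrib]
  exact Finset.sum_congr rfl fun k _ => Finset.sum_congr rfl fun i _ =>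
    Finset.sum_congr rfl fun j _ => by ring

theorem collect_four {V : Type*} [Fintype V] (N M G : V → V → ℝ) (h : V → ℝ) :
    (∑ u, ∑ v, N u v * G u v * G u v) + (∑ u, ∑ v, G u v * N u v * G u v) +
      (∑ u, ∑ v, G u v * G u v * N u v) + 2 * (∑ u, ∑ v, M u v * M u v * G u v) +
      2 * (∑ u, ∑ v, M u v * G u v * M u v) + 2 * (∑ u, ∑ v, G u v * M u v * M u v) -
      6 * (∑ u, ∑ v, h v * M u v * G u v * G u v) - 6 * (∑ u, ∑ v, h v * G u v * M u v * G u v) -
      6 * (∑ u, ∑ v, h v * G u v * G u v * M u v) +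
      9 * (∑ u, ∑ v, h u * h v * G u v * G u v * G u v) =
    3 * ∑ u, ∑ v, N u v * G u v ^ 2 + 6 * ∑ u, ∑ v, M u v ^ 2 * G u v -
      18 * ∑ u, ∑ v, h v * M u v * G u v ^ 2 + 9 * ∑ u, ∑ v, h u * h v * G u v ^ 3 := by
  simp only [Finset.mul_sum, ← Finset.sum_add_distrib, ← Finset.sum_sub_distrib]
  exact Finset.sum_congr rfl fun k _ => Finset.sum_congr rfl fun i _ => by ring

/-- the tensor inequality -/
theorem tensor_ineq (a b : V → D → ℝ) (hab : ∀ u v, ∑ i, b u i * a v i = ∑ i, a u i * b v i)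
    (h : V → ℝ) :
    0 ≤ 3 * ∑ u, ∑ v, (∑ i, b u i * b v i) * (∑ i, a u i * a v i) ^ 2 +
      6 * ∑ u, ∑ v, (∑ i, b u i * a v i) ^ 2 * (∑ i, a u i * a v i) -
      18 * ∑ u, ∑ v, h v * (∑ i, b u i * a v i) * (∑ i, a u i * a v i) ^ 2 +
      9 * ∑ u, ∑ v, h u * h v * (∑ i, a u i * a v i) ^ 3 := by
  set c : V → D → ℝ := fun v i => h v * a v i with hc
  have e1 := inner_three b a a b a a
  have e2 := inner_three a b a a b a
  have e3 := inner_three a a b a a b
  have e4 := inner_three b a a a b a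
  have e5 := inner_three b a a a a b
  have e6 := inner_three a b a a a b
  have e7 := inner_three b a a c a a
  have e8 := inner_three a b a c a a
  have e9 := inner_three a a b c a a
  have e10 := inner_three c a a c a a
  have hM : ∀ u v, ∑ i, a u i * b v i = ∑ i, b u i * a v i := fun u v => (hab u v).symm
  have hbc : ∀ u v, ∑ i, b u i * c v i = h v * ∑ i, b u i * a v i := by
    intro u v
    rw [Finset.mul_sum]
    exact Finset.sum_congr rfl fun i _ => by simp only [hc]; ring
  have hac : ∀ u v, ∑ i, a u i * c v i = h v * ∑ i, a u i * a v i := by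
    intro u v
    rw [Finset.mul_sum]
    exact Finset.sum_congr rfl fun i _ => by simp only [hc]; ring
  have hcc : ∀ u v, ∑ i, c u i * c v i = h u * h v * ∑ i, a u i * a v i := by
    intro u v
    rw [Finset.mul_sum]
    exact Finset.sum_congr rfl fun i _ => by simp only [hc]; ring
  simp only [hM, hbc, hac, hcc] at e1 e2 e3 e4 e5 e6 e7 e8 e9 e10
  have hsq : 0 ≤ ∑ k, ∑ i, ∑ j, ((∑ u, b u i * a u j * a u k) + (∑ u, a u i * b u j * a u k) +
      (∑ u, a u i * a u j * b u k) - 3 * (∑ u, c u i * a u j * a u k)) ^ 2 :=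
    Finset.sum_nonneg fun k _ => Finset.sum_nonneg fun i _ => Finset.sum_nonneg fun j _ =>
      sq_nonneg _
  have hexp := expand_four (fun k i j => ∑ u, b u i * a u j * a u k)
    (fun k i j => ∑ u, a u i * b u j * a u k) (fun k i j => ∑ u, a u i * a u j * b u k)
    (fun k i j => ∑ u, c u i * a u j * a u k)
  rw [hexp, e1, e2, e3, e4, e5, e6, e7, e8, e9, e10] at hsq
  exact hsq.trans (le_of_eq (collect_four (fun u v => ∑ i, b u i * b v i)
    (fun u v => ∑ i, b u i * a v i) (fun u v => ∑ i, a u i * a v i) h))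

include hp hP in
/-- the bound `x² ≤ 12 (τ² - τ) T` and the tensor `T_h` -/
theorem key_x (h01 : ∀ u v, u ≠ v → ∑ i, a u i * a v i = 0 ∨ ∑ i, a u i * a v i = 1)
    (τ : ℝ) (hτ : 1 ≤ τ)
    (hdiag : ∀ v, ∑ i, a v i * a v i = 0 ∨ (1 ≤ ∑ i, a v i * a v i ∧ ∑ i, a v i * a v i ≤ τ))
    (hh : ∀ v, |h v| ≤ 1) :
    ∑ u, ∑ v, (∑ i, (h u * a u i - bb a p h u i) * (h v * a v i - bb a p h v i)) *
      (∑ i, a u i * a v i) ^ 2 ≤ 16 * τ ^ 2 * ∑ v, ∑ i, a v i * a v i := by
  set b := bb a p h with hb
  set G : V → V → ℝ := fun u v => ∑ i, a u i * a v i with hG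
  set M : V → V → ℝ := fun u v => ∑ i, b u i * a v i with hM
  set N : V → V → ℝ := fun u v => ∑ i, b u i * b v i with hN
  set B : D → D → ℝ := fun i j => KK a p h i j * p j with hB
  set H : D → D → ℝ := HH a h with hH
  have hBH : ∀ i j, B i j + B j i = 2 * H i j := fun i j => lyap hp hP h i j
  have hab : ∀ u v, ∑ i, b u i * a v i = ∑ i, a u i * b v i := fun u v => bb_symm h u v
  have hsb : ∀ i j, ∑ v, b v i * a v j = B i j := fun i j => sum_bb hP h i j
  have hsb' : ∀ i j, ∑ v, a v i * b v j = B j i := fun i j => by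
    rw [← hsb j i]
    exact Finset.sum_congr rfl fun v _ => by ring
  have hsh : ∀ i j, ∑ v, (h v * a v i) * a v j = H i j := fun i j => rfl
  have hc1 : ∀ u v, ∑ i, b u i * (h v * a v i) = h v * M u v := by
    intro u v
    rw [Finset.mul_sum]
    exact Finset.sum_congr rfl fun i _ => by ring
  have hc2 : ∀ u v, ∑ i, (h u * a u i) * (h v * a v i) = h u * h v * G u v := by
    intro u v
    rw [Finset.mul_sum]
    exact Finset.sum_congr rfl fun i _ => by ring
  -- the four basic sums
  have A3 : ∑ u, ∑ v, N u v * G u v = ∑ i, ∑ j, B i j * B i j := by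
    have := inner_two b a b a
    simp only [hsb] at this
    exact this.symm
  have A4 : ∑ u, ∑ v, M u v * M u v = ∑ i, ∑ j, B i j * B j i := by
    have := inner_two b a a b
    simp only [hsb, hsb', ← hab] at this
    exact this.symm
  have A2 : ∑ u, ∑ v, h v * M u v * G u v = ∑ i, ∑ j, B i j * H i j := by
    have := inner_two b a (fun v i => h v * a v i) a
    simp only [hsb, hsh, hc1] at this
    exact this.symm
  have A1 : ∑ u, ∑ v, h u * h v * G u v * G u v = ∑ i, ∑ j, H i j * H i j := by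
    have := inner_two (fun v i => h v * a v i) a (fun v i => h v * a v i) a
    simp only [hsh, hc2] at this
    exact this.symm
  set S3 := ∑ i, ∑ j, B i j * B i j with hS3
  set S4 := ∑ i, ∑ j, B i j * B j i with hS4
  have hS3' : ∑ i, ∑ j, B j i * B j i = S3 := Finset.sum_comm
  have E2 : 2 * ∑ i, ∑ j, B i j * H i j = S3 + S4 := by
    rw [hS3, hS4]
    simp only [Finset.mul_sum, ← Finset.sum_add_distrib]
    refine Finset.sum_congr rfl fun i _ => Finset.sum_congr rfl fun j _ => ?_
    linear_combination -B i j * hBH i j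
  have E1 : 4 * ∑ i, ∑ j, H i j * H i j = 2 * (S3 + S4) := by
    have : 4 * ∑ i, ∑ j, H i j * H i j = S3 + S3 + 2 * S4 := by
      nth_rewrite 2 [← hS3']
      rw [hS3, hS4]
      simp only [Finset.mul_sum, ← Finset.sum_add_distrib]
      refine Finset.sum_congr rfl fun i _ => Finset.sum_congr rfl fun j _ => ?_
      linear_combination -(B i j + B j i + 2 * H i j) * hBH i j
    rw [this]
    ring
  -- diagonal facts
  set g : V → ℝ := fun v => G v v with hg
  set c : ℝ := τ ^ 2 - τ with hc
  have hc0 : 0 ≤ c := by rw [hc]; nlinarith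
  have hg0 : ∀ v, 0 ≤ g v := fun v => Finset.sum_nonneg fun i _ => mul_self_nonneg _
  have hN0 : ∀ v, 0 ≤ N v v := fun v => Finset.sum_nonneg fun i _ => mul_self_nonneg _
  have hgc0 : ∀ v, 0 ≤ g v ^ 2 - g v := by
    intro v
    rcases hdiag v with h1 | ⟨h1, h2⟩
    · have : g v = 0 := h1
      rw [this]; norm_num
    · have : 1 ≤ g v := h1
      nlinarith
  have hgc : ∀ v, g v ^ 2 - g v ≤ c := by
    intro v
    rcases hdiag v with h1 | ⟨h1, h2⟩
    · have : g v = 0 := h1
      rw [this]; norm_num; exact hc0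
    · have h1' : 1 ≤ g v := h1
      have h2' : g v ≤ τ := h2
      rw [hc]; nlinarith
  have hMN : ∀ v, M v v ^ 2 ≤ N v v * g v := by
    intro v
    have := Finset.sum_mul_sq_le_sq_mul_sq Finset.univ (fun i => b v i) (fun i => a v i)
    simp only [pow_two (b v _), pow_two (a v _)] at this
    exact this
  have hMabs : ∀ v, |M v v| ≤ (N v v + g v) / 2 := by
    intro v
    rw [abs_le]
    constructor
    · have : 0 ≤ ∑ i, (b v i + a v i) ^ 2 := Finset.sum_nonneg fun i _ => sq_nonneg _
      have h2 : ∑ i, (b v i + a v i) ^ 2 = N v v + g v + 2 * M v v := by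
        simp only [hN, hM, hg, hG, Finset.mul_sum, ← Finset.sum_add_distrib]
        exact Finset.sum_congr rfl fun i _ => by ring
      linarith
    · have : 0 ≤ ∑ i, (b v i - a v i) ^ 2 := Finset.sum_nonneg fun i _ => sq_nonneg _
      have h2 : ∑ i, (b v i - a v i) ^ 2 = N v v + g v - 2 * M v v := by
        simp only [hN, hM, hg, hG, Finset.mul_sum, ← Finset.sum_add_distrib,
          ← Finset.sum_sub_distrib]
        exact Finset.sum_congr rfl fun i _ => by ring
      linarith
  have hhM : ∀ v, |h v * M v v| ≤ (N v v + g v) / 2 := by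
    intro v
    rw [abs_mul]
    calc |h v| * |M v v| ≤ 1 * |M v v| := mul_le_mul_of_nonneg_right (hh v) (abs_nonneg _)
      _ ≤ _ := by rw [one_mul]; exact hMabs v
  set T : ℝ := ∑ v, g v with hT
  set β : ℝ := ∑ v, N v v with hβ
  have hβeq : β = ∑ v, h v * M v v := by
    have := sum_bb_sq hp hP h
    simp only [pow_two] at this
    rw [hβ]
    refine this.trans (Finset.sum_congr rfl fun v _ => ?_)
    rw [← hab v v]
  have hβT : β ≤ T := by
    have : β ≤ ∑ v, (N v v + g v) / 2 := by
      rw [hβeq]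
      exact Finset.sum_le_sum fun v _ => (le_abs_self _).trans (hhM v)
    rw [← Finset.sum_div, Finset.sum_add_distrib, ← hβ, ← hT] at this
    linarith
  have hβ0 : 0 ≤ β := Finset.sum_nonneg fun v _ => hN0 v
  have hT0 : 0 ≤ T := Finset.sum_nonneg fun v _ => hg0 v
  have hoff : ∀ u v, u ≠ v → G u v ^ 2 = G u v := by
    intro u v huv
    rcases h01 u v huv with h1 | h1
    · have : G u v = 0 := h1
      rw [this]; norm_num
    · have : G u v = 1 := h1
      rw [this]; norm_num
  -- errors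
  have F3 : ∑ u, ∑ v, N u v * G u v ^ 2 ≤ S3 + c * T := by
    have h1 := offdiag_le (F1 := fun u v => N u v * G u v ^ 2) (F2 := fun u v => N u v * G u v)
      (fun u v huv => by simp only [hoff u v huv]; exact le_rfl)
    refine h1.trans ?_
    rw [A3]
    have h2 : ∑ v, (N v v * G v v ^ 2 - N v v * G v v) ≤ ∑ v, c * N v v := by
      refine Finset.sum_le_sum fun v _ => ?_
      have h3 := mul_le_mul_of_nonneg_left (hgc v) (hN0 v)
      simp only [hg] at h3
      linarith
    rw [← Finset.mul_sum] at h2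
    have h3 := mul_le_mul_of_nonneg_left hβT hc0
    linarith
  have F4 : ∑ u, ∑ v, M u v ^ 2 * G u v ≤ S4 + c * T := by
    have h1 := offdiag_le (F1 := fun u v => M u v ^ 2 * G u v) (F2 := fun u v => M u v * M u v)
      (fun u v huv => by
        have h2 : G u v ≤ 1 := by
          rcases h01 u v huv with h3 | h3
          · have : G u v = 0 := h3
            rw [this]; norm_num
          · exact le_of_eq h3
        have := mul_le_mul_of_nonneg_left h2 (sq_nonneg (M u v))
        nlinarith)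
    refine h1.trans ?_
    rw [A4]
    have h2 : ∑ v, (M v v ^ 2 * G v v - M v v * M v v) ≤ ∑ v, c * N v v := by
      refine Finset.sum_le_sum fun v _ => ?_
      rcases hdiag v with h3 | ⟨h3, h4⟩
      · have h5 : g v = 0 := h3
        have h6 : M v v ^ 2 ≤ 0 := by have := hMN v; rw [h5, mul_zero] at this; exact this
        have h7 : M v v = 0 := by
          have := sq_nonneg (M v v)
          exact pow_eq_zero_iff (two_ne_zero) |>.1 (le_antisymm h6 this)
        rw [h7]
        simp only [ne_eq, OfNat.ofNat_ne_zero, not_false_eq_true, zero_pow, zero_mul, sub_zero]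
        exact mul_nonneg hc0 (hN0 v)
      · have h5 : 1 ≤ g v := h3
        have h6 : M v v ^ 2 * (g v - 1) ≤ N v v * g v * (g v - 1) :=
          mul_le_mul_of_nonneg_right (hMN v) (by linarith)
        have h7 := mul_le_mul_of_nonneg_left (hgc v) (hN0 v)
        have h8 : M v v ^ 2 * G v v - M v v * M v v = M v v ^ 2 * (g v - 1) := by
          simp only [hg]; ring
        rw [h8]
        nlinarith
    rw [← Finset.mul_sum] at h2
    have h3 := mul_le_mul_of_nonneg_left hβT hc0
    linarith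
  have F2 : (S3 + S4) / 2 - c * T ≤ ∑ u, ∑ v, h v * M u v * G u v ^ 2 := by
    have h1 := offdiag_eq (F1 := fun u v => h v * M u v * G u v ^ 2)
      (F2 := fun u v => h v * M u v * G u v)
      (fun u v huv => by simp only [hoff u v huv])
    rw [h1, A2]
    have h2 : -(∑ v, c * ((N v v + g v) / 2)) ≤
        ∑ v, (h v * M v v * G v v ^ 2 - h v * M v v * G v v) := by
      rw [← Finset.sum_neg_distrib]
      refine Finset.sum_le_sum fun v _ => ?_
      have h3 : h v * M v v * G v v ^ 2 - h v * M v v * G v v = (h v * M v v) * (g v ^ 2 - g v) := by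
        simp only [hg]; ring
      rw [h3]
      have h4 : |h v * M v v * (g v ^ 2 - g v)| ≤ (N v v + g v) / 2 * c := by
        rw [abs_mul, abs_of_nonneg (hgc0 v)]
        exact mul_le_mul (hhM v) (hgc v) (hgc0 v) (by linarith [hN0 v, hg0 v])
      have h5 := neg_abs_le (h v * M v v * (g v ^ 2 - g v))
      linarith
    rw [← Finset.mul_sum, ← Finset.sum_div, Finset.sum_add_distrib] at h2
    have h3 := mul_le_mul_of_nonneg_left hβT hc0
    linarith
  have F1 : ∑ u, ∑ v, h u * h v * G u v ^ 3 ≤ (S3 + S4) / 2 + c * T := by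
    have h1 := offdiag_eq (F1 := fun u v => h u * h v * G u v ^ 3)
      (F2 := fun u v => h u * h v * G u v * G u v)
      (fun u v huv => by
        have h2 : G u v ^ 3 = G u v * G u v := by rw [pow_succ, hoff u v huv]
        rw [h2]; ring)
    rw [h1, A1]
    have h2 : ∑ v, (h v * h v * G v v ^ 3 - h v * h v * G v v * G v v) ≤ ∑ v, c * g v := by
      refine Finset.sum_le_sum fun v _ => ?_
      have h3 : h v * h v * G v v ^ 3 - h v * h v * G v v * G v v =
          (h v * h v) * (g v * (g v ^ 2 - g v)) := by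
        simp only [hg]; ring
      rw [h3]
      have h4 : h v * h v ≤ 1 := by
        rw [← abs_mul_abs_self (h v)]
        have := hh v
        have h0 := abs_nonneg (h v)
        nlinarith
      have h5 : 0 ≤ g v * (g v ^ 2 - g v) := mul_nonneg (hg0 v) (hgc0 v)
      have h6 := mul_le_mul_of_nonneg_left (hgc v) (hg0 v)
      nlinarith
    rw [← Finset.mul_sum] at h2
    linarith
  have hten := tensor_ineq a b hab h
  have hx : S3 - (S3 + S4) / 2 ≤ 12 * (c * T) := by
    have h1 : 0 ≤ 3 * (S3 + c * T) + 6 * (S4 + c * T) - 18 * ((S3 + S4) / 2 - c * T) +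
        9 * ((S3 + S4) / 2 + c * T) := by
      linarith
    linarith
  -- the tensor T_h
  set r : V → D → ℝ := fun v i => h v * a v i - b v i with hr
  have hsr : ∀ i j, ∑ v, r v i * a v j = H i j - B i j := by
    intro i j
    rw [← hsh i j, ← hsb i j, ← Finset.sum_sub_distrib]
    exact Finset.sum_congr rfl fun v _ => by simp only [hr]; ring
  have A5 : ∑ u, ∑ v, (∑ i, r u i * r v i) * G u v = S3 - (S3 + S4) / 2 := by
    have h1 := inner_two r a r a
    simp only [hsr] at h1
    refine h1.symm.trans ?_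
    have h2 : ∑ i, ∑ j, (H i j - B i j) * (H i j - B i j) =
        ∑ i, ∑ j, H i j * H i j - 2 * ∑ i, ∑ j, B i j * H i j + S3 := by
      rw [hS3]
      simp only [Finset.mul_sum, ← Finset.sum_add_distrib, ← Finset.sum_sub_distrib]
      exact Finset.sum_congr rfl fun i _ => Finset.sum_congr rfl fun j _ => by ring
    rw [h2]
    linarith
  have hrr : ∀ v, ∑ i, r v i * r v i = h v * h v * g v - 2 * (h v * M v v) + N v v := by
    intro v
    simp only [hN, hM, hg, hG, Finset.mul_sum, ← Finset.sum_add_distrib,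
      ← Finset.sum_sub_distrib]
    exact Finset.sum_congr rfl fun i _ => by simp only [hr]; ring
  have hrs : ∑ v, ∑ i, r v i * r v i ≤ T := by
    simp only [hrr]
    rw [Finset.sum_add_distrib, Finset.sum_sub_distrib, ← Finset.mul_sum, ← hβeq, ← hβ]
    have : ∑ v, h v * h v * g v ≤ T := by
      refine Finset.sum_le_sum fun v _ => ?_
      have h4 : h v * h v ≤ 1 := by
        rw [← abs_mul_abs_self (h v)]
        have := hh v
        have h0 := abs_nonneg (h v)
        nlinarith
      have := mul_le_mul_of_nonneg_right h4 (hg0 v)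
      linarith
    linarith
  have hfin := offdiag_le (F1 := fun u v => (∑ i, r u i * r v i) * G u v ^ 2)
      (F2 := fun u v => (∑ i, r u i * r v i) * G u v)
      (fun u v huv => by simp only [hoff u v huv]; exact le_rfl)
  have hdiag2 : ∑ v, ((∑ i, r v i * r v i) * G v v ^ 2 - (∑ i, r v i * r v i) * G v v) ≤ c * T := by
    have h2 : ∑ v, ((∑ i, r v i * r v i) * G v v ^ 2 - (∑ i, r v i * r v i) * G v v) ≤
        ∑ v, c * ∑ i, r v i * r v i := by
      refine Finset.sum_le_sum fun v _ => ?_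
      have h3 := mul_le_mul_of_nonneg_left (hgc v)
        (show 0 ≤ ∑ i, r v i * r v i from Finset.sum_nonneg fun i _ => mul_self_nonneg _)
      simp only [hg] at h3
      linarith
    rw [← Finset.mul_sum] at h2
    have := mul_le_mul_of_nonneg_left hrs hc0
    linarith
  have hend : ∑ u, ∑ v, (∑ i, r u i * r v i) * G u v ^ 2 ≤ 13 * (c * T) := by
    refine hfin.trans ?_
    rw [A5]
    linarith
  refine hend.trans ?_
  have hcT : c ≤ τ ^ 2 := by rw [hc]; linarith
  have h1 := mul_le_mul_of_nonneg_right hcT hT0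
  have h2 : 0 ≤ τ ^ 2 * T := by positivity
  nlinarith

include hp hP in
/-- the pairing of `T_h` with `P ⊗ n` -/
theorem key_pair (g : V → ℝ) :
    ∑ v, ∑ w, (∑ i, (h v * a v i - bb a p h v i) * a w i) * (∑ j, a v j * a w j) * g v =
      ∑ v, ∑ w, (∑ i, a v i * a w i) ^ 2 * g v * (h v - h w) := by
  have hab : ∀ u v, ∑ i, bb a p h u i * a v i = ∑ i, a u i * bb a p h v i :=
    fun u v => bb_symm h u v
  have hsb : ∀ i j, ∑ v, bb a p h v i * a v j = KK a p h i j * p j :=
    fun i j => sum_bb hP h i j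
  have hGs : ∀ u v, ∑ i, a u i * a v i = ∑ i, a v i * a u i :=
    fun u v => Finset.sum_congr rfl fun i _ => by ring
  have h1 := inner_two (bb a p h) a (fun v i => g v * a v i) a
  have h2 := inner_two (fun v i => h v * a v i) a (fun v i => g v * a v i) a
  simp only [hsb] at h1
  have h3 : ∑ i, ∑ j, KK a p h i j * p j * ∑ v, g v * a v i * a v j =
      ∑ i, ∑ j, (∑ v, h v * a v i * a v j) * ∑ v, g v * a v i * a v j := by
    have hs : ∑ i, ∑ j, KK a p h i j * p j * ∑ v, g v * a v i * a v j =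
        ∑ i, ∑ j, KK a p h j i * p i * ∑ v, g v * a v i * a v j := by
      rw [Finset.sum_comm]
      refine Finset.sum_congr rfl fun i _ => Finset.sum_congr rfl fun j _ => ?_
      congr 1
      exact Finset.sum_congr rfl fun v _ => by ring
    have h4 : ∑ i, ∑ j, KK a p h i j * p j * ∑ v, g v * a v i * a v j +
        ∑ i, ∑ j, KK a p h j i * p i * ∑ v, g v * a v i * a v j =
        2 * ∑ i, ∑ j, (∑ v, h v * a v i * a v j) * ∑ v, g v * a v i * a v j := by
      rw [Finset.mul_sum, ← Finset.sum_add_distrib]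
      refine Finset.sum_congr rfl fun i _ => ?_
      rw [Finset.mul_sum, ← Finset.sum_add_distrib]
      refine Finset.sum_congr rfl fun j _ => ?_
      have := lyap hp hP h i j
      unfold HH at this
      linear_combination (∑ v, g v * a v i * a v j) * this
    linarith
  rw [h1, h2] at h3
  have h5 : ∀ u v, ∑ i, bb a p h u i * (g v * a v i) = g v * ∑ i, bb a p h u i * a v i := by
    intro u v
    rw [Finset.mul_sum]
    exact Finset.sum_congr rfl fun i _ => by ring
  have h6 : ∀ u v, ∑ i, h u * a u i * (g v * a v i) = h u * g v * ∑ i, a u i * a v i := by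
    intro u v
    rw [Finset.mul_sum]
    exact Finset.sum_congr rfl fun i _ => by ring
  simp only [h5, h6] at h3
  -- swap the names in h3
  have h7 : ∑ v, ∑ w, g v * (∑ i, bb a p h v i * a w i) * (∑ i, a v i * a w i) =
      ∑ v, ∑ w, g v * h w * (∑ i, a v i * a w i) ^ 2 := by
    rw [Finset.sum_comm] at h3
    refine Eq.trans ?_ (h3.trans ?_)
    · refine Finset.sum_congr rfl fun v _ => Finset.sum_congr rfl fun w _ => ?_
      rw [hab v w, hGs v w]
      have : ∑ i, a v i * bb a p h w i = ∑ i, bb a p h w i * a v i :=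
        Finset.sum_congr rfl fun i _ => by ring
      rw [this]
    · rw [Finset.sum_comm]
      refine Finset.sum_congr rfl fun v _ => Finset.sum_congr rfl fun w _ => ?_
      rw [hGs v w]
      ring
  have h8 : ∀ v w, ∑ i, (h v * a v i - bb a p h v i) * a w i =
      h v * ∑ i, a v i * a w i - ∑ i, bb a p h v i * a w i := by
    intro v w
    rw [Finset.mul_sum, ← Finset.sum_sub_distrib]
    exact Finset.sum_congr rfl fun i _ => by ring
  have h9 : ∑ v, ∑ w, (∑ i, (h v * a v i - bb a p h v i) * a w i) * (∑ j, a v j * a w j) * g v =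
      ∑ v, ∑ w, h v * g v * (∑ i, a v i * a w i) ^ 2 -
        ∑ v, ∑ w, g v * (∑ i, bb a p h v i * a w i) * (∑ i, a v i * a w i) := by
    rw [← Finset.sum_sub_distrib]
    refine Finset.sum_congr rfl fun v _ => ?_
    rw [← Finset.sum_sub_distrib]
    refine Finset.sum_congr rfl fun w _ => ?_
    rw [h8]
    ring
  rw [h9, h7, ← Finset.sum_sub_distrib]
  refine Finset.sum_congr rfl fun v _ => ?_
  rw [← Finset.sum_sub_distrib]
  exact Finset.sum_congr rfl fun w _ => by ring

theorem cs_three (X Y : D → D → D → ℝ) :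
    (∑ k, ∑ i, ∑ j, X k i j * Y k i j) ^ 2 ≤
      (∑ k, ∑ i, ∑ j, X k i j * X k i j) * ∑ k, ∑ i, ∑ j, Y k i j * Y k i j := by
  have := Finset.sum_mul_sq_le_sq_mul_sq Finset.univ
    (fun x : D × D × D => X x.1 x.2.1 x.2.2) (fun x : D × D × D => Y x.1 x.2.1 x.2.2)
  simpa only [Fintype.sum_prod_type, pow_two (X _ _ _), pow_two (Y _ _ _)] using this

end Core

/-- The key lemma. -/
theorem keyB {V : Type*} [Fintype V] [DecidableEq V] (G : V → V → ℝ)
    (hsymm : ∀ u v, G u v = G v u) (hpsd : ∀ c : V → ℝ, 0 ≤ ∑ u, ∑ v, G u v * c u * c v)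
    (h01 : ∀ u v, u ≠ v → G u v = 0 ∨ G u v = 1) (τ : ℝ) (hτ : 1 ≤ τ)
    (hdiag : ∀ v, G v v = 0 ∨ (1 ≤ G v v ∧ G v v ≤ τ)) (h : V → ℝ) (hh : ∀ v, |h v| ≤ 1)
    (y : V → ℝ) :
    |∑ u, ∑ v, G u v ^ 2 * (∑ w, G u w * y w) * (h u - h v)| ≤
      4 * τ * √(∑ u, ∑ v, G u v * y u * y v) * √(∑ v, G v v) * √(∑ u, ∑ v, G u v ^ 2) := by
  obtain ⟨a, p, hp, haG, hP⟩ := spectral_coords G hsymm hpsd
  have hx := key_x hp hP h (by simpa only [haG] using h01) τ hτ (by simpa only [haG] using hdiag) hh
  set n : V → ℝ := fun k => ∑ w, y w * a w k with hn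
  have hg : ∀ v, ∑ k, a v k * n k = ∑ w, G v w * y w := by
    intro v
    simp only [hn, Finset.mul_sum]
    rw [Finset.sum_comm]
    refine Finset.sum_congr rfl fun w _ => ?_
    rw [← haG v w, Finset.sum_mul]
    exact Finset.sum_congr rfl fun k _ => by ring
  set r : V → V → ℝ := fun v i => h v * a v i - bb a p h v i with hr
  have e1 := inner_three r a a a a (fun _ k => n k)
  have e2 := inner_three r a a r a a
  have e3 := inner_three a a (fun _ k => n k) a a (fun _ k => n k)
  have hcs := cs_three (fun k i j => ∑ v, r v i * a v j * a v k)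
    (fun k i j => ∑ v, a v i * a v j * n k)
  rw [e1, e2, e3] at hcs
  simp only [hg, haG] at hcs
  have e4 := key_pair hp hP h (fun v => ∑ w, G v w * y w)
  simp only [haG] at e4
  have e5 : ∑ v, ∑ w, (∑ i, r v i * a w i) * G v w * (∑ w, G v w * y w) =
      ∑ u, ∑ v, G u v ^ 2 * (∑ w, G u w * y w) * (h u - h v) := e4
  rw [e5] at hcs
  simp only [haG] at hx
  have e6 : ∑ u, ∑ v, (∑ i, r u i * r v i) * G u v * G u v ≤ 16 * τ ^ 2 * ∑ v, G v v := by
    refine le_trans (le_of_eq ?_) hx
    exact Finset.sum_congr rfl fun u _ => Finset.sum_congr rfl fun v _ => by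
      simp only [hr]; ring
  have e7 : ∑ k, n k * n k = ∑ u, ∑ v, G u v * y u * y v := by
    simp only [hn, Finset.sum_mul_sum]
    rw [Finset.sum_comm]
    refine Finset.sum_congr rfl fun u _ => ?_
    rw [Finset.sum_comm]
    refine Finset.sum_congr rfl fun v _ => ?_
    rw [← haG u v, Finset.sum_mul, Finset.sum_mul]
    exact Finset.sum_congr rfl fun k _ => by ring
  have e8 : ∑ u, ∑ v, G u v * G u v * (∑ k, n k * n k) =
      (∑ u, ∑ v, G u v ^ 2) * ∑ u, ∑ v, G u v * y u * y v := by
    rw [e7, Finset.sum_mul]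
    refine Finset.sum_congr rfl fun u _ => ?_
    rw [Finset.sum_mul]
    exact Finset.sum_congr rfl fun v _ => by ring
  rw [e8] at hcs
  have hG2 : 0 ≤ ∑ u, ∑ v, G u v ^ 2 :=
    Finset.sum_nonneg fun u _ => Finset.sum_nonneg fun v _ => sq_nonneg _
  have hY : 0 ≤ ∑ u, ∑ v, G u v * y u * y v := hpsd y
  have hT : 0 ≤ ∑ v, G v v := by
    refine Finset.sum_nonneg fun v _ => ?_
    rcases hdiag v with h1 | ⟨h1, _⟩
    · rw [h1]
    · linarith
  have h2 := hcs.trans (mul_le_mul_of_nonneg_right e6 (mul_nonneg hG2 hY))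
  apply abs_le_of_sq_le_sq
  · refine h2.trans (le_of_eq ?_)
    rw [mul_pow, mul_pow, mul_pow, Real.sq_sqrt hY, Real.sq_sqrt hT, Real.sq_sqrt hG2]
    ring
  · have : 0 ≤ τ := by linarith
    positivity

end Pool.Agent.Lib.MP_7cecc1_co.SL
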