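import Mathlib
import Pool.Agent.Lib.MP_7cecc1_co.SL.Basic
import Pool.Agent.Lib.MP_7cecc1_co.SL.Key

/-! Neighbours have nearly the same degree into `Y`. -/

set_option autoImplicit false

namespace Pool.Agent.Lib.MP_7cecc1_co.SL

open Finset

/-- Q. Neighbours have nearly the same degree into `Y`. -/
theorem degree_reg {V : Type*} [Fintype V] [DecidableEq V] (A : V → V → ℝ) (hA : Adj A)
    (t : V → ℝ) (hpsd : PSDt A t) (τ Δ : ℝ) (W Y : Finset V) (hY : Y ⊆ W)
    (ht1 : ∀ v ∈ W, 1 ≤ t v) (htτ : ∀ v ∈ W, t v ≤ τ) (hτΔ : τ ≤ Δ)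
    (hdeg : ∀ v ∈ W, ∑ w ∈ W, A v w ≤ Δ) :
    ∑ v ∈ W, ∑ w ∈ W, A v w * (∑ y ∈ Y, A v y - ∑ y ∈ Y, A w y) ^ 2 ≤
      36 * Δ * τ * √(∑ v ∈ W, t v) * (∑ v ∈ W, ∑ w ∈ W, A v w + τ * ∑ v ∈ W, t v) := by
  classical
  rcases W.eq_empty_or_nonempty with rfl | ⟨v0, hv0⟩
  · simp
  have hA0 : ∀ u v, 0 ≤ A u v := fun u v => by
    rcases hA.zero_one u v with h | h <;> rw [h] <;> norm_num
  have hAsq : ∀ u v, A u v ^ 2 = A u v := fun u v => by
    rcases hA.zero_one u v with h | h <;> rw [h] <;> norm_num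
  have hτ : 1 ≤ τ := (ht1 v0 hv0).trans (htτ v0 hv0)
  have hΔ : 1 ≤ Δ := hτ.trans hτΔ
  set G : V → V → ℝ := fun u v => if u ∈ W ∧ v ∈ W then (if u = v then t u else A u v) else 0
    with hG
  set y : V → ℝ := fun v => if v ∈ Y then 1 else 0 with hy
  set g : V → ℝ := fun v => ∑ w, G v w * y w with hg
  have hsymm : ∀ u v, G u v = G v u := by
    intro u v
    simp only [hG]
    by_cases huv : u = v
    · subst huv; rfl
    · rw [if_neg huv, if_neg (Ne.symm huv), hA.symm u v]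
      by_cases h : u ∈ W ∧ v ∈ W
      · rw [if_pos h, if_pos ⟨h.2, h.1⟩]
      · rw [if_neg h, if_neg (fun h' => h ⟨h'.2, h'.1⟩)]
  -- sums of `G`
  have hGdiag : ∀ v, G v v = if v ∈ W then t v else 0 := by
    intro v
    simp only [hG, and_self, if_true]
  have hGoff : ∀ u v, u ≠ v → G u v = if u ∈ W ∧ v ∈ W then A u v else 0 := by
    intro u v h
    simp only [hG, if_neg h]
  have hGsplit : ∀ u v, G u v = (if u ∈ W ∧ v ∈ W then A u v else 0) +
      (if u = v then (if u ∈ W then t u else 0) else 0) := by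
    intro u v
    by_cases h : u = v
    · subst h
      rw [hGdiag, if_pos rfl, hA.diag]
      simp
    · rw [hGoff u v h, if_neg h, add_zero]
  have hsum : ∀ a b : V → ℝ, ∑ u, ∑ v, G u v * a u * b v =
      ∑ u ∈ W, ∑ v ∈ W, A u v * a u * b v + ∑ v ∈ W, t v * a v * b v := by
    intro a b
    have e1 : ∀ u v, G u v * a u * b v = (if u ∈ W ∧ v ∈ W then A u v * a u * b v else 0) +
        (if u = v then (if u ∈ W then t u * a u * b u else 0) else 0) := by
      intro u v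
      rw [hGsplit]
      by_cases h : u = v
      · subst h
        by_cases h2 : u ∈ W
        · simp [h2]; ring
        · simp [h2]
      · simp only [if_neg h, add_zero]
        split_ifs <;> ring
    simp_rw [e1, Finset.sum_add_distrib]
    congr 1
    · have e2 : ∀ u, ∑ v, (if u ∈ W ∧ v ∈ W then A u v * a u * b v else 0) =
          if u ∈ W then ∑ v ∈ W, A u v * a u * b v else 0 := by
        intro u
        by_cases h : u ∈ W
        · simp [h, Finset.sum_ite_mem]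
        · simp [h]
      simp_rw [e2]
      rw [Finset.sum_ite_mem, Finset.univ_inter]
    · simp [Finset.sum_ite_mem]
  have hpsdG : ∀ c : V → ℝ, 0 ≤ ∑ u, ∑ v, G u v * c u * c v := by
    intro c
    rw [hsum]
    have h := hpsd (fun v => if v ∈ W then c v else 0)
    have e1 : ∑ u, ∑ v, A u v * (if u ∈ W then c u else 0) * (if v ∈ W then c v else 0) =
        ∑ u ∈ W, ∑ v ∈ W, A u v * c u * c v := by
      have e2 : ∀ u, ∑ v, A u v * (if u ∈ W then c u else 0) * (if v ∈ W then c v else 0) =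
          if u ∈ W then ∑ v ∈ W, A u v * c u * c v else 0 := by
        intro u
        by_cases h : u ∈ W
        · simp [h, Finset.sum_ite_mem]
        · simp [h]
      simp_rw [e2]
      rw [Finset.sum_ite_mem, Finset.univ_inter]
    have e3 : ∑ v, t v * (if v ∈ W then c v else 0) ^ 2 = ∑ v ∈ W, t v * c v * c v := by
      have e4 : ∀ v, t v * (if v ∈ W then c v else 0) ^ 2 =
          if v ∈ W then t v * c v * c v else 0 := by
        intro v
        split_ifs <;> ring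
      simp_rw [e4]
      rw [Finset.sum_ite_mem, Finset.univ_inter]
    rw [e1, e3] at h
    exact h
  have h01 : ∀ u v, u ≠ v → G u v = 0 ∨ G u v = 1 := by
    intro u v h
    rw [hGoff u v h]
    by_cases h2 : u ∈ W ∧ v ∈ W
    · rw [if_pos h2]; exact hA.zero_one u v
    · rw [if_neg h2]; exact Or.inl rfl
  have hdiag : ∀ v, G v v = 0 ∨ (1 ≤ G v v ∧ G v v ≤ τ) := by
    intro v
    rw [hGdiag]
    by_cases h : v ∈ W
    · rw [if_pos h]; exact Or.inr ⟨ht1 v h, htτ v h⟩
    · rw [if_neg h]; exact Or.inl rfl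
  -- values of `g`
  have hgW : ∀ v ∈ W, g v = ∑ y ∈ Y, A v y + (if v ∈ Y then t v else 0) := by
    intro v hv
    have e1 : ∀ w, G v w * y w = (if w ∈ Y then A v w else 0) +
        (if v = w then (if v ∈ Y then t v else 0) else 0) := by
      intro w
      rw [hGsplit]
      simp only [hy]
      by_cases h : v = w
      · subst h
        by_cases h2 : v ∈ Y
        · simp [h2, hv]
        · simp [h2]
      · by_cases h2 : w ∈ Y
        · simp [h, h2, hv, hY h2]
        · simp [h, h2]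
    simp only [hg]
    simp_rw [e1, Finset.sum_add_distrib]
    rw [Finset.sum_ite_mem, Finset.univ_inter]
    simp
  have hgN : ∀ v, v ∉ W → g v = 0 := by
    intro v hv
    simp only [hg]
    refine Finset.sum_eq_zero fun w _ => ?_
    rw [hGsplit]
    simp [hv]
  have hg0 : ∀ v, 0 ≤ g v := by
    intro v
    by_cases hv : v ∈ W
    · rw [hgW v hv]
      refine add_nonneg (Finset.sum_nonneg fun w _ => hA0 v w) ?_
      split_ifs
      · linarith [ht1 v hv]
      · exact le_rfl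
    · rw [hgN v hv]
  have hg2 : ∀ v, g v ≤ 2 * Δ := by
    intro v
    by_cases hv : v ∈ W
    · rw [hgW v hv]
      have h1 : ∑ y ∈ Y, A v y ≤ ∑ y ∈ W, A v y :=
        Finset.sum_le_sum_of_subset_of_nonneg hY (fun w _ _ => hA0 v w)
      have h2 : (if v ∈ Y then t v else 0) ≤ Δ := by
        split_ifs
        · exact (htτ v hv).trans hτΔ
        · linarith
      linarith [hdeg v hv]
    · rw [hgN v hv]; linarith
  have hkey := keyB G hsymm hpsdG h01 τ hτ hdiag (fun v => g v / (2 * Δ)) (fun v => by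
    rw [abs_of_nonneg (div_nonneg (hg0 v) (by linarith)), div_le_one (by linarith)]
    exact hg2 v) y
  -- symmetrisation
  have hsq : ∑ u, ∑ v, G u v ^ 2 * (∑ w, G u w * y w) * (g u / (2 * Δ) - g v / (2 * Δ)) =
      (1 / (4 * Δ)) * ∑ u, ∑ v, G u v ^ 2 * (g u - g v) ^ 2 := by
    have e1 : ∑ u, ∑ v, G u v ^ 2 * g u * (g u - g v) =
        ∑ u, ∑ v, G u v ^ 2 * g v * (g v - g u) := by
      rw [Finset.sum_comm]
      refine Finset.sum_congr rfl fun u _ => Finset.sum_congr rfl fun v _ => ?_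
      rw [hsymm v u]
    have e2 : ∑ u, ∑ v, G u v ^ 2 * (g u - g v) ^ 2 =
        ∑ u, ∑ v, G u v ^ 2 * g u * (g u - g v) + ∑ u, ∑ v, G u v ^ 2 * g v * (g v - g u) := by
      rw [← Finset.sum_add_distrib]
      refine Finset.sum_congr rfl fun u _ => ?_
      rw [← Finset.sum_add_distrib]
      exact Finset.sum_congr rfl fun v _ => by ring
    rw [e2, ← e1, ← two_mul]
    rw [Finset.mul_sum, Finset.mul_sum]
    refine Finset.sum_congr rfl fun u _ => ?_
    rw [Finset.mul_sum, Finset.mul_sum]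
    refine Finset.sum_congr rfl fun v _ => ?_
    change G u v ^ 2 * g u * (g u / (2 * Δ) - g v / (2 * Δ)) = _
    have : Δ ≠ 0 := by linarith
    field_simp
    ring
  rw [hsq] at hkey
  have hB0 : 0 ≤ ∑ u, ∑ v, G u v ^ 2 * (g u - g v) ^ 2 :=
    Finset.sum_nonneg fun u _ => Finset.sum_nonneg fun v _ => by positivity
  rw [abs_of_nonneg (by positivity)] at hkey
  set B := ∑ v ∈ W, ∑ w ∈ W, A v w + τ * ∑ v ∈ W, t v with hB
  set Tw := ∑ v ∈ W, t v with hTw
  have hTw1 : 1 ≤ Tw := by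
    rw [hTw]
    exact (ht1 v0 hv0).trans (Finset.single_le_sum (f := t) (fun v hv => by
      linarith [ht1 v hv]) hv0)
  have hAW0 : 0 ≤ ∑ v ∈ W, ∑ w ∈ W, A v w :=
    Finset.sum_nonneg fun u _ => Finset.sum_nonneg fun v _ => hA0 u v
  have hBpos : 0 ≤ B := by rw [hB]; positivity
  have eG2 : ∑ u, ∑ v, G u v ^ 2 ≤ B := by
    have e1 : ∀ u v, G u v ^ 2 = (if u ∈ W ∧ v ∈ W then A u v else 0) +
        (if u = v then (if u ∈ W then t u ^ 2 else 0) else 0) := by
      intro u v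
      rw [hGsplit]
      by_cases h : u = v
      · subst h
        by_cases h2 : u ∈ W
        · simp [h2, hA.diag]
        · simp [h2]
      · simp only [if_neg h, add_zero]
        split_ifs
        · exact hAsq u v
        · norm_num
    simp_rw [e1, Finset.sum_add_distrib]
    rw [hB]
    refine add_le_add (le_of_eq ?_) ?_
    · have e2 : ∀ u, ∑ v, (if u ∈ W ∧ v ∈ W then A u v else 0) =
          if u ∈ W then ∑ v ∈ W, A u v else 0 := by
        intro u
        by_cases h : u ∈ W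
        · simp [h, Finset.sum_ite_mem]
        · simp [h]
      simp_rw [e2]
      rw [Finset.sum_ite_mem, Finset.univ_inter]
    · simp only [Finset.sum_ite_eq, Finset.mem_univ, if_true]
      rw [Finset.sum_ite_mem, Finset.univ_inter, Finset.mul_sum]
      refine Finset.sum_le_sum fun v hv => ?_
      nlinarith [ht1 v hv, htτ v hv]
  have eGy : ∑ u, ∑ v, G u v * y u * y v ≤ B := by
    rw [hsum, hB]
    have hy01 : ∀ v, 0 ≤ y v ∧ y v ≤ 1 := by
      intro v; simp only [hy]; split_ifs <;> norm_num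
    refine add_le_add ?_ ?_
    · refine Finset.sum_le_sum fun u _ => Finset.sum_le_sum fun v _ => ?_
      calc A u v * y u * y v ≤ A u v * 1 * 1 := by
            refine mul_le_mul (mul_le_mul_of_nonneg_left (hy01 u).2 (hA0 u v)) (hy01 v).2
              (hy01 v).1 (by linarith [hA0 u v])
        _ = A u v := by ring
    · rw [Finset.mul_sum]
      refine Finset.sum_le_sum fun v hv => ?_
      have h1 : y v * y v ≤ 1 := by nlinarith [(hy01 v).1, (hy01 v).2]
      have h2 := ht1 v hv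
      have h3 : t v * y v * y v ≤ t v := by nlinarith
      nlinarith
  have eGd : ∑ v, G v v = Tw := by
    simp_rw [hGdiag]
    rw [Finset.sum_ite_mem, Finset.univ_inter]
  rw [eGd] at hkey
  have hkey2 : ∑ u, ∑ v, G u v ^ 2 * (g u - g v) ^ 2 ≤ 16 * Δ * τ * √Tw * B := by
    have h1 : √(∑ u, ∑ v, G u v * y u * y v) ≤ √B := Real.sqrt_le_sqrt eGy
    have h2 : √(∑ u, ∑ v, G u v ^ 2) ≤ √B := Real.sqrt_le_sqrt eG2
    have h3 : √B * √B = B := Real.mul_self_sqrt hBpos
    have h4 : 4 * τ * √(∑ u, ∑ v, G u v * y u * y v) * √Tw * √(∑ u, ∑ v, G u v ^ 2) ≤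
        4 * τ * √Tw * B := by
      calc 4 * τ * √(∑ u, ∑ v, G u v * y u * y v) * √Tw * √(∑ u, ∑ v, G u v ^ 2)
          ≤ 4 * τ * √B * √Tw * √B := by gcongr
        _ = 4 * τ * √Tw * (√B * √B) := by ring
        _ = 4 * τ * √Tw * B := by rw [h3]
    have h5 := hkey.trans h4
    have h6 : ∑ u, ∑ v, G u v ^ 2 * (g u - g v) ^ 2 =
        4 * Δ * (1 / (4 * Δ) * ∑ u, ∑ v, G u v ^ 2 * (g u - g v) ^ 2) := by
      have : Δ ≠ 0 := by linarith
      field_simp
    rw [h6]
    calc 4 * Δ * (1 / (4 * Δ) * ∑ u, ∑ v, G u v ^ 2 * (g u - g v) ^ 2)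
        ≤ 4 * Δ * (4 * τ * √Tw * B) := by
          apply mul_le_mul_of_nonneg_left h5; linarith
      _ = 16 * Δ * τ * √Tw * B := by ring
  -- comparison
  have hterm : ∀ v ∈ W, ∀ w ∈ W, A v w * (∑ y ∈ Y, A v y - ∑ y ∈ Y, A w y) ^ 2 ≤
      2 * (G v w ^ 2 * (g v - g w) ^ 2) + 2 * τ ^ 2 * A v w := by
    intro v hv w hw
    by_cases hvw : v = w
    · subst hvw
      rw [hA.diag, zero_mul, mul_zero, add_zero]
      positivity
    have hGA : G v w ^ 2 = A v w := by
      rw [hGoff v w hvw, if_pos ⟨hv, hw⟩, hAsq]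
    rw [hGA, hgW v hv, hgW w hw]
    have hb : ∀ x ∈ W, 0 ≤ (if x ∈ Y then t x else 0) ∧ (if x ∈ Y then t x else 0) ≤ τ := by
      intro x hx
      split_ifs
      · exact ⟨by linarith [ht1 x hx], htτ x hx⟩
      · exact ⟨le_rfl, by linarith⟩
    obtain ⟨a0, a1⟩ := hb v hv
    obtain ⟨b0, b1⟩ := hb w hw
    set a := (if v ∈ Y then t v else 0)
    set b := (if w ∈ Y then t w else 0)
    set p := ∑ y ∈ Y, A v y
    set q := ∑ y ∈ Y, A w y
    have h1 : (p - q) ^ 2 ≤ 2 * (p + a - (q + b)) ^ 2 + 2 * τ ^ 2 := by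
      have h2 : (a - b) ^ 2 ≤ τ ^ 2 := by
        exact sq_le_sq' (by linarith) (by linarith)
      nlinarith [sq_nonneg (p - q + 2 * (a - b))]
    calc A v w * (p - q) ^ 2 ≤ A v w * (2 * (p + a - (q + b)) ^ 2 + 2 * τ ^ 2) :=
          mul_le_mul_of_nonneg_left h1 (hA0 v w)
      _ = 2 * (A v w * (p + a - (q + b)) ^ 2) + 2 * τ ^ 2 * A v w := by ring
  have hfin : ∑ v ∈ W, ∑ w ∈ W, A v w * (∑ y ∈ Y, A v y - ∑ y ∈ Y, A w y) ^ 2 ≤
      2 * (∑ u, ∑ v, G u v ^ 2 * (g u - g v) ^ 2) + 2 * τ ^ 2 * ∑ v ∈ W, ∑ w ∈ W, A v w := by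
    calc ∑ v ∈ W, ∑ w ∈ W, A v w * (∑ y ∈ Y, A v y - ∑ y ∈ Y, A w y) ^ 2
        ≤ ∑ v ∈ W, ∑ w ∈ W, (2 * (G v w ^ 2 * (g v - g w) ^ 2) + 2 * τ ^ 2 * A v w) :=
          Finset.sum_le_sum fun v hv => Finset.sum_le_sum fun w hw => hterm v hv w hw
      _ = 2 * (∑ v ∈ W, ∑ w ∈ W, G v w ^ 2 * (g v - g w) ^ 2) +
          2 * τ ^ 2 * ∑ v ∈ W, ∑ w ∈ W, A v w := by
          simp_rw [Finset.sum_add_distrib, Finset.mul_sum]
      _ ≤ _ := by
          have h1 : ∑ v ∈ W, ∑ w ∈ W, G v w ^ 2 * (g v - g w) ^ 2 ≤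
              ∑ u, ∑ v, G u v ^ 2 * (g u - g v) ^ 2 := by
            calc ∑ v ∈ W, ∑ w ∈ W, G v w ^ 2 * (g v - g w) ^ 2
                ≤ ∑ v ∈ W, ∑ w, G v w ^ 2 * (g v - g w) ^ 2 :=
                  Finset.sum_le_sum fun v _ => Finset.sum_le_sum_of_subset_of_nonneg
                    (Finset.subset_univ _) (fun w _ _ => by positivity)
              _ ≤ _ := Finset.sum_le_sum_of_subset_of_nonneg
                    (Finset.subset_univ _) (fun w _ _ =>
                      Finset.sum_nonneg fun _ _ => by positivity)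
          linarith
  have hsT : 1 ≤ √Tw := by
    rw [Real.one_le_sqrt]; exact hTw1
  have hlast : 2 * τ ^ 2 * ∑ v ∈ W, ∑ w ∈ W, A v w ≤ 4 * Δ * τ * √Tw * B := by
    have h1 : ∑ v ∈ W, ∑ w ∈ W, A v w ≤ B := by
      rw [hB]
      have : 0 ≤ τ * Tw := by positivity
      linarith
    have h2 : τ ^ 2 ≤ Δ * τ := by nlinarith
    have h3 : 2 * τ ^ 2 ≤ 4 * Δ * τ * √Tw := by
      have h4 : 0 ≤ Δ * τ := by positivity
      nlinarith
    calc 2 * τ ^ 2 * ∑ v ∈ W, ∑ w ∈ W, A v w ≤ 2 * τ ^ 2 * B := by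
          apply mul_le_mul_of_nonneg_left h1; positivity
      _ ≤ 4 * Δ * τ * √Tw * B := mul_le_mul_of_nonneg_right h3 hBpos
  calc _ ≤ _ := hfin
    _ ≤ 2 * (16 * Δ * τ * √Tw * B) + 4 * Δ * τ * √Tw * B := by linarith
    _ = 36 * Δ * τ * √Tw * B := by ring

end Pool.Agent.Lib.MP_7cecc1_co.SL
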