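import Mathlib
import Pool.Agent.Lib.MP_7cecc1_co.SL.Basic
import Pool.Agent.Lib.MP_7cecc1_co.SL.Degree

/-! From degree regularity in every block to the global bound (helper56). -/

namespace Pool.Agent.Lib.MP_7cecc1_co.SL

open Finset

/-- `block_err` for any functional bound; `hreg` is the conclusion of `degree_reg` in all blocks. -/
theorem block_err_of {V : Type*} [Fintype V] [DecidableEq V] (A : V → V → ℝ) (hA : Adj A)
    (t : V → ℝ) (ht1 : ∀ v, 1 ≤ t v) (m S : ℝ) (hm : ∑ u, ∑ v, A u v = 2 * m)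
    (hS : ∑ v, t v ≤ S) (Z : Finset V) (τ Δ Tm : ℝ) (hτ0 : 0 ≤ τ) (hτΔ : τ ≤ Δ)
    (hreg : ∀ W Y : Finset V, W ⊆ Z → Y ⊆ W →
      ∑ v ∈ W, ∑ w ∈ W, A v w * (∑ y ∈ Y, A v y - ∑ y ∈ Y, A w y) ^ 2 ≤
      36 * Δ * τ * √(∑ v ∈ W, t v) * (∑ v ∈ W, ∑ w ∈ W, A v w + τ * ∑ v ∈ W, t v))
    (L : ℕ) (hL : 0 < L) (q : V → ℕ)
    (hT : ∀ j, ∑ v ∈ Z with q v / L = j, t v ≤ Tm) (P : ℕ → V → Prop) [∀ r u, Decidable (P r u)] :
    ∑ v, ∑ w, blk A Z (fun v => q v / L) v w *
      (∑ u, blk A Z (fun v => q v / L) v u * (if P (q v) u then 1 else 0) -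
        ∑ u, blk A Z (fun v => q v / L) w u * (if P (q v) u then 1 else 0)) ^ 2 ≤
      L * (36 * Δ * τ * √Tm * (2 * m + τ * S)) := by
  have hA0 : ∀ u v, 0 ≤ A u v := fun u v => by rcases hA.zero_one u v with h | h <;> simp [h]
  set W : ℕ → Finset V := fun j => Z.filter (fun v => q v / L = j) with hW
  set J : Finset ℕ := Z.image (fun v => q v / L) with hJ
  have hmem : ∀ v ∈ Z, q v / L ∈ J := fun v hv => mem_image_of_mem _ hv
  -- inner sums
  have hin : ∀ j, ∀ v ∈ W j, ∀ r, ∑ u, blk A Z (fun v => q v / L) v u * (if P r u then 1 else 0) =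
      ∑ u ∈ (W j).filter (fun u => P r u), A v u := by
    intro j v hv r
    rw [sum_filter, hW]
    simp only
    rw [sum_filter, ← sum_filter_add_sum_filter_not univ (fun u => u ∈ Z)]
    have h2 : ∑ u with u ∉ Z, blk A Z (fun v => q v / L) v u * (if P r u then (1:ℝ) else 0) = 0 := by
      refine sum_eq_zero fun u hu => ?_
      rw [mem_filter] at hu
      simp [blk, hu.2]
    rw [h2, add_zero, filter_mem_eq_inter, univ_inter]
    refine sum_congr rfl fun u hu => ?_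
    have hv' := (mem_filter.1 hv)
    simp only [blk]
    by_cases h : q u / L = j
    · rw [if_pos ⟨hv'.1, hu, by rw [h]; exact hv'.2⟩, if_pos h]
      split_ifs <;> simp
    · rw [if_neg (fun h' => h (by rw [← h'.2.2]; exact hv'.2)), if_neg h, zero_mul]
  set g : ℕ → V → ℕ → ℝ := fun j v r => ∑ w ∈ W j, A v w *
    (∑ u ∈ (W j).filter (fun u => P r u), A v u - ∑ u ∈ (W j).filter (fun u => P r u), A w u) ^ 2 with hg
  have hg0 : ∀ j v r, 0 ≤ g j v r := fun j v r => sum_nonneg fun w _ => mul_nonneg (hA0 _ _) (sq_nonneg _)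
  have h1 : ∑ v, ∑ w, blk A Z (fun v => q v / L) v w *
      (∑ u, blk A Z (fun v => q v / L) v u * (if P (q v) u then 1 else 0) -
        ∑ u, blk A Z (fun v => q v / L) w u * (if P (q v) u then 1 else 0)) ^ 2 =
      ∑ j ∈ J, ∑ v ∈ W j, g j v (q v) := by
    rw [← sum_filter_add_sum_filter_not univ (fun v => v ∈ Z)]
    have h2 : ∑ v with v ∉ Z, ∑ w, blk A Z (fun v => q v / L) v w *
      (∑ u, blk A Z (fun v => q v / L) v u * (if P (q v) u then (1:ℝ) else 0) -
        ∑ u, blk A Z (fun v => q v / L) w u * (if P (q v) u then 1 else 0)) ^ 2 = 0 := by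
      refine sum_eq_zero fun v hv => sum_eq_zero fun w _ => ?_
      rw [mem_filter] at hv
      rw [show blk A Z (fun v => q v / L) v w = 0 by simp [blk, hv.2], zero_mul]
    rw [h2, add_zero, filter_mem_eq_inter, univ_inter]
    rw [← sum_fiberwise_of_maps_to hmem]
    refine sum_congr rfl fun j _ => sum_congr rfl fun v hv => ?_
    have hv' := (mem_filter.1 hv)
    rw [hg]
    simp only
    have h3 : ∑ w, blk A Z (fun v => q v / L) v w *
      (∑ u, blk A Z (fun v => q v / L) v u * (if P (q v) u then (1:ℝ) else 0) -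
        ∑ u, blk A Z (fun v => q v / L) w u * (if P (q v) u then 1 else 0)) ^ 2 =
        ∑ w ∈ W j, blk A Z (fun v => q v / L) v w *
      (∑ u, blk A Z (fun v => q v / L) v u * (if P (q v) u then (1:ℝ) else 0) -
        ∑ u, blk A Z (fun v => q v / L) w u * (if P (q v) u then 1 else 0)) ^ 2 := by
      symm
      apply sum_subset (subset_univ _)
      intro w _ hw
      have : blk A Z (fun v => q v / L) v w = 0 := by
        simp only [blk]
        rw [if_neg]
        intro h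
        exact hw (mem_filter.2 ⟨h.2.1, by rw [← h.2.2]; exact hv'.2⟩)
      rw [this, zero_mul]
    rw [h3]
    refine sum_congr rfl fun w hw => ?_
    rw [hin j v hv, hin j w hw]
    have hw' := (mem_filter.1 hw)
    have : blk A Z (fun v => q v / L) v w = A v w := by
      simp only [blk]
      rw [if_pos ⟨hv'.1, hw'.1, by rw [hv'.2, hw'.2]⟩]
    rw [this]
  rw [h1]
  have h4 : ∀ j ∈ J, ∑ v ∈ W j, g j v (q v) ≤
      L * (36 * Δ * τ * √Tm * (∑ v ∈ W j, ∑ w ∈ W j, A v w + τ * ∑ v ∈ W j, t v)) := by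
    intro j _
    calc ∑ v ∈ W j, g j v (q v) ≤ ∑ v ∈ W j, ∑ r ∈ Ico (L * j) (L * j + L), g j v r := by
          refine sum_le_sum fun v hv => ?_
          apply single_le_sum (f := fun r => g j v r) (fun r _ => hg0 j v r)
          have hv' := (mem_filter.1 hv).2
          rw [mem_Ico]
          constructor
          · rw [← hv']; exact Nat.mul_div_le _ _
          · rw [← hv']; exact Nat.lt_mul_div_succ _ hL |>.trans_eq (by ring)
      _ = ∑ r ∈ Ico (L * j) (L * j + L), ∑ v ∈ W j, g j v r := sum_comm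
      _ ≤ ∑ r ∈ Ico (L * j) (L * j + L),
          (36 * Δ * τ * √Tm * (∑ v ∈ W j, ∑ w ∈ W j, A v w + τ * ∑ v ∈ W j, t v)) := by
          refine sum_le_sum fun r _ => ?_
          refine (hreg (W j) ((W j).filter (fun u => P r u)) (filter_subset _ _)
            (filter_subset _ _)).trans ?_
          have e1 : 0 ≤ ∑ v ∈ W j, ∑ w ∈ W j, A v w + τ * ∑ v ∈ W j, t v := by
            have e2 : 0 ≤ ∑ v ∈ W j, ∑ w ∈ W j, A v w :=
              sum_nonneg fun v _ => sum_nonneg fun w _ => hA0 _ _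
            have e3 : 0 ≤ ∑ v ∈ W j, t v := sum_nonneg fun v _ => by linarith [ht1 v]
            positivity
          have e4 : 0 ≤ Δ := hτ0.trans hτΔ
          have e5 : √(∑ v ∈ W j, t v) ≤ √Tm := Real.sqrt_le_sqrt (hT j)
          gcongr
      _ = _ := by rw [sum_const, Nat.card_Ico, nsmul_eq_mul]; simp
  refine (sum_le_sum h4).trans ?_
  rw [← mul_sum, ← mul_sum, sum_add_distrib, ← mul_sum]
  have e4 : 0 ≤ Δ := hτ0.trans hτΔ
  have e6 : ∑ j ∈ J, ∑ v ∈ W j, ∑ w ∈ W j, A v w ≤ 2 * m := by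
    rw [← hm]
    calc ∑ j ∈ J, ∑ v ∈ W j, ∑ w ∈ W j, A v w ≤ ∑ j ∈ J, ∑ v ∈ W j, ∑ w, A v w := by
          refine sum_le_sum fun j _ => sum_le_sum fun v _ => ?_
          exact sum_le_sum_of_subset_of_nonneg (subset_univ _) fun w _ _ => hA0 _ _
      _ = ∑ v ∈ Z, ∑ w, A v w := sum_fiberwise_of_maps_to hmem _
      _ ≤ _ := sum_le_sum_of_subset_of_nonneg (subset_univ _) fun v _ _ =>
          sum_nonneg fun w _ => hA0 _ _
  have e7 : ∑ j ∈ J, ∑ v ∈ W j, t v ≤ S := by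
    refine le_trans ?_ hS
    rw [show ∑ j ∈ J, ∑ v ∈ W j, t v = ∑ v ∈ Z, t v from sum_fiberwise_of_maps_to hmem _]
    exact sum_le_sum_of_subset_of_nonneg (subset_univ _) fun v _ _ => by linarith [ht1 v]
  gcongr

theorem block_err {V : Type*} [Fintype V] [DecidableEq V] (A : V → V → ℝ) (hA : Adj A)
    (t : V → ℝ) (ht1 : ∀ v, 1 ≤ t v) (hpsd : PSDt A t) (m S : ℝ) (hm : ∑ u, ∑ v, A u v = 2 * m)
    (hS : ∑ v, t v ≤ S) (Z : Finset V) (τ Δ Tm : ℝ) (hτ0 : 0 ≤ τ) (hτΔ : τ ≤ Δ) (htτ : ∀ v ∈ Z, t v ≤ τ)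
    (hdeg : ∀ v ∈ Z, ∑ w ∈ Z, A v w ≤ Δ) (L : ℕ) (hL : 0 < L) (q : V → ℕ)
    (hT : ∀ j, ∑ v ∈ Z with q v / L = j, t v ≤ Tm) (P : ℕ → V → Prop) [∀ r u, Decidable (P r u)] :
    ∑ v, ∑ w, blk A Z (fun v => q v / L) v w *
      (∑ u, blk A Z (fun v => q v / L) v u * (if P (q v) u then 1 else 0) -
        ∑ u, blk A Z (fun v => q v / L) w u * (if P (q v) u then 1 else 0)) ^ 2 ≤
      L * (36 * Δ * τ * √Tm * (2 * m + τ * S)) := by
  have hA0 : ∀ u v, 0 ≤ A u v := fun u v => by rcases hA.zero_one u v with h | h <;> simp [h]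
  exact block_err_of A hA t ht1 m S hm hS Z τ Δ Tm hτ0 hτΔ
    (fun W Y hW hY => degree_reg A hA t hpsd τ Δ W Y hY (fun v _ => ht1 v)
      (fun v hv => htτ v (hW hv)) hτΔ (fun v hv => (sum_le_sum_of_subset_of_nonneg hW
        (fun w _ _ => hA0 v w)).trans (hdeg v (hW hv)))) L hL q hT P

end Pool.Agent.Lib.MP_7cecc1_co.SL
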