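import Pool.Agent.Lib.MP_7cecc1_co.SL.LevelOf
import Pool.Agent.Lib.MP_7cecc1_co.SL.Degree

/-! The level lemma for the lower bound `α₀(S) ≥ 5/7` of MP_7cecc1_co. -/

namespace Pool.Agent.Lib.MP_7cecc1_co.SL

open Finset

/-- P4b. The level lemma. -/
theorem level {V : Type*} [Fintype V] [LinearOrder V] (A : V → V → ℝ) (t : V → ℝ) (m S : ℝ)
    (hd : Data A t m S) (E0 : ℝ)
    (hE0 : ∀ c : V → ℝ, (∀ v, |c v| ≤ 1) → |∑ v, c v * ∑ w, A v w * sg v w| ≤ E0)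
    (Z : Finset V) (Δ τ Ds c0 : ℝ) (L K : ℕ) (hL : 0 < L) (hDs : 0 < Ds) (hc0 : 0 < c0)
    (hdegZ : ∀ v ∈ Z, ∑ w ∈ Z, A v w ≤ Δ) (htZ : ∀ v ∈ Z, t v ≤ τ) (hτ0 : 0 ≤ τ) (hτΔ : τ ≤ Δ)
    (hτc : τ ≤ c0) (hτD : τ ≤ Ds / 4) (hcK : c0 / (L : ℝ) ^ K ≤ Ds / 4) (hτm : τ * S ≤ m) :
    ∑ v ∈ Z with Ds ≤ ∑ w ∈ Z, A v w, ∑ w ∈ Z, A v w ≤
      3 * 4 ^ (K + 1) * (∑ v ∈ Z, ∑ w ∈ Zᶜ, A v w + S / c0 * E0 +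
        (3 * E0 + 7 / 2 * (53 * m * √(L * Δ * τ * √c0) / Ds))) := by
  refine level_of A t m S hd E0 hE0 Z Δ τ Ds c0 L K hL hDs hc0 ?_ htZ hτ0 hτΔ hτc hτD hcK hτm
  intro W Y hW hY
  refine degree_reg A hd.adj t hd.psd τ Δ W Y hY (fun v _ => hd.t_one v)
    (fun v hv => htZ v (hW hv)) hτΔ fun v hv => ?_
  exact (sum_le_sum_of_subset_of_nonneg hW fun w _ _ => hd.adj.nonneg v w).trans
    (hdegZ v (hW hv))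

end Pool.Agent.Lib.MP_7cecc1_co.SL
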