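import Mathlib
import Pool.Agent.Lib.MP_7cecc1_co.SL.Level

/-! Going down the levels. -/

namespace Pool.Agent.Lib.MP_7cecc1_co.SL

open Finset

section Basics

variable {V : Type*} [Fintype V] [LinearOrder V] {A : V → V → ℝ} {t : V → ℝ} {m S : ℝ}

theorem Data.S_nonneg (hd : Data A t m S) : 0 ≤ S :=
  le_trans (Finset.sum_nonneg fun v _ => by linarith [hd.t_one v]) hd.t_sum

theorem Data.form_le (hd : Data A t m S) (c : V → ℝ) (hc : ∀ v, |c v| ≤ 1) :
    ∑ u, ∑ v, A u v * c u * c v + ∑ v, t v * c v ^ 2 ≤ 2 * m + S := by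
  have h1 : ∑ u, ∑ v, A u v * c u * c v ≤ 2 * m := by
    rw [← hd.edges]
    refine Finset.sum_le_sum fun u _ => Finset.sum_le_sum fun v _ => ?_
    have h2 : c u * c v ≤ 1 := by
      refine (le_abs_self _).trans ?_
      rw [abs_mul]
      calc |c u| * |c v| ≤ 1 * 1 := mul_le_mul (hc u) (hc v) (abs_nonneg _) zero_le_one
        _ = 1 := one_mul 1
    have h3 := mul_le_mul_of_nonneg_left h2 (hd.adj.nonneg u v)
    linarith
  have h2 : ∑ v, t v * c v ^ 2 ≤ S := by
    refine le_trans (Finset.sum_le_sum fun v _ => ?_) hd.t_sum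
    have h3 : c v ^ 2 ≤ 1 := by
      rw [← sq_abs]
      have := hc v
      have h0 := abs_nonneg (c v)
      nlinarith
    have h4 := mul_le_mul_of_nonneg_left h3 (show 0 ≤ t v by linarith [hd.t_one v])
    linarith
  linarith

theorem Data.E0_le (hd : Data A t m S) (hSm : S ≤ m) (c : V → ℝ) (hc : ∀ v, |c v| ≤ 1) :
    |∑ v, c v * ∑ w, A v w * sg v w| ≤ √(S * (3 * m)) := by
  apply Real.abs_le_sqrt
  refine (hd.bal c).trans ?_
  refine mul_le_mul_of_nonneg_left ?_ hd.S_nonneg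
  linarith [hd.form_le c hc]

/-- degrees of heavy vertices -/
theorem Data.heavy (hd : Data A t m S) (hSm : S ≤ m) (τ0 : ℝ) (hτ : 0 < τ0) :
    ∑ v with τ0 < t v, ∑ w, A v w ≤ √(((S / τ0) ^ 2 + S) * (3 * m)) := by
  classical
  set H : Finset V := Finset.univ.filter fun v => τ0 < t v with hH
  set x : V → ℝ := fun v => if v ∈ H then 1 else 0 with hx
  -- Cauchy-Schwarz
  set Q : (V → ℝ) → ℝ := fun c => ∑ u, ∑ v, A u v * c u * c v + ∑ v, t v * c v ^ 2 with hQ
  set b : ℝ := ∑ u, ∑ v, A u v * x u + ∑ v, t v * x v with hb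
  have hQpos : ∀ c, 0 ≤ Q c := hd.psd
  have hexp : ∀ l : ℝ, Q (fun v => l + x v) = Q (fun _ => 1) * (l * l) + (2 * b) * l + Q x := by
    intro l
    have hs : ∑ u, ∑ v, A u v * x v = ∑ u, ∑ v, A u v * x u := by
      rw [Finset.sum_comm]
      exact Finset.sum_congr rfl fun u _ => Finset.sum_congr rfl fun v _ => by
        rw [hd.adj.symm]
    have h1 : ∑ u, ∑ v, A u v * (l + x u) * (l + x v) =
        (∑ u, ∑ v, A u v * 1 * 1) * (l * l) + (∑ u, ∑ v, A u v * x u) * l +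
          (∑ u, ∑ v, A u v * x v) * l + ∑ u, ∑ v, A u v * x u * x v := by
      simp only [Finset.sum_mul, ← Finset.sum_add_distrib]
      exact Finset.sum_congr rfl fun u _ => Finset.sum_congr rfl fun v _ => by ring
    have h2 : ∑ v, t v * (l + x v) ^ 2 = (∑ v, t v * 1 ^ 2) * (l * l) +
        2 * (∑ v, t v * x v) * l + ∑ v, t v * x v ^ 2 := by
      simp only [Finset.sum_mul, Finset.mul_sum, ← Finset.sum_add_distrib]
      exact Finset.sum_congr rfl fun v _ => by ring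
    simp only [hQ]
    rw [h1, h2, hs, hb]
    ring
  have hdisc : (2 * b) ^ 2 - 4 * Q (fun _ => 1) * Q x ≤ 0 := by
    have := discrim_le_zero (a := Q (fun _ => 1)) (b := 2 * b) (c := Q x) fun l => by
      rw [← hexp l]
      exact hQpos _
    exact this
  have hQ1 : Q (fun _ => 1) ≤ 3 * m := by
    have := hd.form_le (fun _ => 1) (fun _ => by norm_num)
    simp only [hQ]
    linarith
  have hcard : (H.card : ℝ) ≤ S / τ0 := by
    rw [le_div_iff₀ hτ]
    calc (H.card : ℝ) * τ0 = ∑ v ∈ H, τ0 := by rw [Finset.sum_const, nsmul_eq_mul]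
      _ ≤ ∑ v ∈ H, t v := Finset.sum_le_sum fun v hv => (Finset.mem_filter.1 hv).2.le
      _ ≤ ∑ v, t v := Finset.sum_le_sum_of_subset_of_nonneg (Finset.subset_univ _)
          fun v _ _ => by linarith [hd.t_one v]
      _ ≤ S := hd.t_sum
  have hQx : Q x ≤ (S / τ0) ^ 2 + S := by
    have h1 : ∑ u, ∑ v, A u v * x u * x v ≤ (H.card : ℝ) ^ 2 := by
      have h2 : ∀ u v, A u v * x u * x v ≤ x u * x v := by
        intro u v
        have h3 := hd.adj.le_one u v
        have h4 : 0 ≤ x u * x v := by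
          simp only [hx]; split_ifs <;> norm_num
        nlinarith
      have h5 : ∑ v, x v = H.card := by
        simp only [hx, Finset.sum_ite_mem, Finset.univ_inter, Finset.sum_const, nsmul_eq_mul,
          mul_one]
      calc ∑ u, ∑ v, A u v * x u * x v ≤ ∑ u, ∑ v, x u * x v :=
            Finset.sum_le_sum fun u _ => Finset.sum_le_sum fun v _ => h2 u v
        _ = (∑ u, x u) * ∑ v, x v := by rw [Finset.sum_mul_sum]
        _ = (H.card : ℝ) ^ 2 := by rw [h5]; ring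
    have h2 : ∑ v, t v * x v ^ 2 ≤ S := by
      refine le_trans (Finset.sum_le_sum fun v _ => ?_) hd.t_sum
      have := hd.t_one v
      simp only [hx]
      split_ifs
      · linarith
      · linarith
    have h3 : (H.card : ℝ) ^ 2 ≤ (S / τ0) ^ 2 := pow_le_pow_left₀ (by positivity) hcard 2
    simp only [hQ]
    linarith
  have hb1 : ∑ v ∈ H, ∑ w, A v w ≤ b := by
    have h1 : ∑ v ∈ H, ∑ w, A v w = ∑ u, ∑ v, A u v * x u := by
      have h3 : ∀ u, ∑ v, A u v * x u = if u ∈ H then ∑ v, A u v else 0 := by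
        intro u
        simp only [hx]
        split_ifs <;> simp
      simp only [h3]
      rw [Finset.sum_ite_mem, Finset.univ_inter]
    have h2 : 0 ≤ ∑ v, t v * x v := by
      refine Finset.sum_nonneg fun v _ => ?_
      have := hd.t_one v
      simp only [hx]
      split_ifs
      · linarith
      · linarith
    rw [h1, hb]
    linarith
  refine hb1.trans ?_
  apply Real.le_sqrt_of_sq_le
  have hQx0 : 0 ≤ Q x := hQpos x
  have hm0 : 0 ≤ 3 * m := le_trans (hQpos _) hQ1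
  have h1 : Q (fun _ => 1) * Q x ≤ (3 * m) * ((S / τ0) ^ 2 + S) :=
    mul_le_mul hQ1 hQx hQx0 hm0
  nlinarith

end Basics

section Step

variable {V : Type*} [Fintype V] [LinearOrder V]

/-- the level sets -/
noncomputable def Zs (A : V → V → ℝ) (t : V → ℝ) (X τ0 Δ : ℝ) : Finset V :=
  Finset.univ.filter fun v => ∑ w, A v w ≤ Δ ∧ t v ≤ Δ / X ∧ t v ≤ τ0

/-- ordered adjacent pairs not inside `Z` -/
noncomputable def outs (A : V → V → ℝ) (Z : Finset V) : ℝ :=
  ∑ u, ∑ v, if u ∈ Z ∧ v ∈ Z then 0 else A u v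

theorem outs_nonneg {A : V → V → ℝ} (hA : Adj A) (Z : Finset V) : 0 ≤ outs A Z := by
  refine Finset.sum_nonneg fun u _ => Finset.sum_nonneg fun v _ => ?_
  split_ifs
  · exact le_rfl
  · exact hA.nonneg u v

theorem out_le_outs {A : V → V → ℝ} (hA : Adj A) (Z : Finset V) :
    ∑ v ∈ Z, ∑ w ∈ Zᶜ, A v w ≤ outs A Z := by
  classical
  unfold outs
  have h1 : ∑ v ∈ Z, ∑ w ∈ Zᶜ, A v w = ∑ u, ∑ v, if u ∈ Z ∧ v ∈ Zᶜ then A u v else 0 := by
    have : ∀ u, ∑ v, (if u ∈ Z ∧ v ∈ Zᶜ then A u v else 0) =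
        if u ∈ Z then ∑ w ∈ Zᶜ, A u w else 0 := by
      intro u
      by_cases hu : u ∈ Z
      · simp only [hu, true_and, if_true]
        rw [Finset.sum_ite_mem, Finset.univ_inter]
      · simp [hu]
    simp only [this]
    rw [Finset.sum_ite_mem, Finset.univ_inter]
  rw [h1]
  refine Finset.sum_le_sum fun u _ => Finset.sum_le_sum fun v _ => ?_
  by_cases hu : u ∈ Z <;> by_cases hv : v ∈ Z <;> simp [hu, hv, hA.nonneg]

/-- splitting of `outs` for nested sets -/
theorem outs_split {A : V → V → ℝ} (hA : Adj A) (Z Z' : Finset V) :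
    outs A Z' ≤ outs A Z + 2 * ∑ v ∈ Z \ Z', ∑ w ∈ Z, A v w := by
  classical
  have h1 : ∑ v ∈ Z \ Z', ∑ w ∈ Z, A v w =
      ∑ u, ∑ v, if u ∈ Z \ Z' ∧ v ∈ Z then A u v else 0 := by
    have : ∀ u, ∑ v, (if u ∈ Z \ Z' ∧ v ∈ Z then A u v else 0) =
        if u ∈ Z \ Z' then ∑ w ∈ Z, A u w else 0 := by
      intro u
      by_cases hu : u ∈ Z \ Z'
      · simp only [hu, true_and, if_true]
        rw [Finset.sum_ite_mem, Finset.univ_inter]
      · simp only [hu, false_and, if_false, Finset.sum_const_zero]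
    simp only [this]
    rw [Finset.sum_ite_mem, Finset.univ_inter]
  have h2 : ∑ v ∈ Z \ Z', ∑ w ∈ Z, A v w =
      ∑ u, ∑ v, if v ∈ Z \ Z' ∧ u ∈ Z then A u v else 0 := by
    rw [h1, Finset.sum_comm]
    exact Finset.sum_congr rfl fun u _ => Finset.sum_congr rfl fun v _ => by rw [hA.symm]
  rw [two_mul]
  nth_rewrite 1 [h1]
  rw [h2]
  unfold outs
  rw [← Finset.sum_add_distrib, ← Finset.sum_add_distrib]
  refine Finset.sum_le_sum fun u _ => ?_
  rw [← Finset.sum_add_distrib, ← Finset.sum_add_distrib]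
  refine Finset.sum_le_sum fun v _ => ?_
  have h0 := hA.nonneg u v
  by_cases hu : u ∈ Z <;> by_cases hv : v ∈ Z <;> by_cases hu' : u ∈ Z' <;>
    by_cases hv' : v ∈ Z' <;> simp [hu, hv, hu', hv', h0]

theorem step (A : V → V → ℝ) (t : V → ℝ) (m S : ℝ) (hd : Data A t m S) (hSm : S ≤ m)
    (R K : ℕ) (c0 X τ0 Δ : ℝ) (hR : 2 ≤ R) (hcm : c0 ≤ (R : ℝ) ^ K) (hc0 : 1 ≤ c0)
    (hX : 8 * (R : ℝ) ≤ X) (hτ0 : 0 < τ0) (hτc : τ0 ≤ c0) (hτm : τ0 * S ≤ m)
    (hΔ : X / 2 ≤ Δ) :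
    outs A (Zs A t X τ0 Δ) ≤ 6000 * 4 ^ (K + 1) * (outs A (Zs A t X τ0 (R * Δ)) +
      (X * S + S / c0 * √(S * (3 * m)) + √(S * (3 * m)) + m * (R : ℝ) ^ 2 * √(√c0) / √X)) := by
  classical
  set Z := Zs A t X τ0 (R * Δ) with hZ
  set Z' := Zs A t X τ0 Δ with hZ'
  have hR2 : (2 : ℝ) ≤ R := by exact_mod_cast hR
  have hX16 : 16 ≤ X := by linarith
  have hX0 : 0 < X := by linarith
  have hΔ0 : 0 < Δ := by linarith
  have hS0 := hd.S_nonneg
  have hm0 : 0 ≤ m := hS0.trans hSm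
  set τ := min (R * Δ / X) τ0 with hτdef
  have hRΔ : 0 < R * Δ := by positivity
  have hτpos : 0 ≤ τ := le_min (by positivity) hτ0.le
  have hτ1 : τ ≤ R * Δ / X := min_le_left _ _
  have hτ2 : τ ≤ τ0 := min_le_right _ _
  have hτΔ : τ ≤ R * Δ := by
    refine hτ1.trans ?_
    rw [div_le_iff₀ hX0]
    nlinarith
  have hτD : τ ≤ Δ / 2 / 4 := by
    refine hτ1.trans ?_
    rw [div_le_iff₀ hX0]
    nlinarith
  have hcK : c0 / (R : ℝ) ^ K ≤ Δ / 2 / 4 := by
    have h1 : c0 / (R : ℝ) ^ K ≤ 1 := by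
      rw [div_le_one (by positivity)]
      exact hcm
    linarith
  have hlev := level A t m S hd (√(S * (3 * m))) (hd.E0_le hSm) Z (R * Δ) τ (Δ / 2) c0 R K
    (by omega) (by linarith) (by linarith)
    (fun v hv => by
      have h1 := (Finset.mem_filter.1 hv).2.1
      exact (Finset.sum_le_sum_of_subset_of_nonneg (Finset.subset_univ _)
        fun w _ _ => hd.adj.nonneg v w).trans h1)
    (fun v hv => le_min (Finset.mem_filter.1 hv).2.2.1 (Finset.mem_filter.1 hv).2.2.2)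
    hτpos hτΔ (hτ2.trans hτc) hτD hcK
    ((mul_le_mul_of_nonneg_right hτ2 hS0).trans hτm)
  -- the error term
  have herr : 7 / 2 * (53 * m * √(R * (R * Δ) * τ * √c0) / (Δ / 2)) ≤
      371 * (m * (R : ℝ) ^ 2 * √(√c0) / √X) := by
    have h1 : √(R * (R * Δ) * τ * √c0) ≤ (R : ℝ) ^ 2 * Δ * (√(√c0) / √X) := by
      apply Real.sqrt_le_iff.2
      constructor
      · positivity
      · have h2 : ((R : ℝ) ^ 2 * Δ * (√(√c0) / √X)) ^ 2 = (R : ℝ) ^ 4 * Δ ^ 2 * (√c0 / X) := by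
          rw [mul_pow, div_pow, Real.sq_sqrt (Real.sqrt_nonneg _), Real.sq_sqrt hX0.le]
          ring
        rw [h2]
        have h3 : R * (R * Δ) * τ * √c0 ≤ R * (R * Δ) * (R * Δ / X) * √c0 := by
          gcongr
        refine h3.trans ?_
        have h4 : R * (R * Δ) * (R * Δ / X) * √c0 = (R : ℝ) ^ 3 * (Δ ^ 2 * (√c0 / X)) := by
          field_simp
        have h5 : (R : ℝ) ^ 4 * Δ ^ 2 * (√c0 / X) = (R : ℝ) ^ 4 * (Δ ^ 2 * (√c0 / X)) := by ring
        rw [h4, h5]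
        apply mul_le_mul_of_nonneg_right _ (by positivity)
        exact pow_le_pow_right₀ (by linarith) (by norm_num)
    have h6 : 7 / 2 * (53 * m * √(R * (R * Δ) * τ * √c0) / (Δ / 2)) ≤
        7 / 2 * (53 * m * ((R : ℝ) ^ 2 * Δ * (√(√c0) / √X)) / (Δ / 2)) := by
      gcongr
    refine h6.trans (le_of_eq ?_)
    have hsX : √X ≠ 0 := (Real.sqrt_pos.2 hX0).ne'
    field_simp
    ring
  set E0 := √(S * (3 * m)) with hE0
  have hE00 : 0 ≤ E0 := Real.sqrt_nonneg _
  set G0 := S / c0 * E0 with hG0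
  have hG00 : 0 ≤ G0 := by positivity
  set W := m * (R : ℝ) ^ 2 * √(√c0) / √X with hW
  have hW0 : 0 ≤ W := by positivity
  set o1 := ∑ v ∈ Z, ∑ w ∈ Zᶜ, A v w with ho1
  have ho1le : o1 ≤ outs A Z := out_le_outs hd.adj Z
  set LB := ∑ v ∈ Z with Δ / 2 ≤ ∑ w ∈ Z, A v w, ∑ w ∈ Z, A v w with hLB
  have hLBle : LB ≤ 3 * 4 ^ (K + 1) * (outs A Z + G0 + (3 * E0 + 371 * W)) := by
    refine hlev.trans ?_
    apply mul_le_mul_of_nonneg_left _ (by positivity)
    linarith
  -- vertices of Z \ Z'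
  have hmain : ∑ v ∈ Z \ Z', ∑ w ∈ Z, A v w ≤ X * S + LB + o1 := by
    have hpt : ∀ v ∈ Z \ Z', ∑ w ∈ Z, A v w ≤ X * t v +
        (if Δ / 2 ≤ ∑ w ∈ Z, A v w then ∑ w ∈ Z, A v w else 0) + ∑ w ∈ Zᶜ, A v w := by
      intro v hv
      obtain ⟨hvZ, hvZ'⟩ := Finset.mem_sdiff.1 hv
      have hdsplit : ∑ w ∈ Z, A v w + ∑ w ∈ Zᶜ, A v w = ∑ w, A v w :=
        Finset.sum_add_sum_compl Z _
      have hc1 : 0 ≤ ∑ w ∈ Zᶜ, A v w := Finset.sum_nonneg fun w _ => hd.adj.nonneg v w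
      have hc2 : 0 ≤ ∑ w ∈ Z, A v w := Finset.sum_nonneg fun w _ => hd.adj.nonneg v w
      have ht1 := hd.t_one v
      have hXt : 0 ≤ X * t v := by positivity
      by_cases h1 : Δ / 2 ≤ ∑ w ∈ Z, A v w
      · rw [if_pos h1]
        linarith
      · rw [if_neg h1]
        push Not at h1
        by_cases h2 : ∑ w, A v w ≤ Δ
        · -- then t v > Δ / X
          have h3 : Δ / X < t v := by
            by_contra hcon
            push Not at hcon
            exact hvZ' (Finset.mem_filter.2 ⟨Finset.mem_univ _, h2, hcon,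
              (Finset.mem_filter.1 hvZ).2.2.2⟩)
          rw [div_lt_iff₀ hX0] at h3
          linarith
        · push Not at h2
          linarith
    refine (Finset.sum_le_sum hpt).trans ?_
    rw [Finset.sum_add_distrib, Finset.sum_add_distrib]
    have h1 : ∑ v ∈ Z \ Z', X * t v ≤ X * S := by
      rw [← Finset.mul_sum]
      apply mul_le_mul_of_nonneg_left _ hX0.le
      exact (Finset.sum_le_sum_of_subset_of_nonneg (Finset.subset_univ _)
        fun v _ _ => by linarith [hd.t_one v]).trans hd.t_sum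
    have h2 : ∑ v ∈ Z \ Z', (if Δ / 2 ≤ ∑ w ∈ Z, A v w then ∑ w ∈ Z, A v w else 0) ≤ LB := by
      rw [hLB, Finset.sum_filter]
      apply Finset.sum_le_sum_of_subset_of_nonneg Finset.sdiff_subset
      intro v _ _
      split_ifs
      · exact Finset.sum_nonneg fun w _ => hd.adj.nonneg v w
      · exact le_rfl
    have h3 : ∑ v ∈ Z \ Z', ∑ w ∈ Zᶜ, A v w ≤ o1 := by
      apply Finset.sum_le_sum_of_subset_of_nonneg Finset.sdiff_subset
      intro v _ _
      exact Finset.sum_nonneg fun w _ => hd.adj.nonneg v w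
    linarith
  have hsp := outs_split hd.adj Z Z'
  have ho0 : 0 ≤ outs A Z := outs_nonneg hd.adj Z
  have hXS : 0 ≤ X * S := by positivity
  have h4 : (4 : ℝ) ≤ 4 ^ (K + 1) := by
    rw [pow_succ]
    have : (1 : ℝ) ≤ 4 ^ K := one_le_pow₀ (by norm_num)
    linarith
  set F : ℝ := 4 ^ (K + 1) with hF
  have hF0 : 0 ≤ F := by linarith
  have h5 : outs A Z' ≤ outs A Z + 2 * (X * S +
      3 * F * (outs A Z + G0 + (3 * E0 + 371 * W)) + outs A Z) := by linarith
  refine h5.trans ?_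
  have e1 : outs A Z ≤ F * outs A Z := by nlinarith
  have e2 : X * S ≤ F * (X * S) := by nlinarith
  have e3 : 0 ≤ F * outs A Z := mul_nonneg hF0 ho0
  have e4 : 0 ≤ F * (X * S) := mul_nonneg hF0 hXS
  have e5 : 0 ≤ F * G0 := mul_nonneg hF0 hG00
  have e6 : 0 ≤ F * E0 := mul_nonneg hF0 hE00
  have e7 : 0 ≤ F * W := mul_nonneg hF0 hW0
  nlinarith

end Step

theorem iterate (a : ℕ → ℝ) (C e : ℝ) (hC : 1 ≤ C) (he : 0 ≤ e) (ha : ∀ j, 0 ≤ a j)
    (h : ∀ j, a j ≤ C * (a (j + 1) + e)) (J : ℕ) : a 0 ≤ (2 * C) ^ J * (a J + e) := by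
  induction J with
  | zero => simp; linarith
  | succ J ih =>
    refine ih.trans ?_
    rw [pow_succ, mul_assoc]
    apply mul_le_mul_of_nonneg_left _ (by positivity)
    have h1 := h J
    have h2 : e ≤ C * (a (J + 1) + e) := by
      have := ha (J + 1)
      nlinarith
    linarith

/-- Going down the levels. -/
theorem core (N : ℕ) : ∃ C : ℝ, 0 < C ∧ ∀ {V : Type} [Fintype V] [LinearOrder V]
    (A : V → V → ℝ) (t : V → ℝ) (m S : ℝ), Data A t m S → ∀ (R : ℕ) (c0 X τ0 : ℝ), 2 ≤ R →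
    m ≤ (R : ℝ) ^ N → 1 ≤ c0 → c0 ≤ m → 8 * (R : ℝ) ≤ X → 0 < τ0 → τ0 ≤ c0 → τ0 * S ≤ m → S ≤ m →
    m ≤ C * (X * S + S / c0 * √(S * (3 * m)) + √(S * (3 * m)) +
      m * (R : ℝ) ^ 2 * √(√c0) / √X + √(((S / τ0) ^ 2 + S) * (3 * m))) := by
  refine ⟨(2 * (6000 * 4 ^ (N + 1))) ^ (N + 1) * 2, by positivity, ?_⟩
  intro V _ _ A t m S hd R c0 X τ0 hR hmR hc1 hcm hX hτ0 hτc hτm hSm
  classical
  set e := X * S + S / c0 * √(S * (3 * m)) + √(S * (3 * m)) + m * (R : ℝ) ^ 2 * √(√c0) / √X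
    with he
  set h := √(((S / τ0) ^ 2 + S) * (3 * m)) with hh
  have hh0 : 0 ≤ h := Real.sqrt_nonneg _
  have hR2 : (2 : ℝ) ≤ R := by exact_mod_cast hR
  have hX16 : 16 ≤ X := by linarith
  have hX0 : 0 < X := by linarith
  have hS0 := hd.S_nonneg
  have hm0 : 0 ≤ m := hS0.trans hSm
  have he0 : 0 ≤ e := by positivity
  set a : ℕ → ℝ := fun j => outs A (Zs A t X τ0 ((R : ℝ) ^ j * (X / 2))) with ha
  have hstep : ∀ j, a j ≤ (6000 * 4 ^ (N + 1)) * (a (j + 1) + e) := by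
    intro j
    have h1 := step A t m S hd hSm R N c0 X τ0 ((R : ℝ) ^ j * (X / 2)) hR (hcm.trans hmR) hc1 hX
      hτ0 hτc hτm (by
        have : (1 : ℝ) ≤ (R : ℝ) ^ j := one_le_pow₀ (by linarith)
        nlinarith)
    have h2 : (R : ℝ) * ((R : ℝ) ^ j * (X / 2)) = (R : ℝ) ^ (j + 1) * (X / 2) := by ring
    rw [h2] at h1
    exact h1
  have hit := iterate a (6000 * 4 ^ (N + 1)) e
    (by
      have : (1 : ℝ) ≤ 4 ^ (N + 1) := one_le_pow₀ (by norm_num)
      linarith) he0 (fun j => outs_nonneg hd.adj _) hstep (N + 1)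
  have ha0 : a 0 = 2 * m := by
    have hZ0 : Zs A t X τ0 ((R : ℝ) ^ 0 * (X / 2)) = ∅ := by
      rw [Zs, Finset.filter_eq_empty_iff]
      rintro v - ⟨-, h2, -⟩
      have h3 := hd.t_one v
      have h4 : (R : ℝ) ^ 0 * (X / 2) / X = 1 / 2 := by
        field_simp
      rw [h4] at h2
      linarith
    simp only [ha, hZ0, outs]
    simp [hd.edges]
  have haJ : a (N + 1) ≤ 2 * h := by
    have hdeg : ∀ v, ∑ w, A v w ≤ 2 * m := by
      intro v
      rw [← hd.edges]
      exact Finset.single_le_sum (f := fun v => ∑ w, A v w)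
        (fun u _ => Finset.sum_nonneg fun w _ => hd.adj.nonneg u w) (Finset.mem_univ v)
    have hRm : m * 2 ≤ (R : ℝ) ^ (N + 1) := by
      rw [pow_succ]
      nlinarith
    set Z := Zs A t X τ0 ((R : ℝ) ^ (N + 1) * (X / 2)) with hZ
    have hmem : ∀ v, v ∉ Z → τ0 < t v := by
      intro v hv
      by_contra hcon
      push Not at hcon
      apply hv
      refine Finset.mem_filter.2 ⟨Finset.mem_univ _, ?_, ?_, hcon⟩
      · have h1 : (m * 2) * 8 ≤ (R : ℝ) ^ (N + 1) * (X / 2) :=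
          mul_le_mul hRm (by linarith) (by norm_num) (by positivity)
        have := hdeg v
        linarith
      · have h2 : (R : ℝ) ^ (N + 1) * (X / 2) / X = (R : ℝ) ^ (N + 1) / 2 := by
          field_simp
        rw [h2]
        linarith
    have hheavy := hd.heavy hSm τ0 hτ0
    have h1 : outs A Z ≤ 2 * ∑ v with τ0 < t v, ∑ w, A v w := by
      have e1 : ∑ v with τ0 < t v, ∑ w, A v w = ∑ u, ∑ v, if τ0 < t u then A u v else 0 := by
        rw [Finset.sum_filter]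
        refine Finset.sum_congr rfl fun u _ => ?_
        split_ifs <;> simp
      have e2 : ∑ v with τ0 < t v, ∑ w, A v w = ∑ u, ∑ v, if τ0 < t v then A u v else 0 := by
        rw [e1, Finset.sum_comm]
        exact Finset.sum_congr rfl fun u _ => Finset.sum_congr rfl fun v _ => by
          rw [hd.adj.symm]
      rw [two_mul]
      nth_rewrite 1 [e1]
      rw [e2]
      unfold outs
      rw [← Finset.sum_add_distrib]
      refine Finset.sum_le_sum fun u _ => ?_
      rw [← Finset.sum_add_distrib]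
      refine Finset.sum_le_sum fun v _ => ?_
      have h0 := hd.adj.nonneg u v
      by_cases hu : u ∈ Z
      · by_cases hv : v ∈ Z
        · rw [if_pos ⟨hu, hv⟩]
          split_ifs <;> linarith
        · rw [if_neg (fun h => hv h.2), if_pos (hmem v hv)]
          split_ifs <;> linarith
      · rw [if_neg (fun h => hu h.1), if_pos (hmem u hu)]
        split_ifs <;> linarith
    calc a (N + 1) = outs A Z := rfl
      _ ≤ 2 * ∑ v with τ0 < t v, ∑ w, A v w := h1
      _ ≤ 2 * h := by linarith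
  rw [ha0] at hit
  have hP : 0 < (2 * (6000 * (4 : ℝ) ^ (N + 1))) ^ (N + 1) := by positivity
  set P := (2 * (6000 * (4 : ℝ) ^ (N + 1))) ^ (N + 1) with hPdef
  have h1 : P * (a (N + 1) + e) ≤ P * (2 * h + e) :=
    mul_le_mul_of_nonneg_left (by linarith) hP.le
  have h2 : P * (2 * h + e) ≤ P * 2 * (e + h) := by nlinarith
  linarith

end Pool.Agent.Lib.MP_7cecc1_co.SL
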