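import Mathlib
import Pool.Agent.Lib.MP_7cecc1_co.SL.Basic

/-! SDP duality (request 115 of helper82, by helper53). -/

namespace Pool.Agent.Lib.MP_7cecc1_co.SL

open Finset

/-- A continuous linear functional on matrices is given by its entries. -/
private lemma functional_entries {ι : Type*} [Fintype ι] [DecidableEq ι]
    (f : StrongDual ℝ (ι → ι → ℝ)) (Q : ι → ι → ℝ) :
    f Q = ∑ i, ∑ j, Q i j * f (Pi.single i (Pi.single j 1)) := by
  have hQ : Q = ∑ i, ∑ j, Q i j • (Pi.single i (Pi.single j (1 : ℝ)) : ι → ι → ℝ) := by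
    funext a b
    simp only [Finset.sum_apply, Pi.smul_apply, smul_eq_mul]
    rw [Finset.sum_eq_single a]
    · rw [Finset.sum_eq_single b]
      · simp
      · intro c _ hc
        simp [Pi.single_eq_of_ne (Ne.symm hc)]
      · simp
    · intro c _ hc
      apply Finset.sum_eq_zero
      intro d _
      simp [Pi.single_eq_of_ne (Ne.symm hc)]
    · simp
  conv_lhs => rw [hQ]
  simp only [map_sum, map_smul, smul_eq_mul]

/-- P2. SDP duality. -/
theorem sdp_dual {ι : Type*} [Fintype ι] [DecidableEq ι] (M : ι → ι → ℝ)
    (hsymm : ∀ i j, M i j = M j i) (S1 : ℝ)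
    (h : ∀ x : ι → ι → ℝ, (∀ i, ∑ l, x i l ^ 2 ≤ 1) → ∑ i, ∑ j, M i j * ∑ l, x i l * x j l ≤ S1) :
    ∃ t : ι → ℝ, (∀ i, 0 ≤ t i) ∧ ∑ i, t i ≤ S1 ∧
      ∀ y : ι → ℝ, ∑ i, ∑ j, M i j * y i * y j ≤ ∑ i, t i * y i ^ 2 := by
  classical
  have hS1 : 0 ≤ S1 := by
    have := h (fun _ _ => 0) (fun i => by simp)
    simpa using this
  rcases isEmpty_or_nonempty ι with hι | hι
  · refine ⟨fun _ => 0, fun i => le_refl _, by simpa using hS1, fun y => by simp⟩
  -- the compact convex set
  set Δ : Set (ι → ℝ) := {t | (∀ i, 0 ≤ t i) ∧ ∑ i, t i = S1} with hΔ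
  have hΔconv : Convex ℝ Δ := by
    intro a ha b hb α β hα hβ hαβ
    refine ⟨fun i => ?_, ?_⟩
    · have := ha.1 i
      have := hb.1 i
      simp only [Pi.add_apply, Pi.smul_apply, smul_eq_mul]
      positivity
    · simp only [Pi.add_apply, Pi.smul_apply, smul_eq_mul, Finset.sum_add_distrib,
        ← Finset.mul_sum, ha.2, hb.2]
      rw [← add_mul, hαβ, one_mul]
  have hΔcomp : IsCompact Δ := by
    apply IsCompact.of_isClosed_subset (isCompact_univ_pi (fun _ : ι => isCompact_Icc (a := (0:ℝ)) (b := S1)))
    · have : Δ = (⋂ i, {t : ι → ℝ | 0 ≤ t i}) ∩ {t | ∑ i, t i = S1} := by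
        ext t; simp [hΔ]
      rw [this]
      apply IsClosed.inter
      · exact isClosed_iInter fun i => isClosed_le continuous_const (continuous_apply i)
      · exact isClosed_eq (by fun_prop) continuous_const
    · intro t ht i _
      refine ⟨ht.1 i, ?_⟩
      rw [← ht.2]
      exact Finset.single_le_sum (fun j _ => ht.1 j) (Finset.mem_univ i)
  let φ : (ι → ℝ) → (ι → ι → ℝ) := fun t i j => (if i = j then t i else 0) - M i j
  have hφc : Continuous φ := by
    refine continuous_pi fun i => continuous_pi fun j => ?_
    by_cases hij : i = j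
    · simp only [φ, hij, if_true]; fun_prop
    · simp only [φ, hij, if_false]; fun_prop
  let D : Set (ι → ι → ℝ) := φ '' Δ
  have hDcomp : IsCompact D := hΔcomp.image hφc
  have hDconv : Convex ℝ D := by
    rintro _ ⟨a, ha, rfl⟩ _ ⟨b, hb, rfl⟩ α β hα hβ hαβ
    refine ⟨α • a + β • b, hΔconv ha hb hα hβ hαβ, ?_⟩
    funext i j
    simp only [φ, Pi.add_apply, Pi.smul_apply, smul_eq_mul]
    by_cases hij : i = j
    · simp only [hij, if_true]
      have : M j j = (α + β) * M j j := by rw [hαβ, one_mul]
      linear_combination (-1 : ℝ) * this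
    · simp only [hij, if_false]
      have : M i j = (α + β) * M i j := by rw [hαβ, one_mul]
      linear_combination (-1 : ℝ) * this
  let P : Set (ι → ι → ℝ) := {Q | ∀ y : ι → ℝ, 0 ≤ ∑ i, ∑ j, Q i j * y i * y j}
  have hPconv : Convex ℝ P := by
    intro a ha b hb α β hα hβ _ y
    have h1 := ha y
    have h2 := hb y
    have : ∑ i, ∑ j, (α • a + β • b) i j * y i * y j =
        α * ∑ i, ∑ j, a i j * y i * y j + β * ∑ i, ∑ j, b i j * y i * y j := by
      simp only [Pi.add_apply, Pi.smul_apply, smul_eq_mul, Finset.mul_sum,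
        ← Finset.sum_add_distrib]
      refine Finset.sum_congr rfl fun i _ => Finset.sum_congr rfl fun j _ => by ring
    rw [this]
    positivity
  have hPclosed : IsClosed P := by
    have : P = ⋂ y : ι → ℝ, {Q : ι → ι → ℝ | 0 ≤ ∑ i, ∑ j, Q i j * y i * y j} := by
      ext Q; simp [P]
    rw [this]
    refine isClosed_iInter fun y => isClosed_le continuous_const ?_
    fun_prop
  by_cases hdisj : Disjoint D P
  · exfalso
    obtain ⟨f, u, v, hfD, huv, hfP⟩ :=
      geometric_hahn_banach_compact_closed hDconv hDcomp hPconv hPclosed hdisj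
    have hv0 : v < 0 := by
      have := hfP 0 (by intro y; simp)
      simpa using this
    have hcone : ∀ Q ∈ P, 0 ≤ f Q := by
      intro Q hQ
      by_contra hneg
      rw [not_le] at hneg
      have hc : 0 < v / f Q := div_pos_of_neg_of_neg hv0 hneg
      have hmem : (v / f Q) • Q ∈ P := by
        intro y
        have h1 := hQ y
        have : ∑ i, ∑ j, ((v / f Q) • Q) i j * y i * y j =
            (v / f Q) * ∑ i, ∑ j, Q i j * y i * y j := by
          simp only [Pi.smul_apply, smul_eq_mul, Finset.mul_sum]
          refine Finset.sum_congr rfl fun i _ => Finset.sum_congr rfl fun j _ => by ring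
        rw [this]
        positivity
      have h2 := hfP _ hmem
      rw [map_smul, smul_eq_mul, div_mul_cancel₀ _ hneg.ne] at h2
      exact lt_irrefl _ h2
    set Z : ι → ι → ℝ := fun i j => f (Pi.single i (Pi.single j 1)) with hZ
    have hfZ : ∀ Q : ι → ι → ℝ, f Q = ∑ i, ∑ j, Q i j * Z i j := functional_entries f
    have hZsymm : ∀ i j, Z i j = Z j i := by
      intro a b
      have key : ∀ s : ℝ, (s • ((Pi.single a (Pi.single b (1 : ℝ)) : ι → ι → ℝ) -
          (Pi.single b (Pi.single a (1 : ℝ)) : ι → ι → ℝ))) ∈ P := by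
        intro s y
        apply le_of_eq
        have e : ∀ a b : ι, ∑ i, ∑ j,
            (Pi.single a (Pi.single b (1 : ℝ)) : ι → ι → ℝ) i j * (y i * y j) = y a * y b := by
          intro a b
          rw [Finset.sum_eq_single a]
          · rw [Finset.sum_eq_single b]
            · simp
            · intro c _ hc
              simp [Pi.single_eq_of_ne hc]
            · simp
          · intro c _ hc
            apply Finset.sum_eq_zero
            intro d _
            simp [Pi.single_eq_of_ne hc]
          · simp
        have : ∑ i, ∑ j, (s • ((Pi.single a (Pi.single b (1 : ℝ)) : ι → ι → ℝ) -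
          (Pi.single b (Pi.single a (1 : ℝ)) : ι → ι → ℝ))) i j * y i * y j =
            s * (∑ i, ∑ j, (Pi.single a (Pi.single b (1 : ℝ)) : ι → ι → ℝ) i j * (y i * y j) -
             ∑ i, ∑ j, (Pi.single b (Pi.single a (1 : ℝ)) : ι → ι → ℝ) i j * (y i * y j)) := by
          rw [← Finset.sum_sub_distrib, Finset.mul_sum]
          refine Finset.sum_congr rfl fun i _ => ?_
          rw [← Finset.sum_sub_distrib, Finset.mul_sum]
          refine Finset.sum_congr rfl fun j _ => ?_
          simp only [Pi.smul_apply, Pi.sub_apply, smul_eq_mul]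
          ring
        rw [this, e, e]
        ring
      have h1 := hcone _ (key 1)
      have h2 := hcone _ (key (-1))
      simp only [map_smul, map_sub, smul_eq_mul] at h1 h2
      change 0 ≤ 1 * (Z a b - Z b a) at h1
      change 0 ≤ -1 * (Z a b - Z b a) at h2
      linarith
    have hZpsd : ∀ c : ι → ℝ, 0 ≤ ∑ i, ∑ j, Z i j * c i * c j := by
      intro c
      have hmem : (fun i j => c i * c j : ι → ι → ℝ) ∈ P := by
        intro y
        have : ∑ i, ∑ j, (fun i j => c i * c j : ι → ι → ℝ) i j * y i * y j =
            (∑ i, c i * y i) ^ 2 := by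
          rw [sq, Finset.sum_mul_sum]
          refine Finset.sum_congr rfl fun i _ => Finset.sum_congr rfl fun j _ => by ring
        rw [this]
        positivity
      have := hcone _ hmem
      rw [hfZ] at this
      refine this.trans_eq ?_
      refine Finset.sum_congr rfl fun i _ => Finset.sum_congr rfl fun j _ => by ring
    have hD : ∀ t ∈ Δ, ∑ i, t i * Z i i < ∑ i, ∑ j, M i j * Z i j := by
      intro t ht
      have h1 : f (φ t) < 0 := (hfD _ ⟨t, ht, rfl⟩).trans (huv.trans hv0)
      rw [hfZ] at h1
      have : ∑ i, ∑ j, φ t i j * Z i j = ∑ i, t i * Z i i - ∑ i, ∑ j, M i j * Z i j := by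
        rw [← Finset.sum_sub_distrib]
        refine Finset.sum_congr rfl fun i _ => ?_
        have : ∀ j, φ t i j * Z i j = (if i = j then t i * Z i j else 0) - M i j * Z i j := by
          intro j
          by_cases hij : i = j
          · simp only [φ, hij, if_true]; ring
          · simp only [φ, hij, if_false]; ring
        simp only [this, Finset.sum_sub_distrib, Finset.sum_ite_eq, Finset.mem_univ, if_true]
      rw [this] at h1
      linarith
    -- Gram decomposition
    have hpsd : (Matrix.of Z).PosSemidef := by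
      refine Matrix.PosSemidef.of_dotProduct_mulVec_nonneg ?_ ?_
      · ext i j
        simp [Matrix.conjTranspose_apply, hZsymm i j]
      · intro c
        have := hZpsd c
        simp only [dotProduct, Matrix.mulVec, Pi.star_apply, star_trivial, Matrix.of_apply]
        refine this.trans_eq ?_
        refine Finset.sum_congr rfl fun i _ => ?_
        rw [Finset.mul_sum]
        refine Finset.sum_congr rfl fun j _ => by ring
    obtain ⟨B, hB⟩ : ∃ B : Matrix ι ι ℝ, Matrix.of Z = B.conjTranspose * B := by
      open scoped MatrixOrder in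
      exact CStarAlgebra.nonneg_iff_eq_star_mul_self.mp hpsd.nonneg
    have hBZ : ∀ i j, ∑ l, B l i * B l j = Z i j := by
      intro i j
      have := congrFun (congrFun hB i) j
      simp only [Matrix.of_apply, Matrix.mul_apply, Matrix.conjTranspose_apply, star_trivial] at this
      exact this.symm
    obtain ⟨i0, -, hi0⟩ := Finset.exists_max_image Finset.univ (fun i => Z i i) Finset.univ_nonempty
    have hZnn : ∀ i, 0 ≤ Z i i := by
      intro i
      rw [← hBZ]
      exact Finset.sum_nonneg fun l _ => mul_self_nonneg _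
    have hkey := hD (Pi.single i0 S1) ⟨fun i => by
      by_cases hi : i = i0
      · subst hi; simpa using hS1
      · simp [Pi.single_eq_of_ne hi], by simp⟩
    have hsum : ∑ i, (Pi.single i0 S1 : ι → ℝ) i * Z i i = S1 * Z i0 i0 := by
      rw [Finset.sum_eq_single i0]
      · simp
      · intro c _ hc
        simp [Pi.single_eq_of_ne hc]
      · simp
    rw [hsum] at hkey
    rcases (hZnn i0).eq_or_lt with h0 | hpos
    · have hB0 : ∀ l i, B l i = 0 := by
        intro l i
        have h1 : ∑ l, B l i * B l i = 0 := by
          rw [hBZ]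
          apply le_antisymm
          · rw [h0]; exact hi0 i (Finset.mem_univ i)
          · exact hZnn i
        have h2 := (Finset.sum_eq_zero_iff_of_nonneg (fun l _ => mul_self_nonneg (B l i))).1 h1 l
          (Finset.mem_univ l)
        exact mul_self_eq_zero.1 h2
      have hZ0 : ∀ i j, Z i j = 0 := by
        intro i j
        rw [← hBZ]
        simp [hB0]
      simp [hZ0] at hkey
    · set μ := Z i0 i0 with hμ
      have hs : √μ ^ 2 = μ := Real.sq_sqrt hpos.le
      have hsp : 0 < √μ := Real.sqrt_pos.2 hpos
      have hx := h (fun i l => B l i / √μ) (by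
        intro i
        have : ∑ l, (B l i / √μ) ^ 2 = Z i i / μ := by
          rw [← hBZ i i, Finset.sum_div]
          refine Finset.sum_congr rfl fun l _ => ?_
          rw [div_pow, hs, sq]
        rw [this, div_le_one hpos]
        exact hi0 i (Finset.mem_univ i))
      have hx2 : ∑ i, ∑ j, M i j * ∑ l, (B l i / √μ) * (B l j / √μ) =
          (∑ i, ∑ j, M i j * Z i j) / μ := by
        rw [Finset.sum_div]
        refine Finset.sum_congr rfl fun i _ => ?_
        rw [Finset.sum_div]
        refine Finset.sum_congr rfl fun j _ => ?_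
        have : ∑ l, (B l i / √μ) * (B l j / √μ) = Z i j / μ := by
          rw [← hBZ i j, Finset.sum_div]
          refine Finset.sum_congr rfl fun l _ => ?_
          rw [div_mul_div_comm, ← sq, hs]
        rw [this, mul_div_assoc]
      rw [hx2, div_le_iff₀ hpos] at hx
      linarith
  · rw [Set.not_disjoint_iff] at hdisj
    obtain ⟨Q, ⟨t, ht, rfl⟩, hQ⟩ := hdisj
    refine ⟨t, ht.1, ht.2.le, fun y => ?_⟩
    have h1 := hQ y
    have : ∑ i, ∑ j, φ t i j * y i * y j =
        ∑ i, t i * y i ^ 2 - ∑ i, ∑ j, M i j * y i * y j := by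
      rw [← Finset.sum_sub_distrib]
      refine Finset.sum_congr rfl fun i _ => ?_
      have : ∀ j, φ t i j * y i * y j =
          (if i = j then t i * y i * y j else 0) - M i j * y i * y j := by
        intro j
        by_cases hij : i = j
        · simp only [φ, hij, if_true]; ring
        · simp only [φ, hij, if_false]; ring
      simp only [this, Finset.sum_sub_distrib, Finset.sum_ite_eq, Finset.mem_univ, if_true]
      ring
    rw [this] at h1
    linarith

end Pool.Agent.Lib.MP_7cecc1_co.SL
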