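import Mathlib
import Pool.Agent.Lib.MP_7cecc1_co.SL.Basic

/-! Rounding of vectors to signs (P1 of the lower bound `α₀(S) ≥ 5/7`). -/

namespace Pool.Agent.Lib.MP_7cecc1_co.SL

open Finset

namespace Round

/-- The sign of a Boolean. -/
def sb (b : Bool) : ℝ := if b then 1 else -1

theorem sb_sq (b : Bool) : sb b * sb b = 1 := by
  cases b <;> simp [sb]

theorem sb_not (b : Bool) : sb (!b) = -sb b := by
  cases b <;> simp [sb]

/-- The random signed sum. -/
def Y {d : Type*} [Fintype d] (x : d → ℝ) (e : d → Bool) : ℝ := ∑ l, sb (e l) * x l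

section Cube

variable {ι : Type*} [Fintype ι] [DecidableEq ι]

theorem quad_update (M : ι → ι → ℝ) (hdiag : ∀ i, M i i = 0) (x : ι → ℝ) (a : ι) (e : ℝ) :
    ∑ i, ∑ j, M i j * Function.update x a e i * Function.update x a e j =
      ∑ i, ∑ j, M i j * x i * x j + (e - x a) * ∑ j, (M a j + M j a) * x j := by
  have hupd : ∀ i, Function.update x a e i = x i + (if i = a then e - x a else 0) := by
    intro i
    by_cases h : i = a
    · subst h; simp
    · simp [h]
  have h1 : ∀ i j, M i j * Function.update x a e i * Function.update x a e j =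
      M i j * x i * x j + (if i = a then (e - x a) * (M i j * x j) else 0) +
        (if j = a then (e - x a) * (M i j * x i) else 0) := by
    intro i j
    rw [hupd, hupd]
    by_cases hi : i = a
    · by_cases hj : j = a
      · subst hi; subst hj
        simp [hdiag]
      · simp only [if_pos hi, if_neg hj]; ring
    · by_cases hj : j = a
      · simp only [if_pos hj, if_neg hi]; ring
      · simp only [if_neg hi, if_neg hj]; ring
  simp_rw [h1, Finset.sum_add_distrib]
  have h2 : ∑ i, ∑ j, (if i = a then (e - x a) * (M i j * x j) else 0) =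
      (e - x a) * ∑ j, M a j * x j := by
    rw [Finset.sum_eq_single a]
    · simp [Finset.mul_sum]
    · intro b _ hb; simp [hb]
    · intro h; exact absurd (Finset.mem_univ a) h
  have h3 : ∑ i, ∑ j, (if j = a then (e - x a) * (M i j * x i) else 0) =
      (e - x a) * ∑ j, M j a * x j := by
    simp [Finset.mul_sum]
  rw [h2, h3]
  simp_rw [add_mul, Finset.sum_add_distrib]
  ring

theorem cube_le (M : ι → ι → ℝ) (hdiag : ∀ i, M i i = 0) (S0 : ℝ)
    (hS : ∀ s : ι → ℝ, (∀ i, s i = 1 ∨ s i = -1) → ∑ i, ∑ j, M i j * s i * s j ≤ S0)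
    (x : ι → ℝ) (hx : ∀ i, |x i| ≤ 1) : ∑ i, ∑ j, M i j * x i * x j ≤ S0 := by
  have key : ∀ A : Finset ι, ∃ s : ι → ℝ, (∀ i ∈ A, s i = 1 ∨ s i = -1) ∧
      (∀ i, |s i| ≤ 1) ∧ ∑ i, ∑ j, M i j * x i * x j ≤ ∑ i, ∑ j, M i j * s i * s j := by
    intro A
    induction A using Finset.induction_on with
    | empty => exact ⟨x, by simp, hx, le_rfl⟩
    | insert a A ha ih =>
      obtain ⟨s, hs, hsI, hle⟩ := ih
      obtain ⟨e, he, he0⟩ : ∃ e : ℝ, (e = 1 ∨ e = -1) ∧
          0 ≤ (e - s a) * ∑ j, (M a j + M j a) * s j := by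
        have h1 := abs_le.1 (hsI a)
        rcases le_total 0 (∑ j, (M a j + M j a) * s j) with h | h
        · exact ⟨1, Or.inl rfl, mul_nonneg (by linarith) h⟩
        · exact ⟨-1, Or.inr rfl, mul_nonneg_of_nonpos_of_nonpos (by linarith) h⟩
      refine ⟨Function.update s a e, fun i hi => ?_, fun i => ?_, ?_⟩
      · by_cases hia : i = a
        · subst hia
          rwa [Function.update_self]
        · rw [Function.update_of_ne hia]
          exact hs i (Finset.mem_of_mem_insert_of_ne hi hia)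
      · by_cases hia : i = a
        · subst hia
          rw [Function.update_self]
          rcases he with h | h <;> rw [h] <;> norm_num
        · rw [Function.update_of_ne hia]
          exact hsI i
      · rw [quad_update M hdiag]
        linarith
  obtain ⟨s, hs, _, hle⟩ := key Finset.univ
  exact hle.trans (hS s fun i => hs i (Finset.mem_univ i))

theorem cube_le_T (M : ι → ι → ℝ) (hdiag : ∀ i, M i i = 0) (S0 : ℝ)
    (hS : ∀ s : ι → ℝ, (∀ i, s i = 1 ∨ s i = -1) → ∑ i, ∑ j, M i j * s i * s j ≤ S0)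
    (T : ℝ) (hT : 0 < T)
    (x : ι → ℝ) (hx : ∀ i, |x i| ≤ T) : ∑ i, ∑ j, M i j * x i * x j ≤ T ^ 2 * S0 := by
  have h := cube_le M hdiag S0 hS (fun i => x i / T) (fun i => by
    rw [abs_div, abs_of_pos hT, div_le_one hT]
    exact hx i)
  have h2 : ∑ i, ∑ j, M i j * x i * x j = T ^ 2 * ∑ i, ∑ j, M i j * (x i / T) * (x j / T) := by
    simp_rw [Finset.mul_sum]
    refine Finset.sum_congr rfl fun i _ => Finset.sum_congr rfl fun j _ => ?_
    field_simp
  rw [h2]
  exact mul_le_mul_of_nonneg_left h (by positivity)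

end Cube

section Rademacher

variable {d : Type*} [Fintype d] [DecidableEq d]

theorem sum_sb_mul (l m : d) :
    ∑ e : d → Bool, sb (e l) * sb (e m) = if l = m then (2 : ℝ) ^ Fintype.card d else 0 := by
  by_cases h : l = m
  · subst h
    simp only [sb_sq, if_true]
    simp
  · rw [if_neg h]
    have hinv : Function.Involutive (fun e : d → Bool => Function.update e l (!e l)) := by
      intro e
      funext j
      by_cases hj : j = l
      · subst hj
        simp
      · simp [hj]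
    have h1 : ∑ e : d → Bool, sb (e l) * sb (e m) = ∑ e : d → Bool, -(sb (e l) * sb (e m)) := by
      refine Fintype.sum_equiv hinv.toPerm _ _ ?_
      intro e
      simp only [Function.Involutive.coe_toPerm, Function.update_self,
        Function.update_of_ne (Ne.symm h), sb_not]
      ring
    rw [Finset.sum_neg_distrib] at h1
    linarith

theorem sum_Y_mul (x y : d → ℝ) :
    ∑ e : d → Bool, Y x e * Y y e = (2 : ℝ) ^ Fintype.card d * ∑ l, x l * y l := by
  have h1 : ∀ e : d → Bool, Y x e * Y y e = ∑ l, ∑ m, (x l * y m) * (sb (e l) * sb (e m)) := by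
    intro e
    rw [Y, Y, Finset.sum_mul_sum]
    refine Finset.sum_congr rfl fun l _ => Finset.sum_congr rfl fun m _ => ?_
    ring
  simp_rw [h1]
  rw [Finset.sum_comm]
  rw [Finset.mul_sum]
  refine Finset.sum_congr rfl fun l _ => ?_
  rw [Finset.sum_comm]
  simp_rw [← Finset.mul_sum, sum_sb_mul]
  simp
  ring

theorem sum_exp (x : d → ℝ) :
    ∑ e : d → Bool, Real.exp (Y x e) = (2 : ℝ) ^ Fintype.card d * ∏ l, Real.cosh (x l) := by
  have h1 : ∀ e : d → Bool, Real.exp (Y x e) = ∏ l, Real.exp (sb (e l) * x l) := by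
    intro e
    rw [Y, Real.exp_sum]
  simp_rw [h1]
  have h2 := Finset.prod_univ_sum (fun _ : d => (Finset.univ : Finset Bool))
    (fun l b => Real.exp (sb b * x l))
  rw [Fintype.piFinset_univ] at h2
  rw [← h2]
  have h3 : ∀ l, ∑ b : Bool, Real.exp (sb b * x l) = 2 * Real.cosh (x l) := by
    intro l
    rw [Fintype.sum_bool, Real.cosh_eq]
    simp [sb]
    ring
  simp_rw [h3, Finset.prod_mul_distrib]
  simp

theorem pow_le_cosh (y : ℝ) (k : ℕ) : y ^ (2 * k) ≤ ((2 * k).factorial : ℝ) * Real.cosh y := by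
  have h := Real.hasSum_cosh y
  have h1 : y ^ (2 * k) / ((2 * k).factorial : ℝ) ≤ Real.cosh y :=
    le_hasSum h k fun j _ => div_nonneg (by rw [pow_mul]; positivity) (by positivity)
  rw [div_le_iff₀ (by positivity)] at h1
  linarith

theorem sum_pow_le (x : d → ℝ) (hx : ∑ l, x l ^ 2 ≤ 1) (k : ℕ) :
    ∑ e : d → Bool, Y x e ^ (2 * k) ≤ (2 : ℝ) ^ Fintype.card d * (2 * (2 * k).factorial) := by
  have h1 : ∑ e : d → Bool, Y x e ^ (2 * k) ≤
      ∑ e : d → Bool, ((2 * k).factorial : ℝ) * Real.cosh (Y x e) :=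
    Finset.sum_le_sum fun e _ => pow_le_cosh _ _
  have h2 : ∑ e : d → Bool, Real.cosh (Y x e) =
      (2 : ℝ) ^ Fintype.card d * ∏ l, Real.cosh (x l) := by
    have h3 : ∀ e : d → Bool, Real.cosh (Y x e) =
        (Real.exp (Y x e) + Real.exp (Y (fun l => -x l) e)) / 2 := by
      intro e
      rw [Real.cosh_eq]
      have : Y (fun l => -x l) e = -Y x e := by
        rw [Y, Y, ← Finset.sum_neg_distrib]
        refine Finset.sum_congr rfl fun l _ => ?_
        ring
      rw [this]
    simp_rw [h3, ← Finset.sum_div, Finset.sum_add_distrib, sum_exp, Real.cosh_neg]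
    ring
  have h4 : ∏ l, Real.cosh (x l) ≤ 2 := by
    calc ∏ l, Real.cosh (x l) ≤ ∏ l, Real.exp (x l ^ 2 / 2) :=
          Finset.prod_le_prod (fun l _ => (Real.cosh_pos _).le) fun l _ => Real.cosh_le_exp_half_sq _
      _ = Real.exp (∑ l, x l ^ 2 / 2) := (Real.exp_sum _ _).symm
      _ ≤ Real.exp (1 / 2) := by
          apply Real.exp_le_exp.2
          rw [← Finset.sum_div]
          linarith
      _ ≤ 2 := by
          have h5 : Real.exp (1 / 2) ^ 2 ≤ 2 ^ 2 := by
            rw [← Real.exp_nat_mul]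
            norm_num
            have := Real.exp_one_lt_d9
            linarith
          exact (pow_le_pow_iff_left₀ (Real.exp_pos _).le (by norm_num) (by norm_num)).1 h5
  rw [← Finset.mul_sum, h2] at h1
  refine h1.trans ?_
  have h6 : (2 : ℝ) ^ Fintype.card d * ∏ l, Real.cosh (x l) ≤ (2 : ℝ) ^ Fintype.card d * 2 :=
    mul_le_mul_of_nonneg_left h4 (by positivity)
  calc ((2 * k).factorial : ℝ) * ((2 : ℝ) ^ Fintype.card d * ∏ l, Real.cosh (x l))
      ≤ ((2 * k).factorial : ℝ) * ((2 : ℝ) ^ Fintype.card d * 2) :=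
        mul_le_mul_of_nonneg_left h6 (by positivity)
    _ = (2 : ℝ) ^ Fintype.card d * (2 * (2 * k).factorial) := by ring

end Rademacher

/-- Truncation. -/
noncomputable def tr (T y : ℝ) : ℝ := max (-T) (min T y)

theorem abs_tr_le (T y : ℝ) (hT : 0 ≤ T) : |tr T y| ≤ T := by
  rw [abs_le, tr]
  exact ⟨le_max_left _ _, max_le (by linarith) (min_le_left _ _)⟩

theorem abs_tr_le_abs (T y : ℝ) (hT : 0 ≤ T) : |tr T y| ≤ |y| := by
  rw [tr, abs_le]
  constructor
  · rcases le_total (-|y|) (-T) with h | h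
    · exact h.trans (le_max_left _ _)
    · refine le_trans ?_ (le_max_right _ _)
      refine le_min ?_ (neg_abs_le y)
      have := abs_nonneg y
      linarith
  · refine max_le ?_ ((min_le_right _ _).trans (le_abs_self y))
    have := abs_nonneg y
    linarith

theorem sub_tr_le (T y : ℝ) (hT : 1 ≤ T) (k : ℕ) (hk : 1 ≤ k) :
    |y - tr T y| ≤ |y| ^ (2 * k - 1) / T ^ (2 * k - 2) := by
  have hT0 : 0 < T := by linarith
  have hpos : 0 ≤ |y| ^ (2 * k - 1) / T ^ (2 * k - 2) := by positivity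
  by_cases h : |y| ≤ T
  · have : tr T y = y := by
      rw [tr, min_eq_right ((le_abs_self y).trans h), max_eq_right]
      have := neg_abs_le y
      linarith
    rw [this, sub_self, abs_zero]
    exact hpos
  · push Not at h
    have h1 : |y - tr T y| ≤ |y| := by
      rw [tr]
      rcases le_total 0 y with hy | hy
      · rw [abs_of_nonneg hy] at h ⊢
        rw [min_eq_left h.le, max_eq_right (by linarith), abs_of_nonneg (by linarith)]
        linarith
      · rw [abs_of_nonpos hy] at h ⊢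
        rw [min_eq_right (by linarith), max_eq_left (by linarith), abs_of_nonpos (by linarith)]
        linarith
    refine h1.trans ?_
    rw [le_div_iff₀ (by positivity)]
    have h2 : |y| ^ (2 * k - 1) = |y| * |y| ^ (2 * k - 2) := by
      rw [← pow_succ']
      congr 1
      omega
    rw [h2]
    exact mul_le_mul_of_nonneg_left (pow_le_pow_left₀ hT0.le h.le _) (abs_nonneg _)

theorem cross_le (a b : ℝ) (ha : 0 ≤ a) (hb : 0 ≤ b) (k : ℕ) (hk : 1 ≤ k) :
    a ^ (2 * k - 1) * b + a * b ^ (2 * k - 1) ≤ 2 * (a ^ (2 * k) + b ^ (2 * k)) := by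
  have e : ∀ c : ℝ, c ^ (2 * k) = c ^ (2 * k - 1) * c := by
    intro c
    rw [← pow_succ]
    congr 1
    omega
  have ea := e a
  have eb := e b
  have ha' : 0 ≤ a ^ (2 * k - 1) := by positivity
  have hb' : 0 ≤ b ^ (2 * k - 1) := by positivity
  rw [ea, eb]
  rcases le_total a b with h | h
  · have h1 : a ^ (2 * k - 1) ≤ b ^ (2 * k - 1) := pow_le_pow_left₀ ha h _
    have h2 : a ^ (2 * k - 1) * b ≤ b ^ (2 * k - 1) * b := mul_le_mul_of_nonneg_right h1 hb
    have h3 : a * b ^ (2 * k - 1) ≤ b * b ^ (2 * k - 1) := mul_le_mul_of_nonneg_right h hb'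
    have h4 : 0 ≤ a ^ (2 * k - 1) * a := by positivity
    nlinarith
  · have h1 : b ^ (2 * k - 1) ≤ a ^ (2 * k - 1) := pow_le_pow_left₀ hb h _
    have h2 : a * b ^ (2 * k - 1) ≤ a * a ^ (2 * k - 1) := mul_le_mul_of_nonneg_left h1 ha
    have h3 : a ^ (2 * k - 1) * b ≤ a ^ (2 * k - 1) * a := mul_le_mul_of_nonneg_left h ha'
    have h4 : 0 ≤ b ^ (2 * k - 1) * b := by positivity
    nlinarith

theorem prod_sub_le (T : ℝ) (hT : 1 ≤ T) (k : ℕ) (hk : 1 ≤ k) (a b : ℝ) :
    |a * b - tr T a * tr T b| ≤ 2 * (a ^ (2 * k) + b ^ (2 * k)) / T ^ (2 * k - 2) := by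
  have hT0 : 0 < T := by linarith
  have hTk : 0 < T ^ (2 * k - 2) := by positivity
  have h1 : a * b - tr T a * tr T b = (a - tr T a) * b + tr T a * (b - tr T b) := by ring
  have h2 := sub_tr_le T a hT k hk
  have h3 := sub_tr_le T b hT k hk
  have h4 := abs_tr_le_abs T a hT0.le
  calc |a * b - tr T a * tr T b| ≤ |(a - tr T a) * b| + |tr T a * (b - tr T b)| := by
        rw [h1]; exact abs_add_le _ _
    _ = |a - tr T a| * |b| + |tr T a| * |b - tr T b| := by rw [abs_mul, abs_mul]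
    _ ≤ |a| ^ (2 * k - 1) / T ^ (2 * k - 2) * |b| + |a| * (|b| ^ (2 * k - 1) / T ^ (2 * k - 2)) := by
        apply add_le_add
        · exact mul_le_mul_of_nonneg_right h2 (abs_nonneg _)
        · exact mul_le_mul h4 h3 (abs_nonneg _) (abs_nonneg _)
    _ = (|a| ^ (2 * k - 1) * |b| + |a| * |b| ^ (2 * k - 1)) / T ^ (2 * k - 2) := by ring
    _ ≤ 2 * (|a| ^ (2 * k) + |b| ^ (2 * k)) / T ^ (2 * k - 2) :=
        div_le_div_of_nonneg_right (cross_le _ _ (abs_nonneg _) (abs_nonneg _) k hk) hTk.le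
    _ = 2 * (a ^ (2 * k) + b ^ (2 * k)) / T ^ (2 * k - 2) := by
        rw [pow_mul, pow_mul, sq_abs, sq_abs, ← pow_mul, ← pow_mul]

end Round

open Round in
/-- P1. Rounding of vectors to signs. -/
theorem sdp_rounding {ι : Type*} [Fintype ι] [DecidableEq ι] (M : ι → ι → ℝ)
    (hdiag : ∀ i, M i i = 0) (S0 : ℝ)
    (hS : ∀ s : ι → ℝ, (∀ i, s i = 1 ∨ s i = -1) → ∑ i, ∑ j, M i j * s i * s j ≤ S0)
    {d : Type*} [Fintype d] [DecidableEq d] (x : ι → d → ℝ) (hx : ∀ i, ∑ l, x i l ^ 2 ≤ 1)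
    (T : ℝ) (hT : 1 ≤ T) (k : ℕ) (hk : 1 ≤ k) :
    ∑ i, ∑ j, M i j * ∑ l, x i l * x j l ≤
      T ^ 2 * S0 + 8 * ((2 * k).factorial : ℝ) / T ^ (2 * k - 2) * ∑ i, ∑ j, |M i j| := by
  have hT0 : 0 < T := by linarith
  set N : ℝ := (2 : ℝ) ^ Fintype.card d with hN
  have hN0 : 0 < N := by positivity
  have hcard : (∑ _e : d → Bool, (1 : ℝ)) = N := by
    simp [hN]
  -- the pointwise bound
  have h1 : ∀ e : d → Bool, ∑ i, ∑ j, M i j * (Y (x i) e * Y (x j) e) ≤
      T ^ 2 * S0 + ∑ i, ∑ j, |M i j| *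
        (2 * (Y (x i) e ^ (2 * k) + Y (x j) e ^ (2 * k)) / T ^ (2 * k - 2)) := by
    intro e
    have h2 := cube_le_T M hdiag S0 hS T hT0 (fun i => tr T (Y (x i) e))
      (fun i => abs_tr_le T _ hT0.le)
    have h3 : ∑ i, ∑ j, M i j * (Y (x i) e * Y (x j) e) ≤
        ∑ i, ∑ j, (M i j * tr T (Y (x i) e) * tr T (Y (x j) e) + |M i j| *
          (2 * (Y (x i) e ^ (2 * k) + Y (x j) e ^ (2 * k)) / T ^ (2 * k - 2))) := by
      refine Finset.sum_le_sum fun i _ => Finset.sum_le_sum fun j _ => ?_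
      have h4 := prod_sub_le T hT k hk (Y (x i) e) (Y (x j) e)
      have h5 : M i j * (Y (x i) e * Y (x j) e - tr T (Y (x i) e) * tr T (Y (x j) e)) ≤
          |M i j| * |Y (x i) e * Y (x j) e - tr T (Y (x i) e) * tr T (Y (x j) e)| := by
        rw [← abs_mul]; exact le_abs_self _
      have h6 := mul_le_mul_of_nonneg_left h4 (abs_nonneg (M i j))
      nlinarith
    simp_rw [Finset.sum_add_distrib] at h3
    linarith
  -- summing over the signs
  have h7 : ∑ e : d → Bool, ∑ i, ∑ j, M i j * (Y (x i) e * Y (x j) e) =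
      N * ∑ i, ∑ j, M i j * ∑ l, x i l * x j l := by
    rw [Finset.sum_comm, Finset.mul_sum]
    refine Finset.sum_congr rfl fun i _ => ?_
    rw [Finset.sum_comm, Finset.mul_sum]
    refine Finset.sum_congr rfl fun j _ => ?_
    rw [← Finset.mul_sum, sum_Y_mul]
    ring
  have h8 : ∑ e : d → Bool, ∑ i, ∑ j, |M i j| *
        (2 * (Y (x i) e ^ (2 * k) + Y (x j) e ^ (2 * k)) / T ^ (2 * k - 2)) ≤
      N * (8 * ((2 * k).factorial : ℝ) / T ^ (2 * k - 2) * ∑ i, ∑ j, |M i j|) := by
    rw [Finset.sum_comm, Finset.mul_sum, Finset.mul_sum]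
    refine Finset.sum_le_sum fun i _ => ?_
    rw [Finset.sum_comm, Finset.mul_sum, Finset.mul_sum]
    refine Finset.sum_le_sum fun j _ => ?_
    rw [← Finset.mul_sum, ← Finset.sum_div, ← Finset.mul_sum, Finset.sum_add_distrib]
    have h9 := sum_pow_le (x i) (hx i) k
    have h10 := sum_pow_le (x j) (hx j) k
    have h11 : 2 * (∑ e : d → Bool, Y (x i) e ^ (2 * k) + ∑ e : d → Bool, Y (x j) e ^ (2 * k)) /
        T ^ (2 * k - 2) ≤ 2 * (N * (2 * (2 * k).factorial) + N * (2 * (2 * k).factorial)) /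
          T ^ (2 * k - 2) := by
      apply div_le_div_of_nonneg_right _ (by positivity)
      linarith
    calc |M i j| * (2 * (∑ e : d → Bool, Y (x i) e ^ (2 * k) +
          ∑ e : d → Bool, Y (x j) e ^ (2 * k)) / T ^ (2 * k - 2))
        ≤ |M i j| * (2 * (N * (2 * (2 * k).factorial) + N * (2 * (2 * k).factorial)) /
          T ^ (2 * k - 2)) := mul_le_mul_of_nonneg_left h11 (abs_nonneg _)
      _ = N * (8 * ((2 * k).factorial : ℝ) / T ^ (2 * k - 2) * |M i j|) := by ring
  have h12 := Finset.sum_le_sum fun e (_ : e ∈ (Finset.univ : Finset (d → Bool))) => h1 e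
  rw [Finset.sum_add_distrib, h7] at h12
  have h13 : ∑ _e : d → Bool, T ^ 2 * S0 = N * (T ^ 2 * S0) := by
    rw [← hcard, Finset.sum_mul]
    simp
  rw [h13] at h12
  have h14 : N * ∑ i, ∑ j, M i j * ∑ l, x i l * x j l ≤
      N * (T ^ 2 * S0 + 8 * ((2 * k).factorial : ℝ) / T ^ (2 * k - 2) * ∑ i, ∑ j, |M i j|) := by
    rw [mul_add]
    linarith
  exact le_of_mul_le_mul_left h14 hN0

end Pool.Agent.Lib.MP_7cecc1_co.SL
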