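import Mathlib
import Pool.Agent.Lib.MP_7cecc1_co.Lower
import Pool.Agent.Lib.MP_7cecc1_co.SL.Basic
import Pool.Agent.Lib.MP_7cecc1_co.SL.Round
import Pool.Agent.Lib.MP_7cecc1_co.SL.Dual

/-! From an upper bound on the cut surplus to the dual data (helper76). -/

namespace Pool.Agent.Lib.MP_7cecc1_co.SL

open Finset

/-- If `A + diag t` is positive semidefinite and there are no isolated vertices then the number of
vertices is at most `3/2 * ∑ t`. -/
theorem card_le_of_psd {V : Type*} [Fintype V] [DecidableEq V] (A : V → V → ℝ) (hA : Adj A)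
    (t : V → ℝ) (ht : ∀ v, 0 ≤ t v) (hpsd : PSDt A t) (hn : ∀ v, ∃ u, A v u = 1) :
    (Fintype.card V : ℝ) ≤ 3 / 2 * ∑ v, t v := by
  classical
  choose p hp using hn
  have hpne : ∀ v, p v ≠ v := by
    intro v h
    have := hp v
    rw [h, hA.diag v] at this
    norm_num at this
  -- edges
  have hedge : ∀ u v, A u v = 1 → 2 ≤ t u + t v := by
    intro u v huv
    have huv' : u ≠ v := by
      rintro rfl
      rw [hA.diag u] at huv
      norm_num at huv
    have h := hpsd (fun x => (if x = u then 1 else 0) - (if x = v then 1 else 0))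
    have e1 : ∑ x, ∑ y, A x y * ((if x = u then (1 : ℝ) else 0) - (if x = v then 1 else 0)) *
        ((if y = u then (1 : ℝ) else 0) - (if y = v then 1 else 0)) = -2 := by
      have : ∀ x, ∑ y, A x y * ((if x = u then (1 : ℝ) else 0) - (if x = v then 1 else 0)) *
          ((if y = u then (1 : ℝ) else 0) - (if y = v then 1 else 0)) =
          (A x u - A x v) * ((if x = u then (1 : ℝ) else 0) - (if x = v then 1 else 0)) := by
        intro x
        have h1 : ∀ y, A x y * ((if x = u then (1 : ℝ) else 0) - (if x = v then 1 else 0)) *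
          ((if y = u then (1 : ℝ) else 0) - (if y = v then 1 else 0)) =
          ((if y = u then A x y else 0) - (if y = v then A x y else 0)) *
            ((if x = u then (1 : ℝ) else 0) - (if x = v then 1 else 0)) := by
          intro y
          split_ifs <;> ring
        rw [Finset.sum_congr rfl fun y _ => h1 y, ← Finset.sum_mul, Finset.sum_sub_distrib]
        simp
      rw [Finset.sum_congr rfl fun x _ => this x]
      have h2 : ∀ x, (A x u - A x v) * ((if x = u then (1 : ℝ) else 0) - (if x = v then 1 else 0)) =
          (if x = u then (A x u - A x v) else 0) - (if x = v then (A x u - A x v) else 0) := by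
        intro x
        split_ifs <;> ring
      rw [Finset.sum_congr rfl fun x _ => h2 x, Finset.sum_sub_distrib]
      simp only [Finset.sum_ite_eq', Finset.mem_univ, if_true]
      rw [hA.diag u, hA.diag v, huv, hA.symm v u, huv]
      norm_num
    have e2 : ∑ x, t x * ((if x = u then (1 : ℝ) else 0) - (if x = v then 1 else 0)) ^ 2 =
        t u + t v := by
      have h2 : ∀ x, t x * ((if x = u then (1 : ℝ) else 0) - (if x = v then 1 else 0)) ^ 2 =
          (if x = u then t x else 0) + (if x = v then t x else 0) := by
        intro x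
        by_cases h1 : x = u
        · have h3 : x ≠ v := fun h => huv' (h1.symm.trans h)
          rw [if_pos h1, if_neg h3, if_pos h1, if_neg h3]
          ring
        · by_cases h3 : x = v
          · rw [if_neg h1, if_pos h3, if_neg h1, if_pos h3]
            ring
          · rw [if_neg h1, if_neg h3, if_neg h1, if_neg h3]
            ring
      rw [Finset.sum_congr rfl fun x _ => h2 x, Finset.sum_add_distrib]
      simp
    rw [e1, e2] at h
    linarith
  -- the independent set
  have hind : ∀ u v, t u < 1 → t v < 1 → A u v = 0 := by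
    intro u v hu hv
    rcases hA.zero_one u v with h | h
    · exact h
    · have := hedge u v h
      linarith
  -- stars
  have hstar : ∀ x, 2 * ∑ v, (if t v < 1 ∧ p v = x then (1 : ℝ) else 0) ≤
      t x + ∑ v, (if t v < 1 ∧ p v = x then t v else 0) := by
    intro x
    set f : V → ℝ := fun v => if t v < 1 ∧ p v = x then (1 : ℝ) else 0 with hf
    have hfx : f x = 0 := by
      rw [hf]
      simp only
      rw [if_neg]
      rintro ⟨_, h⟩
      exact hpne x h
    have h := hpsd (fun v => f v - (if v = x then 1 else 0))
    have hff : ∀ u v, A u v * f u * f v = 0 := by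
      intro u v
      simp only [hf]
      by_cases hu : t u < 1 ∧ p u = x
      · by_cases hv : t v < 1 ∧ p v = x
        · rw [hind u v hu.1 hv.1]
          ring
        · rw [if_neg hv]
          ring
      · rw [if_neg hu]
        ring
    have hAx : ∀ v, A v x * f v = f v := by
      intro v
      simp only [hf]
      by_cases hv : t v < 1 ∧ p v = x
      · rw [if_pos hv, ← hv.2, hp v]
        ring
      · rw [if_neg hv]
        ring
    have e1 : ∑ u, ∑ v, A u v * (f u - (if u = x then 1 else 0)) *
        (f v - (if v = x then 1 else 0)) = -2 * ∑ v, f v := by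
      have h1 : ∀ u v, A u v * (f u - (if u = x then 1 else 0)) *
          (f v - (if v = x then 1 else 0)) =
          (- (if v = x then A u v * f u else 0)) - (if u = x then A u v * f v else 0) +
            (if u = x then (if v = x then A u v else 0) else 0) := by
        intro u v
        have := hff u v
        split_ifs <;> linear_combination this
      rw [Finset.sum_congr rfl fun u _ => Finset.sum_congr rfl fun v _ => h1 u v]
      simp only [Finset.sum_add_distrib, Finset.sum_sub_distrib, Finset.sum_neg_distrib]
      have h2 : ∑ u, ∑ v, (if v = x then A u v * f u else 0) = ∑ u, f u := by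
        refine Finset.sum_congr rfl fun u _ => ?_
        rw [Finset.sum_ite_eq' Finset.univ x, if_pos (Finset.mem_univ x), hAx]
      have h3 : ∑ u, ∑ v, (if u = x then A u v * f v else 0) = ∑ u, f u := by
        rw [Finset.sum_comm]
        refine Finset.sum_congr rfl fun u _ => ?_
        rw [Finset.sum_ite_eq' Finset.univ x, if_pos (Finset.mem_univ x), hA.symm, hAx]
      have h4 : ∑ u, ∑ v, (if u = x then (if v = x then A u v else 0) else 0) = 0 := by
        refine Finset.sum_eq_zero fun u _ => Finset.sum_eq_zero fun v _ => ?_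
        split_ifs with h5 h6
        · rw [h5, h6, hA.diag]
        · rfl
        · rfl
      rw [h2, h3, h4]
      ring
    have e2 : ∑ v, t v * (f v - (if v = x then 1 else 0)) ^ 2 =
        t x + ∑ v, (if t v < 1 ∧ p v = x then t v else 0) := by
      have h2 : ∀ v, t v * (f v - (if v = x then 1 else 0)) ^ 2 =
          (if v = x then t v else 0) + (if t v < 1 ∧ p v = x then t v else 0) := by
        intro v
        by_cases h1 : v = x
        · subst h1
          rw [hfx, if_pos rfl, if_pos rfl, if_neg]
          · ring
          · rintro ⟨_, h⟩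
            exact hpne v h
        · rw [if_neg h1, if_neg h1]
          simp only [hf]
          by_cases hv : t v < 1 ∧ p v = x
          · rw [if_pos hv, if_pos hv]
            ring
          · rw [if_neg hv, if_neg hv]
            ring
      rw [Finset.sum_congr rfl fun v _ => h2 v, Finset.sum_add_distrib]
      simp
    rw [e1, e2] at h
    linarith
  have hsum : 2 * ∑ v, (if t v < 1 then (1 : ℝ) else 0) ≤
      ∑ v, t v + ∑ v, (if t v < 1 then t v else 0) := by
    have h1 := Finset.sum_le_sum fun x (_ : x ∈ Finset.univ) => hstar x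
    rw [← Finset.mul_sum, Finset.sum_add_distrib, Finset.sum_comm] at h1
    have h2 : ∀ v, ∑ x, (if t v < 1 ∧ p v = x then (1 : ℝ) else 0) = if t v < 1 then 1 else 0 := by
      intro v
      by_cases h : t v < 1
      · simp [h]
      · simp [h]
    have h3 : ∑ x, ∑ v, (if t v < 1 ∧ p v = x then t v else 0) =
        ∑ v, if t v < 1 then t v else 0 := by
      rw [Finset.sum_comm]
      refine Finset.sum_congr rfl fun v _ => ?_
      by_cases h : t v < 1
      · simp [h]
      · simp [h]
    rw [Finset.sum_congr rfl fun v _ => h2 v, h3] at h1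
    exact h1
  have hcard : (Fintype.card V : ℝ) = ∑ v : V, (if t v < 1 then (1 : ℝ) else 0) +
      ∑ v : V, (if t v < 1 then (0 : ℝ) else 1) := by
    rw [← Finset.sum_add_distrib]
    have : ∀ v : V, ((if t v < 1 then (1 : ℝ) else 0) + if t v < 1 then (0 : ℝ) else 1) = 1 := by
      intro v
      split_ifs <;> norm_num
    rw [Finset.sum_congr rfl fun v _ => this v]
    simp
  have hU : ∑ v : V, (if t v < 1 then (0 : ℝ) else 1) ≤ ∑ v, (if t v < 1 then 0 else t v) := by
    refine Finset.sum_le_sum fun v _ => ?_
    split_ifs with h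
    · exact le_rfl
    · exact not_lt.1 h
  have hsplit : ∑ v, t v = ∑ v, (if t v < 1 then t v else 0) + ∑ v, (if t v < 1 then 0 else t v) := by
    rw [← Finset.sum_add_distrib]
    refine Finset.sum_congr rfl fun v _ => ?_
    split_ifs <;> ring
  rw [hcard]
  have h0 : 0 ≤ ∑ v, (if t v < 1 then t v else 0) := by
    refine Finset.sum_nonneg fun v _ => ?_
    split_ifs
    · exact ht v
    · exact le_rfl
  have h0' : 0 ≤ ∑ v, (if t v < 1 then 0 else t v) := by
    refine Finset.sum_nonneg fun v _ => ?_
    split_ifs
    · exact le_rfl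
    · exact ht v
  linarith

/-- Sums over the non-isolated vertices. -/
theorem sum_nonIso {n : ℕ} (w : Fin n → Fin n → ℝ) (g : Fin n → ℝ)
    (hg : ∀ v, (¬ ∃ u, w u v ≠ 0 ∨ w v u ≠ 0) → g v = 0) :
    ∑ v : NonIso w, g v = ∑ v, g v := by
  classical
  have h1 : ∑ v : NonIso w, g v =
      ∑ v ∈ Finset.univ.filter (fun v => ∃ u, w u v ≠ 0 ∨ w v u ≠ 0), g v := by
    refine (Finset.sum_subtype _ ?_ g).symm
    intro x
    simp
  rw [h1, Finset.sum_filter]
  refine Finset.sum_congr rfl fun v _ => ?_
  split_ifs with h
  · rfl
  · exact (hg v h).symm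

/-- Extension by zero from the non-isolated vertices. -/
noncomputable def extz {n : ℕ} (w : Fin n → Fin n → ℝ) (c : NonIso w → ℝ) (v : Fin n) : ℝ :=
  open Classical in if h : ∃ u, w u v ≠ 0 ∨ w v u ≠ 0 then c ⟨v, h⟩ else 0

theorem extz_coe {n : ℕ} (w : Fin n → Fin n → ℝ) (c : NonIso w → ℝ) (v : NonIso w) :
    extz w c v = c v := by
  rw [extz, dif_pos v.2]

theorem extz_zero {n : ℕ} (w : Fin n → Fin n → ℝ) (c : NonIso w → ℝ) (v : Fin n)
    (h : ¬ ∃ u, w u v ≠ 0 ∨ w v u ≠ 0) : extz w c v = 0 := by
  rw [extz, dif_neg h]

/-- From an upper bound on the cut surplus to the dual data. -/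
theorem data_of_cut {n : ℕ} (w : Fin n → Fin n → ℝ) (hw : Simple w)
    (htri : ∀ i j, w i j ≠ 0 → i < j) (T : ℝ) (hT : 1 ≤ T) (k : ℕ) (hk : 1 ≤ k) (S : ℝ)
    (hS : 5 * (T ^ 2 * (4 * mac w - total w) +
      8 * ((2 * k).factorial : ℝ) / T ^ (2 * k - 2) * (3 * total w)) ≤ S) :
    ∃ t : NonIso w → ℝ, Data (fun u v : NonIso w => w u v + w v u) t (total w) S := by
  classical
  have hw0 : ∀ i j, 0 ≤ w i j := by
    intro i j
    rcases hw i j with h | h <;> rw [h]
    exact zero_le_one
  have hloop : ∀ i, w i i = 0 := by
    intro i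
    by_contra h
    exact lt_irrefl _ (htri i i h)
  have hone : ∀ i j, w i j ≠ 0 → w j i = 0 := by
    intro i j h
    by_contra h'
    exact lt_irrefl _ ((htri i j h).trans (htri j i h'))
  set δ : Fin n → ℝ := fun v => ∑ u, (w v u - w u v) with hδ
  -- the matrix
  set M : Option (Fin n) → Option (Fin n) → ℝ := fun a b =>
    match a, b with
    | none, none => 0
    | none, some v => δ v / 2
    | some v, none => δ v / 2
    | some u, some v => -(w u v + w v u) / 2 with hM
  have hMsum : ∀ y : Option (Fin n) → ℝ, ∑ a, ∑ b, M a b * y a * y b =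
      y none * ∑ v, δ v * y (some v) -
        1 / 2 * ∑ u, ∑ v, (w u v + w v u) * y (some u) * y (some v) := by
    intro y
    simp only [Fintype.sum_option, hM, zero_mul, zero_add, Finset.sum_add_distrib]
    have h1 : ∑ x, δ x / 2 * y none * y (some x) = y none * ∑ v, δ v * y (some v) / 2 := by
      rw [Finset.mul_sum]
      exact Finset.sum_congr rfl fun _ _ => by ring
    have h2 : ∑ x, δ x / 2 * y (some x) * y none = y none * ∑ v, δ v * y (some v) / 2 := by
      rw [Finset.mul_sum]
      exact Finset.sum_congr rfl fun _ _ => by ring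
    have h3 : ∑ u, ∑ v, -(w u v + w v u) / 2 * y (some u) * y (some v) =
        -(1 / 2 * ∑ u, ∑ v, (w u v + w v u) * y (some u) * y (some v)) := by
      simp only [Finset.mul_sum]
      rw [← Finset.sum_neg_distrib]
      refine Finset.sum_congr rfl fun _ _ => ?_
      rw [← Finset.sum_neg_distrib]
      exact Finset.sum_congr rfl fun _ _ => by ring
    rw [h1, h2, h3, ← Finset.sum_div]
    ring
  have hsymm : ∀ a b, M a b = M b a := by
    intro a b
    cases a <;> cases b <;> simp only [hM]
    ring
  have hMdiag : ∀ a, M a a = 0 := by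
    intro a
    cases a with
    | none => rfl
    | some v => simp only [hM, hloop v]; ring
  have hell : ∀ x : Fin n → ℝ, Lower.ell w x = ∑ v, δ v * x v := by
    intro x
    rw [Lower.ell_apply]
    have h1 : ∑ i, ∑ j, w i j * (x i - x j) = ∑ i, ∑ j, w i j * x i - ∑ i, ∑ j, w i j * x j := by
      rw [← Finset.sum_sub_distrib]
      refine Finset.sum_congr rfl fun i _ => ?_
      rw [← Finset.sum_sub_distrib]
      exact Finset.sum_congr rfl fun j _ => by ring
    rw [h1, Finset.sum_comm (f := fun i j => w i j * x j), ← Finset.sum_sub_distrib]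
    refine Finset.sum_congr rfl fun v _ => ?_
    simp only [hδ]
    rw [Finset.sum_mul, ← Finset.sum_sub_distrib]
    exact Finset.sum_congr rfl fun j _ => by ring
  have hbil : ∀ x : Fin n → ℝ, Lower.bil w x x =
      1 / 2 * ∑ u, ∑ v, (w u v + w v u) * x u * x v := by
    intro x
    rw [Lower.bil]
    have h1 : ∑ u, ∑ v, (w u v + w v u) * x u * x v =
        ∑ u, ∑ v, w u v * x u * x v + ∑ u, ∑ v, w v u * x u * x v := by
      rw [← Finset.sum_add_distrib]
      refine Finset.sum_congr rfl fun i _ => ?_
      rw [← Finset.sum_add_distrib]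
      exact Finset.sum_congr rfl fun j _ => by ring
    have h2 : ∑ u, ∑ v, w v u * x u * x v = ∑ u, ∑ v, w u v * x u * x v := by
      rw [Finset.sum_comm]
      refine Finset.sum_congr rfl fun i _ => Finset.sum_congr rfl fun j _ => by ring
    rw [h1, h2]
    ring
  have hsign : ∀ s : Option (Fin n) → ℝ, (∀ i, s i = 1 ∨ s i = -1) →
      ∑ a, ∑ b, M a b * s a * s b ≤ 4 * mac w - total w := by
    intro s hs
    have h1 := Lower.mac_ge w (fun v => s none * s (some v)) (by
      intro v
      rcases hs none with h | h <;> rcases hs (some v) with h' | h' <;> rw [h, h'] <;> norm_num)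
    rw [hell, hbil] at h1
    rw [hMsum]
    have hss : s none * s none = 1 := by
      rcases hs none with h | h <;> rw [h] <;> norm_num
    have h2 : ∑ v, δ v * (s none * s (some v)) = s none * ∑ v, δ v * s (some v) := by
      rw [Finset.mul_sum]
      exact Finset.sum_congr rfl fun _ _ => by ring
    have h3 : ∑ u, ∑ v, (w u v + w v u) * (s none * s (some u)) * (s none * s (some v)) =
        ∑ u, ∑ v, (w u v + w v u) * s (some u) * s (some v) := by
      refine Finset.sum_congr rfl fun u _ => Finset.sum_congr rfl fun v _ => ?_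
      linear_combination (w u v + w v u) * s (some u) * s (some v) * hss
    rw [h2, h3] at h1
    linarith
  have htot : ∑ u, ∑ v, (w u v + w v u) = 2 * total w := by
    simp only [Finset.sum_add_distrib]
    rw [Finset.sum_comm (f := fun u v => w v u), total]
    ring
  have habs : ∑ a, ∑ b, |M a b| ≤ 3 * total w := by
    simp only [Fintype.sum_option, hM, abs_zero, zero_add, Finset.sum_add_distrib]
    have h1 : ∀ v, |δ v / 2| ≤ 1 / 2 * ∑ u, (w u v + w v u) := by
      intro v
      rw [abs_div, abs_two]
      have : |δ v| ≤ ∑ u, (w u v + w v u) := by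
        simp only [hδ]
        refine (Finset.abs_sum_le_sum_abs _ _).trans (Finset.sum_le_sum fun u _ => ?_)
        rw [abs_le]
        constructor <;> linarith [hw0 u v, hw0 v u]
      linarith
    have h2 : ∑ v, |δ v / 2| ≤ total w := by
      refine (Finset.sum_le_sum fun v _ => h1 v).trans (le_of_eq ?_)
      rw [← Finset.mul_sum, Finset.sum_congr rfl fun v _ => Finset.sum_congr rfl fun u _ =>
        add_comm (w u v) (w v u), htot]
      ring
    have h3 : ∑ u, ∑ v, |-(w u v + w v u) / 2| = total w := by
      have : ∀ u v, |-(w u v + w v u) / 2| = (w u v + w v u) / 2 := by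
        intro u v
        rw [neg_div, abs_neg, abs_of_nonneg]
        have := hw0 u v
        have := hw0 v u
        positivity
      rw [Finset.sum_congr rfl fun u _ => Finset.sum_congr rfl fun v _ => this u v]
      simp only [← Finset.sum_div]
      rw [htot]
      ring
    rw [h3]
    linarith
  -- the dual solution
  set S1 : ℝ := T ^ 2 * (4 * mac w - total w) +
      8 * ((2 * k).factorial : ℝ) / T ^ (2 * k - 2) * (3 * total w) with hS1
  obtain ⟨t, ht0, htsum, hdual⟩ := sdp_dual M hsymm S1 (by
    intro x hx
    refine (sdp_rounding M hMdiag _ hsign x hx T hT k hk).trans ?_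
    rw [hS1]
    have : 0 ≤ 8 * ((2 * k).factorial : ℝ) / T ^ (2 * k - 2) := by positivity
    have := mul_le_mul_of_nonneg_left habs this
    linarith)
  rw [Fintype.sum_option] at htsum
  have hS1nn : 0 ≤ S1 := by
    have := ht0 none
    have := Finset.sum_nonneg fun v (_ : v ∈ Finset.univ) => ht0 (some v)
    linarith
  -- the quadratic inequality
  have hquad : ∀ (y0 : ℝ) (y : Fin n → ℝ), 0 ≤ 2 * t none * (y0 * y0) +
      (-2 * ∑ v, δ v * y v) * y0 +
      (∑ u, ∑ v, (w u v + w v u) * y u * y v + ∑ v, 2 * t (some v) * y v ^ 2) := by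
    intro y0 y
    have h1 := hdual (fun a => Option.elim a y0 y)
    rw [hMsum, Fintype.sum_option] at h1
    simp only [Option.elim_none, Option.elim_some] at h1
    have h2 : ∑ v, 2 * t (some v) * y v ^ 2 = 2 * ∑ v, t (some v) * y v ^ 2 := by
      rw [Finset.mul_sum]
      exact Finset.sum_congr rfl fun _ _ => by ring
    rw [h2]
    nlinarith [h1]
  -- transfer to the non-isolated vertices
  set t' : NonIso w → ℝ := fun v => 2 * t (some (v : Fin n)) with ht'
  have hA : Adj (fun u v : NonIso w => w u v + w v u) := by
    refine ⟨fun u v => add_comm _ _, fun u v => ?_, fun v => ?_⟩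
    · rcases hw u v with h | h
      · rcases hw v u with h' | h'
        · left
          simp only [h, h', add_zero]
        · right
          simp only [h, h', zero_add]
      · right
        have : w v u = 0 := hone u v (by rw [h]; exact one_ne_zero)
        simp only [h, this, add_zero]
    · simp only [hloop, add_zero]
  have hquadA : ∀ c : NonIso w → ℝ,
      ∑ u, ∑ v, (w u v + w v u) * extz w c u * extz w c v =
        ∑ u : NonIso w, ∑ v : NonIso w, (w u v + w v u) * c u * c v := by
    intro c
    rw [← sum_nonIso w]
    · refine Finset.sum_congr rfl fun u _ => ?_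
      rw [← sum_nonIso w]
      · refine Finset.sum_congr rfl fun v _ => ?_
        rw [extz_coe, extz_coe]
      · intro v hv
        rw [extz_zero w c v hv, mul_zero]
    · intro u hu
      refine Finset.sum_eq_zero fun v _ => ?_
      rw [extz_zero w c u hu, mul_zero, zero_mul]
  have hquadt : ∀ c : NonIso w → ℝ, ∑ v, 2 * t (some v) * extz w c v ^ 2 =
      ∑ v, t' v * c v ^ 2 := by
    intro c
    rw [← sum_nonIso w]
    · refine Finset.sum_congr rfl fun v _ => ?_
      rw [extz_coe]
    · intro v hv
      rw [extz_zero w c v hv]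
      ring
  have ht'0 : ∀ v, 0 ≤ t' v := fun v => mul_nonneg zero_le_two (ht0 _)
  have hpsd : PSDt (fun u v : NonIso w => w u v + w v u) t' := by
    intro c
    have h := hquad 0 (extz w c)
    rw [hquadA, hquadt] at h
    simpa using h
  have ht'sum : ∑ v, t' v ≤ 2 * ∑ v, t (some v) := by
    rw [Finset.mul_sum]
    calc ∑ v, t' v = ∑ v ∈ Finset.univ.filter (fun v => ∃ u, w u v ≠ 0 ∨ w v u ≠ 0),
          2 * t (some v) := by
          refine (Finset.sum_subtype _ ?_ (fun v => 2 * t (some v))).symm
          intro x
          simp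
      _ ≤ ∑ v, 2 * t (some v) := by
          refine Finset.sum_le_sum_of_subset_of_nonneg (Finset.filter_subset _ _) ?_
          intro v _ _
          exact mul_nonneg zero_le_two (ht0 _)
  have hcard := card_le_of_psd _ hA t' ht'0 hpsd (by
    intro v
    obtain ⟨u, hu⟩ := v.2
    rcases hu with h | h
    · refine ⟨⟨u, v, Or.inr h⟩, ?_⟩
      have h1 : w u v = 1 := (hw u v).resolve_left h
      have h2 : w v u = 0 := hone u v h
      simp only [h1, h2, zero_add]
    · refine ⟨⟨u, v, Or.inl h⟩, ?_⟩
      have h1 : w v u = 1 := (hw v u).resolve_left h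
      have h2 : w u v = 0 := hone v u h
      simp only [h1, h2, add_zero])
  refine ⟨fun v => t' v + 1, hA, ?_, fun v => by linarith [ht'0 v], ?_, ?_, ?_⟩
  · -- edges
    rw [← htot]
    rw [← sum_nonIso w (fun u => ∑ v, (w u v + w v u))]
    · refine Finset.sum_congr rfl fun u _ => ?_
      rw [← sum_nonIso w (fun v => (w u v + w v u))]
      intro v hv
      push Not at hv
      rw [(hv u).1, (hv u).2, add_zero]
    · intro u hu
      push Not at hu
      refine Finset.sum_eq_zero fun v _ => ?_
      rw [(hu v).1, (hu v).2, add_zero]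
  · -- t_sum
    rw [Finset.sum_add_distrib]
    simp only [Finset.sum_const, Finset.card_univ, nsmul_eq_mul, mul_one]
    have := ht0 none
    linarith
  · -- psd
    intro c
    have h := hpsd c
    have h1 : ∑ v, (t' v + 1) * c v ^ 2 = ∑ v, t' v * c v ^ 2 + ∑ v, c v ^ 2 := by
      rw [← Finset.sum_add_distrib]
      exact Finset.sum_congr rfl fun _ _ => by ring
    have h2 : 0 ≤ ∑ v, c v ^ 2 := Finset.sum_nonneg fun v _ => sq_nonneg _
    rw [h1]
    linarith
  · -- bal
    intro c
    have hL : ∑ v, c v * ∑ u : NonIso w, (w v u + w u v) * sg v u =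
        ∑ v, δ v * extz w c v := by
      rw [← sum_nonIso w (fun v => δ v * extz w c v)]
      · refine Finset.sum_congr rfl fun v _ => ?_
        rw [extz_coe, mul_comm]
        congr 1
        simp only [hδ]
        rw [← sum_nonIso w (fun u => w v u - w u v)]
        · refine Finset.sum_congr rfl fun u _ => ?_
          have hsg : sg v u = sg (v : Fin n) (u : Fin n) := by
            rw [sg, sg]
            simp only [Subtype.coe_lt_coe]
          rw [hsg, sg]
          split_ifs with h1 h2
          · have : w u v = 0 := by
              by_contra h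
              exact lt_asymm h1 (htri _ _ h)
            rw [this]
            ring
          · have : w v u = 0 := by
              by_contra h
              exact lt_asymm h2 (htri _ _ h)
            rw [this]
            ring
          · have : (v : Fin n) = u := le_antisymm (not_lt.1 h2) (not_lt.1 h1)
            rw [this]
            ring
        · intro u hu
          push Not at hu
          rw [(hu v).1, (hu v).2, sub_zero]
      · intro v hv
        rw [extz_zero w c v hv, mul_zero]
    rw [hL]
    have hdisc := discrim_le_zero (fun y0 => hquad y0 (extz w c))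
    rw [discrim, hquadA, hquadt] at hdisc
    have hQ := hpsd c
    have h1 : ∑ v, (t' v + 1) * c v ^ 2 = ∑ v, t' v * c v ^ 2 + ∑ v, c v ^ 2 := by
      rw [← Finset.sum_add_distrib]
      exact Finset.sum_congr rfl fun _ _ => by ring
    have h2 : 0 ≤ ∑ v, c v ^ 2 := Finset.sum_nonneg fun v _ => sq_nonneg _
    rw [h1]
    set Q := ∑ u : NonIso w, ∑ v : NonIso w, (w u v + w v u) * c u * c v +
      ∑ v, t' v * c v ^ 2 with hQdef
    have h3 : (∑ v, δ v * extz w c v) ^ 2 ≤ 2 * t none * Q := by nlinarith [hdisc]
    have h4 : 2 * t none ≤ S := by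
      have := Finset.sum_nonneg fun v (_ : v ∈ Finset.univ) => ht0 (some v)
      linarith
    have hSnn : 0 ≤ S := by linarith
    calc (∑ v, δ v * extz w c v) ^ 2 ≤ 2 * t none * Q := h3
      _ ≤ S * Q := mul_le_mul_of_nonneg_right h4 hQ
      _ ≤ S * (∑ u : NonIso w, ∑ v : NonIso w, (w u v + w v u) * c u * c v +
          (∑ v, t' v * c v ^ 2 + ∑ v, c v ^ 2)) := by
          refine mul_le_mul_of_nonneg_left ?_ hSnn
          linarith

end Pool.Agent.Lib.MP_7cecc1_co.SL
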