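import Mathlib
import Pool.Agent.Lib.MP_7cecc1_co.SL.Core
import Pool.Agent.Lib.MP_7cecc1_co.SL.Vectors
import Pool.Agent.Lib.MP_7cecc1_co.Combine

/-! The lower bound `α₀(S) ≥ 5/7`. -/

namespace Pool.Agent.Lib.MP_7cecc1_co.SL

open Finset Filter

/-- For large `m` there is no dual data with `S = m ^ (5/7 - η)`. -/
theorem no_data (η : ℝ) (hη0 : 0 < η) (hη1 : η ≤ 1 / 200) :
    ∃ m0 : ℝ, ∀ m : ℝ, m0 ≤ m → ∀ {V : Type} [Fintype V] [LinearOrder V]
      (A : V → V → ℝ) (t : V → ℝ), ¬ Data A t m (m ^ (5 / 7 - η)) := by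
  set κ : ℝ := η / 10 with hκ
  have hκ0 : 0 < κ := by positivity
  set N : ℕ := ⌈1 / κ⌉₊ with hN
  obtain ⟨C, hC, hcore⟩ := core N
  set s : ℝ := 5 / 7 - η with hs
  set γ : ℝ := 3 * s / 2 - 1 / 2 + κ with hγ
  set ξ : ℝ := γ / 2 + 5 * κ with hξ
  set θ : ℝ := s - 1 / 2 + κ with hθ
  have hlim1 : Tendsto (fun m : ℝ => m ^ (ξ - κ)) atTop atTop :=
    tendsto_rpow_atTop (by rw [hξ, hγ, hs]; linarith)
  have hlim2 : Tendsto (fun m : ℝ => m ^ (κ / 2)) atTop atTop :=
    tendsto_rpow_atTop (by positivity)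
  obtain ⟨m0, hm0⟩ := eventually_atTop.1 ((hlim1.eventually_ge_atTop 16).and
    ((hlim2.eventually_gt_atTop (12 * C)).and (eventually_ge_atTop (2 : ℝ))))
  refine ⟨m0, fun m hm V _ _ A t hd => ?_⟩
  obtain ⟨h16, h12, h2⟩ := hm0 m hm
  have hmpos : 0 < m := by linarith
  have hm1 : 1 ≤ m := by linarith
  have hmκ : 1 < m ^ κ := Real.one_lt_rpow (by linarith) hκ0
  set R : ℕ := ⌈m ^ κ⌉₊ with hR
  have hRlo : m ^ κ ≤ R := Nat.le_ceil _
  have hRhi : (R : ℝ) ≤ 2 * m ^ κ := by
    have := Nat.ceil_lt_add_one (show 0 ≤ m ^ κ by positivity)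
    linarith
  have hR2 : 2 ≤ R := by
    have h : (1 : ℝ) < R := lt_of_lt_of_le hmκ hRlo
    have : 1 < R := by exact_mod_cast h
    omega
  have hmR : m ≤ (R : ℝ) ^ N := by
    calc m = m ^ (1 : ℝ) := (Real.rpow_one m).symm
      _ ≤ m ^ (κ * N) := by
          apply Real.rpow_le_rpow_of_exponent_le hm1
          have h1 : 1 / κ ≤ N := Nat.le_ceil _
          rw [div_le_iff₀ hκ0] at h1
          linarith
      _ = (m ^ κ) ^ N := by rw [Real.rpow_mul hmpos.le, Real.rpow_natCast]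
      _ ≤ (R : ℝ) ^ N := pow_le_pow_left₀ (by positivity) hRlo N
  have key := hcore A t m (m ^ s) hd R (m ^ γ) (m ^ ξ) (m ^ θ) hR2 hmR
    (Real.one_le_rpow hm1 (by rw [hγ, hs]; linarith))
    (by
      calc m ^ γ ≤ m ^ (1 : ℝ) := Real.rpow_le_rpow_of_exponent_le hm1 (by rw [hγ, hs]; linarith)
        _ = m := Real.rpow_one m)
    (by
      calc 8 * (R : ℝ) ≤ 16 * m ^ κ := by linarith
        _ ≤ m ^ (ξ - κ) * m ^ κ := mul_le_mul_of_nonneg_right h16 (by positivity)
        _ = m ^ ξ := by rw [← Real.rpow_add hmpos]; congr 1; ring)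
    (by positivity)
    (Real.rpow_le_rpow_of_exponent_le hm1 (by rw [hθ, hγ, hs]; linarith))
    (by
      rw [← Real.rpow_add hmpos]
      calc m ^ (θ + s) ≤ m ^ (1 : ℝ) :=
            Real.rpow_le_rpow_of_exponent_le hm1 (by rw [hθ, hs]; linarith)
        _ = m := Real.rpow_one m)
    (by
      calc m ^ s ≤ m ^ (1 : ℝ) := Real.rpow_le_rpow_of_exponent_le hm1 (by rw [hs]; linarith)
        _ = m := Real.rpow_one m)
  -- the terms
  have hmono : ∀ {x : ℝ}, x ≤ 1 - κ / 2 → m ^ x ≤ m ^ (1 - κ / 2) :=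
    fun h => Real.rpow_le_rpow_of_exponent_le hm1 h
  have T1 : m ^ ξ * m ^ s ≤ m ^ (1 - κ / 2) := by
    rw [← Real.rpow_add hmpos]
    apply hmono
    rw [hξ, hγ, hs, hκ]
    linarith
  have hsq3 : √(m ^ s * (3 * m)) ≤ 2 * m ^ ((s + 1) / 2) := by
    apply Real.sqrt_le_iff.2
    refine ⟨by positivity, ?_⟩
    have e1 : (2 * m ^ ((s + 1) / 2)) ^ 2 = 4 * (m ^ s * m) := by
      rw [mul_pow, ← Real.rpow_natCast (m ^ ((s + 1) / 2)), ← Real.rpow_mul hmpos.le]
      have : (s + 1) / 2 * ((2 : ℕ) : ℝ) = s + 1 := by push_cast; ring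
      rw [this, Real.rpow_add hmpos, Real.rpow_one]
      norm_num
    rw [e1]
    have : 0 < m ^ s * m := by positivity
    nlinarith
  have T3 : √(m ^ s * (3 * m)) ≤ 2 * m ^ (1 - κ / 2) := by
    refine hsq3.trans ?_
    have := hmono (x := (s + 1) / 2) (by rw [hs, hκ]; linarith)
    linarith
  have T2 : m ^ s / m ^ γ * √(m ^ s * (3 * m)) ≤ 2 * m ^ (1 - κ / 2) := by
    rw [← Real.rpow_sub hmpos]
    calc m ^ (s - γ) * √(m ^ s * (3 * m)) ≤ m ^ (s - γ) * (2 * m ^ ((s + 1) / 2)) :=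
          mul_le_mul_of_nonneg_left hsq3 (by positivity)
      _ = 2 * m ^ (s - γ + (s + 1) / 2) := by rw [Real.rpow_add hmpos]; ring
      _ ≤ 2 * m ^ (1 - κ / 2) := by
          have := hmono (x := s - γ + (s + 1) / 2) (by rw [hγ]; linarith)
          linarith
  have hss : √(√(m ^ γ)) = m ^ (γ / 4) := by
    rw [Real.sqrt_eq_rpow, Real.sqrt_eq_rpow, ← Real.rpow_mul hmpos.le,
      ← Real.rpow_mul hmpos.le]
    congr 1
    ring
  have hsx : √(m ^ ξ) = m ^ (ξ / 2) := by
    rw [Real.sqrt_eq_rpow, ← Real.rpow_mul hmpos.le]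
    congr 1
    ring
  have T4 : m * (R : ℝ) ^ 2 * √(√(m ^ γ)) / √(m ^ ξ) ≤ 4 * m ^ (1 - κ / 2) := by
    rw [hss, hsx]
    have h1 : (R : ℝ) ^ 2 ≤ (2 * m ^ κ) ^ 2 := pow_le_pow_left₀ (by positivity) hRhi 2
    calc m * (R : ℝ) ^ 2 * m ^ (γ / 4) / m ^ (ξ / 2)
        ≤ m * (2 * m ^ κ) ^ 2 * m ^ (γ / 4) / m ^ (ξ / 2) := by gcongr
      _ = 4 * m ^ (1 - κ / 2) := by
          have e1 : (1 - κ / 2 : ℝ) = 1 + κ + κ + γ / 4 - ξ / 2 := by rw [hξ]; ring
          rw [e1, Real.rpow_sub hmpos, Real.rpow_add hmpos, Real.rpow_add hmpos,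
            Real.rpow_add hmpos, Real.rpow_one]
          ring
  have T5 : √(((m ^ s / m ^ θ) ^ 2 + m ^ s) * (3 * m)) ≤ 3 * m ^ (1 - κ / 2) := by
    apply Real.sqrt_le_iff.2
    refine ⟨by positivity, ?_⟩
    rw [← Real.rpow_sub hmpos]
    have e1 : (m ^ (s - θ)) ^ 2 * m ≤ (m ^ (1 - κ / 2)) ^ 2 := by
      rw [← Real.rpow_natCast, ← Real.rpow_natCast, ← Real.rpow_mul hmpos.le,
        ← Real.rpow_mul hmpos.le]
      nth_rewrite 2 [← Real.rpow_one m]
      rw [← Real.rpow_add hmpos]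
      apply Real.rpow_le_rpow_of_exponent_le hm1
      rw [hθ]
      push_cast
      linarith
    have e2 : m ^ s * m ≤ (m ^ (1 - κ / 2)) ^ 2 := by
      rw [← Real.rpow_natCast, ← Real.rpow_mul hmpos.le]
      nth_rewrite 2 [← Real.rpow_one m]
      rw [← Real.rpow_add hmpos]
      apply Real.rpow_le_rpow_of_exponent_le hm1
      rw [hs, hκ]
      push_cast
      linarith
    have e3 : 0 < (m ^ (1 - κ / 2)) ^ 2 := by positivity
    nlinarith
  have hsum : m ≤ C * (12 * m ^ (1 - κ / 2)) := by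
    refine key.trans (mul_le_mul_of_nonneg_left ?_ hC.le)
    linarith
  have hm' : m = m ^ (κ / 2) * m ^ (1 - κ / 2) := by
    rw [← Real.rpow_add hmpos]
    ring_nf
    rw [Real.rpow_one]
  have hpos : 0 < m ^ (1 - κ / 2) := by positivity
  have h3 : 12 * C * m ^ (1 - κ / 2) < m ^ (κ / 2) * m ^ (1 - κ / 2) :=
    mul_lt_mul_of_pos_right h12 hpos
  rw [← hm'] at h3
  linarith

/-- Large total weight, topologically ordered. -/
theorem large_tri (η : ℝ) (hη0 : 0 < η) (hη1 : η ≤ 1 / 200) :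
    ∃ m1 : ℝ, ∀ (n : ℕ) (w : Fin n → Fin n → ℝ), Simple w → (∀ i j, w i j ≠ 0 → i < j) →
      m1 ≤ total w → total w / 4 + 1 / 160 * total w ^ (5 / 7 - 2 * η) ≤ mac w := by
  obtain ⟨m0, hm0⟩ := no_data η hη0 hη1
  set k : ℕ := ⌈2 / η⌉₊ + 1 with hk
  set c : ℝ := 120 * ((2 * k).factorial : ℝ) with hc
  obtain ⟨m1, hm1⟩ := eventually_atTop.1 ((eventually_ge_atTop (2 * c)).and
    ((eventually_ge_atTop m0).and (eventually_ge_atTop (1 : ℝ))))
  refine ⟨m1, fun n w hw htri hm => ?_⟩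
  set m := total w with hmdef
  obtain ⟨h2c, hmm0, h1⟩ := hm1 m hm
  have hmpos : 0 < m := by linarith
  by_contra hcon
  push Not at hcon
  set s : ℝ := 5 / 7 - η with hs
  have hT : 1 ≤ m ^ (η / 2) := Real.one_le_rpow h1 (by positivity)
  obtain ⟨t, ht⟩ := data_of_cut w hw htri (m ^ (η / 2)) hT k (by omega) (m ^ s) (by
    rw [← hmdef]
    have e1 : (m ^ (η / 2)) ^ 2 = m ^ η := by
      rw [← Real.rpow_natCast, ← Real.rpow_mul hmpos.le]
      congr 1
      push_cast
      ring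
    have e2 : m ^ 2 ≤ (m ^ (η / 2)) ^ (2 * k - 2) := by
      rw [← Real.rpow_natCast (m ^ (η / 2)), ← Real.rpow_mul hmpos.le, ← Real.rpow_natCast m 2]
      apply Real.rpow_le_rpow_of_exponent_le h1
      have h3 : 2 / η ≤ (⌈2 / η⌉₊ : ℝ) := Nat.le_ceil _
      have h4 : ((2 * k - 2 : ℕ) : ℝ) = 2 * (⌈2 / η⌉₊ : ℝ) := by
        have : 2 * k - 2 = 2 * ⌈2 / η⌉₊ := by omega
        rw [this]
        push_cast
        ring
      rw [h4]
      rw [div_le_iff₀ hη0] at h3
      push_cast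
      linarith
    have e3 : 4 * mac w - m ≤ 1 / 40 * m ^ (5 / 7 - 2 * η) := by linarith
    have e4 : m ^ η * (4 * mac w - m) ≤ 1 / 40 * m ^ s := by
      calc m ^ η * (4 * mac w - m) ≤ m ^ η * (1 / 40 * m ^ (5 / 7 - 2 * η)) :=
            mul_le_mul_of_nonneg_left e3 (by positivity)
        _ = 1 / 40 * (m ^ η * m ^ (5 / 7 - 2 * η)) := by ring
        _ = 1 / 40 * m ^ s := by
            rw [← Real.rpow_add hmpos]
            congr 2
            rw [hs]
            ring
    have e5 : 8 * ((2 * k).factorial : ℝ) / (m ^ (η / 2)) ^ (2 * k - 2) * (3 * m) ≤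
        8 * ((2 * k).factorial : ℝ) / m ^ 2 * (3 * m) := by
      gcongr
    have e6 : 8 * ((2 * k).factorial : ℝ) / m ^ 2 * (3 * m) = c / 5 / m := by
      rw [hc]
      field_simp
      ring
    have e7 : c / m ≤ 1 / 2 := by
      rw [div_le_iff₀ hmpos]
      linarith
    have e8 : 1 ≤ m ^ s := Real.one_le_rpow h1 (by rw [hs]; linarith)
    rw [e1]
    have e9 : c / 5 / m = c / m / 5 := by ring
    rw [e6, e9] at e5
    linarith)
  exact hm0 m hmm0 _ t ht

/-- Every exponent below `5/7` is good for simple digraphs. -/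
theorem simple_lower {α : ℝ} (h0 : 0 < α) (h1 : α < 5 / 7) : α ∈ goodExponents @Simple := by
  classical
  set η : ℝ := min ((5 / 7 - α) / 2) (1 / 200) with hη
  have hη0 : 0 < η := lt_min (by linarith) (by norm_num)
  have hη1 : η ≤ 1 / 200 := min_le_right _ _
  have hη2 : η ≤ (5 / 7 - α) / 2 := min_le_left _ _
  obtain ⟨m1, hm1⟩ := large_tri η hη0 hη1
  obtain ⟨k0, hk0, hlow⟩ := lower_bound
  set M : ℝ := max m1 1 with hM
  have hM1 : 1 ≤ M := le_max_right _ _
  have hMα : 0 < M ^ α := by positivity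
  refine ⟨h0, min (1 / 160) (k0 / M ^ α), lt_min (by norm_num) (by positivity), ?_⟩
  intro n w hw hac
  have hW := simple_weighted w hw
  have hnn : ∀ u v, 0 ≤ w u v := fun u v => by
    rcases hW u v with h | h
    · rw [h]
    · linarith
  have h3 : total w = 0 ∨ 1 ≤ total w := by
    by_cases hz : ∀ u v, w u v = 0
    · left; unfold total; simp [hz]
    · right
      push Not at hz
      obtain ⟨u, v, huv⟩ := hz
      have h4 : 1 ≤ w u v := (hW u v).resolve_left huv
      refine h4.trans ?_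
      unfold total
      refine le_trans ?_ (Finset.single_le_sum (f := fun u => ∑ v, w u v)
        (fun i _ => Finset.sum_nonneg fun j _ => hnn i j) (Finset.mem_univ u))
      exact Finset.single_le_sum (f := fun v => w u v) (fun j _ => hnn u j) (Finset.mem_univ v)
  rcases h3 with h3 | h3
  · rw [h3, Real.zero_rpow h0.ne']
    have := dicut_le_mac w ∅
    simp only [dicut, Finset.sum_empty] at this
    linarith
  have hmpos : 0 < total w := by linarith
  by_cases hbig : m1 ≤ total w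
  · -- relabel
    obtain ⟨e, he⟩ := Lower.exists_topological w hac
    set w' : Fin n → Fin n → ℝ := fun a b => w (e.symm a) (e.symm b) with hw'
    have h2 : total w' = total w := by
      simp only [total, hw']
      rw [Equiv.sum_comp e.symm (fun a => ∑ b, w a (e.symm b))]
      refine Finset.sum_congr rfl fun a _ => ?_
      exact Equiv.sum_comp e.symm (fun b => w a b)
    have h5 : mac w' ≤ mac w := by
      refine mac_le fun X => ?_
      refine le_trans (le_of_eq ?_) (dicut_le_mac w (X.map e.symm.toEmbedding))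
      rw [dicut, dicut, Finset.sum_map]
      refine Finset.sum_congr rfl fun a _ => ?_
      have h4 : (X.map e.symm.toEmbedding)ᶜ = Xᶜ.map e.symm.toEmbedding := by
        ext b
        simp
      rw [h4, Finset.sum_map]
      rfl
    have h6 := hm1 n w' (fun a b => hw _ _) (fun a b hab => by
      have := he _ _ hab
      simpa using this) (by rw [h2]; exact hbig)
    rw [h2] at h6
    have h7 : total w ^ α ≤ total w ^ (5 / 7 - 2 * η) :=
      Real.rpow_le_rpow_of_exponent_le h3 (by linarith)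
    have h8 : min (1 / 160) (k0 / M ^ α) * total w ^ α ≤
        1 / 160 * total w ^ (5 / 7 - 2 * η) := by
      apply mul_le_mul (min_le_left _ _) h7 (by positivity) (by norm_num)
    linarith
  · push Not at hbig
    have h6 := hlow n w hW hac
    have h7 : total w ^ α ≤ M ^ α :=
      Real.rpow_le_rpow hmpos.le (hbig.le.trans (le_max_left _ _)) h0.le
    have h8 : 1 ≤ total w ^ (3 / 5 : ℝ) := Real.one_le_rpow h3 (by norm_num)
    have h9 : min (1 / 160) (k0 / M ^ α) * total w ^ α ≤ k0 := by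
      calc min (1 / 160) (k0 / M ^ α) * total w ^ α ≤ k0 / M ^ α * M ^ α :=
            mul_le_mul (min_le_right _ _) h7 (by positivity) (by positivity)
        _ = k0 := by field_simp
    have h10 : k0 ≤ k0 * total w ^ (3 / 5 : ℝ) := by nlinarith
    linarith

theorem alpha0_simple : alpha0 @Simple = 5 / 7 := by
  unfold alpha0
  apply le_antisymm
  · exact csSup_le ⟨3 / 5, simple_lower (by norm_num) (by norm_num)⟩ fun α h => simple_le h
  · apply le_of_forall_lt
    intro c hc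
    have h1 : max c 0 < 5 / 7 := max_lt hc (by norm_num)
    obtain ⟨d, hd1, hd2⟩ := exists_between h1
    have h2 : d ∈ goodExponents @Simple := simple_lower ((le_max_right _ _).trans_lt hd1) hd2
    exact ((le_max_left _ _).trans_lt hd1).trans_le (le_csSup ⟨5 / 7, fun α h => simple_le h⟩ h2)

end Pool.Agent.Lib.MP_7cecc1_co.SL
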