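import Mathlib
import Pool.Agent.Lib.MP_7cecc1_co.SL.Basic

/-! The multiscale partition of `Z` into intervals of equal weight. -/

set_option autoImplicit false

namespace Pool.Agent.Lib.MP_7cecc1_co.SL

open Finset

/-- cumulative weight of `Z` before `v` -/
noncomputable def cum {V : Type*} [Fintype V] [LinearOrder V] (t : V → ℝ) (Z : Finset V) (v : V) :
    ℝ := ∑ u ∈ Z with u < v, t u

/-- block index at scale `k` -/
noncomputable def beta {V : Type*} [Fintype V] [LinearOrder V] (t : V → ℝ) (Z : Finset V)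
    (c0 : ℝ) (L : ℕ) (k : ℕ) (v : V) : ℕ := ⌊cum t Z v * (L : ℝ) ^ k / c0⌋₊

lemma cum_mono {V : Type*} [Fintype V] [LinearOrder V] (t : V → ℝ) (ht : ∀ v, 0 ≤ t v)
    (Z : Finset V) : Monotone (cum t Z) := by
  intro v w hvw
  refine Finset.sum_le_sum_of_subset_of_nonneg (fun u hu => ?_) (fun u _ _ => ht u)
  rw [Finset.mem_filter] at hu ⊢
  exact ⟨hu.1, hu.2.trans_le hvw⟩

lemma cum_nonneg {V : Type*} [Fintype V] [LinearOrder V] (t : V → ℝ) (ht : ∀ v, 0 ≤ t v)
    (Z : Finset V) (v : V) : 0 ≤ cum t Z v := Finset.sum_nonneg fun u _ => ht u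

theorem beta_mono {V : Type*} [Fintype V] [LinearOrder V] (t : V → ℝ) (ht : ∀ v, 0 ≤ t v)
    (Z : Finset V) (c0 : ℝ) (hc0 : 0 < c0) (L k : ℕ) : Monotone (beta t Z c0 L k) := by
  intro v w hvw
  apply Nat.floor_le_floor
  have := cum_mono t ht Z hvw
  gcongr

theorem beta_succ {V : Type*} [Fintype V] [LinearOrder V] (t : V → ℝ) (ht : ∀ v, 0 ≤ t v)
    (Z : Finset V) (c0 : ℝ) (hc0 : 0 < c0) (L : ℕ) (hL : 0 < L) (k : ℕ) (v : V) :
    beta t Z c0 L k v = beta t Z c0 L (k + 1) v / L := by
  unfold beta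
  rw [← Nat.floor_div_natCast]
  congr 1
  have _h := ht v
  have _h' := hc0
  have hL' : (L : ℝ) ≠ 0 := by exact_mod_cast hL.ne'
  rw [pow_succ]
  field_simp

/-- every block is light -/
theorem beta_block {V : Type*} [Fintype V] [LinearOrder V] (t : V → ℝ) (ht : ∀ v, 0 ≤ t v)
    (Z : Finset V) (c0 : ℝ) (hc0 : 0 < c0) (L : ℕ) (hL : 0 < L) (k : ℕ) (τ : ℝ) (hτ0 : 0 ≤ τ)
    (hτ : ∀ v ∈ Z, t v ≤ τ) (j : ℕ) :
    ∑ v ∈ Z with beta t Z c0 L k v = j, t v ≤ c0 / (L : ℝ) ^ k + τ := by
  have hLk : (0 : ℝ) < (L : ℝ) ^ k := by positivity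
  rcases (Z.filter (fun v => beta t Z c0 L k v = j)).eq_empty_or_nonempty with he | hne
  · rw [he, Finset.sum_empty]
    positivity
  set B := Z.filter (fun v => beta t Z c0 L k v = j) with hB
  set a := B.min' hne with ha
  set b := B.max' hne with hb
  have haB : a ∈ B := B.min'_mem hne
  have hbB : b ∈ B := B.max'_mem hne
  have hab : a ≤ b := B.min'_le b hbB
  rw [hB, Finset.mem_filter] at haB hbB
  -- the part of `Z` below `b` and not below `a`
  have h1 : ∑ v ∈ B.erase b, t v ≤ cum t Z b - cum t Z a := by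
    have h2 : cum t Z b = cum t Z a + ∑ u ∈ Z with (a ≤ u ∧ u < b), t u := by
      unfold cum
      rw [← Finset.sum_union]
      · congr 1
        ext u
        simp only [Finset.mem_union, Finset.mem_filter]
        constructor
        · rintro ⟨hu, hub⟩
          rcases lt_or_ge u a with h | h
          · exact Or.inl ⟨hu, h⟩
          · exact Or.inr ⟨hu, h, hub⟩
        · rintro (⟨hu, hua⟩ | ⟨hu, _, hub⟩)
          · exact ⟨hu, hua.trans_le hab⟩
          · exact ⟨hu, hub⟩
      · rw [Finset.disjoint_left]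
        intro u hu hu'
        rw [Finset.mem_filter] at hu hu'
        exact absurd hu.2 (not_lt.2 hu'.2.1)
    rw [h2, add_sub_cancel_left]
    refine Finset.sum_le_sum_of_subset_of_nonneg (fun u hu => ?_) (fun u _ _ => ht u)
    rw [Finset.mem_erase] at hu
    rw [Finset.mem_filter]
    have huZ : u ∈ Z := (Finset.mem_filter.1 (hB ▸ hu.2)).1
    exact ⟨huZ, B.min'_le u hu.2, lt_of_le_of_ne (B.le_max' u hu.2) hu.1⟩
  have h3 : ∑ v ∈ B, t v = ∑ v ∈ B.erase b, t v + t b :=
    (Finset.sum_erase_add _ _ (B.max'_mem hne)).symm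
  have h4 : t b ≤ τ := hτ b hbB.1
  have h5 : (j : ℝ) ≤ cum t Z a * (L : ℝ) ^ k / c0 := by
    have h6 := haB.2
    have h7 : 0 ≤ cum t Z a * (L : ℝ) ^ k / c0 := by
      have := cum_nonneg t ht Z a
      positivity
    rw [← h6]
    exact Nat.floor_le h7
  have h6 : cum t Z b * (L : ℝ) ^ k / c0 < j + 1 := by
    have h7 := hbB.2
    rw [← h7]
    exact Nat.lt_floor_add_one _
  have h7 : (cum t Z b - cum t Z a) * (L : ℝ) ^ k / c0 < 1 := by
    rw [sub_mul, sub_div]
    linarith
  have h8 : cum t Z b - cum t Z a < c0 / (L : ℝ) ^ k := by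
    rw [lt_div_iff₀ hLk]
    rwa [div_lt_one hc0] at h7
  rw [h3]
  linarith

lemma sg_anti {α : Type*} [LinearOrder α] (a b : α) : sg a b = -sg b a := by
  unfold sg
  rcases lt_trichotomy a b with h | h | h
  · simp [h, not_lt_of_gt h]
  · simp [h]
  · simp [h, not_lt_of_gt h]

/-- the cut of an initial segment -/
lemma prefix_cut {V : Type*} [Fintype V] [LinearOrder V] (A : V → V → ℝ) (hA : Adj A)
    (p : V → Prop) [DecidablePred p] (hp : ∀ v w, p v → ¬ p w → v < w) :
    ∑ v, ∑ w, (if p v ∧ ¬ p w then A v w else 0) =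
      ∑ v, (if p v then 1 else 0) * ∑ w, A v w * sg v w := by
  have h1 : ∑ v, ∑ w, (if p v ∧ p w then A v w * sg v w else 0) = 0 := by
    have h2 : ∑ v, ∑ w, (if p v ∧ p w then A v w * sg v w else 0) =
        - ∑ v, ∑ w, (if p v ∧ p w then A v w * sg v w else 0) := by
      calc ∑ v, ∑ w, (if p v ∧ p w then A v w * sg v w else 0)
          = ∑ w, ∑ v, (if p v ∧ p w then A v w * sg v w else 0) := Finset.sum_comm
        _ = ∑ w, ∑ v, -(if p w ∧ p v then A w v * sg w v else 0) := by
            refine Finset.sum_congr rfl fun w _ => Finset.sum_congr rfl fun v _ => ?_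
            by_cases h : p v ∧ p w
            · rw [if_pos h, if_pos h.symm, hA.symm v w, sg_anti v w]
              ring
            · rw [if_neg h, if_neg (fun h' => h h'.symm)]
              simp
        _ = _ := by simp only [Finset.sum_neg_distrib]
    linarith
  have h3 : ∑ v, (if p v then (1 : ℝ) else 0) * ∑ w, A v w * sg v w =
      ∑ v, ∑ w, (if p v ∧ ¬ p w then A v w else 0) +
        ∑ v, ∑ w, (if p v ∧ p w then A v w * sg v w else 0) := by
    rw [← Finset.sum_add_distrib]
    refine Finset.sum_congr rfl fun v _ => ?_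
    rw [← Finset.sum_add_distrib, Finset.mul_sum]
    refine Finset.sum_congr rfl fun w _ => ?_
    by_cases hv : p v
    · by_cases hw : p w
      · simp [hv, hw]
      · have : sg v w = 1 := by
          unfold sg
          rw [if_pos (hp v w hv hw)]
        simp [hv, hw, this]
    · simp [hv]
  rw [h3, h1, add_zero]

/-- few pairs are split at scale 0. `E0` bounds all prefix cuts. -/
theorem beta_zero_split {V : Type*} [Fintype V] [LinearOrder V] (A : V → V → ℝ) (hA : Adj A)
    (t : V → ℝ) (ht : ∀ v, 0 ≤ t v) (S E0 : ℝ) (hS : ∑ v, t v ≤ S)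
    (hE0 : ∀ c : V → ℝ, (∀ v, |c v| ≤ 1) → |∑ v, c v * ∑ w, A v w * sg v w| ≤ E0)
    (Z : Finset V) (c0 : ℝ) (hc0 : 0 < c0) (L : ℕ) :
    ∑ v ∈ Z, ∑ w ∈ Z, (if beta t Z c0 L 0 v = beta t Z c0 L 0 w then 0 else A v w) ≤
      2 * (S / c0 * E0) := by
  set β := beta t Z c0 L 0 with hβ
  have hβm : Monotone β := beta_mono t ht Z c0 hc0 L 0
  have hAnn : ∀ v w, 0 ≤ A v w := fun v w => by
    rcases hA.zero_one v w with h | h <;> rw [h] <;> norm_num
  have hE0' : 0 ≤ E0 := by
    have := hE0 (fun _ => 0) (fun v => by simp)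
    exact (abs_nonneg _).trans this
  have hS0 : 0 ≤ S := (Finset.sum_nonneg fun v _ => ht v).trans hS
  set J : ℕ := ⌊S / c0⌋₊ with hJ
  have hJle : (J : ℝ) ≤ S / c0 := Nat.floor_le (by positivity)
  have hβJ : ∀ v, β v ≤ J := by
    intro v
    rw [hβ, hJ]
    unfold beta
    apply Nat.floor_le_floor
    rw [pow_zero, mul_one]
    have h1 : cum t Z v ≤ S := by
      refine le_trans ?_ hS
      exact Finset.sum_le_sum_of_subset_of_nonneg (Finset.subset_univ _) (fun u _ _ => ht u)
    gcongr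
  -- one boundary
  have hcut : ∀ j : ℕ, ∑ v, ∑ w, (if β v < j ∧ ¬ β w < j then A v w else 0) ≤ E0 := by
    intro j
    rw [prefix_cut A hA (fun v => β v < j) (fun v w hv hw => by
      by_contra hcon
      exact hw (lt_of_le_of_lt (hβm (not_lt.1 hcon)) hv))]
    refine (le_abs_self _).trans (hE0 (fun v => if β v < j then 1 else 0) fun v => ?_)
    by_cases h : β v < j <;> simp [h]
  -- ordered pairs
  have hord : ∑ v ∈ Z, ∑ w ∈ Z, (if β v < β w then A v w else 0) ≤ S / c0 * E0 := by
    calc ∑ v ∈ Z, ∑ w ∈ Z, (if β v < β w then A v w else 0)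
        ≤ ∑ v ∈ Z, ∑ w ∈ Z, ∑ j ∈ Finset.Icc 1 J, (if β v < j ∧ ¬ β w < j then A v w else 0) := by
          refine Finset.sum_le_sum fun v _ => Finset.sum_le_sum fun w _ => ?_
          by_cases h : β v < β w
          · rw [if_pos h]
            have h1 : β w ∈ Finset.Icc 1 J := by
              rw [Finset.mem_Icc]
              exact ⟨by omega, hβJ w⟩
            refine le_trans ?_ (Finset.single_le_sum (f := fun j =>
              (if β v < j ∧ ¬ β w < j then A v w else 0)) (fun j _ => ?_) h1)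
            · rw [if_pos ⟨h, lt_irrefl _⟩]
            · split_ifs
              · exact hAnn v w
              · exact le_rfl
          · rw [if_neg h]
            refine Finset.sum_nonneg fun j _ => ?_
            split_ifs
            · exact hAnn v w
            · exact le_rfl
      _ ≤ ∑ v, ∑ w, ∑ j ∈ Finset.Icc 1 J, (if β v < j ∧ ¬ β w < j then A v w else 0) := by
          have hnn : ∀ v w, 0 ≤ ∑ j ∈ Finset.Icc 1 J,
              (if β v < j ∧ ¬ β w < j then A v w else 0) := fun v w =>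
            Finset.sum_nonneg fun j _ => by
              split_ifs
              · exact hAnn v w
              · exact le_rfl
          calc _ ≤ ∑ v ∈ Z, ∑ w, ∑ j ∈ Finset.Icc 1 J,
                (if β v < j ∧ ¬ β w < j then A v w else 0) :=
                Finset.sum_le_sum fun v _ =>
                  Finset.sum_le_sum_of_subset_of_nonneg (Finset.subset_univ _)
                    (fun w _ _ => hnn v w)
            _ ≤ _ := Finset.sum_le_sum_of_subset_of_nonneg (Finset.subset_univ _)
                (fun v _ _ => Finset.sum_nonneg fun w _ => hnn v w)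
      _ = ∑ j ∈ Finset.Icc 1 J, ∑ v, ∑ w, (if β v < j ∧ ¬ β w < j then A v w else 0) := by
          rw [Finset.sum_congr rfl fun v _ => Finset.sum_comm]
          rw [Finset.sum_comm]
      _ ≤ ∑ _j ∈ Finset.Icc 1 J, E0 := Finset.sum_le_sum fun j _ => hcut j
      _ = J * E0 := by
          rw [Finset.sum_const, Nat.card_Icc, Nat.add_sub_cancel, nsmul_eq_mul]
      _ ≤ S / c0 * E0 := by gcongr
  have hsplit : ∑ v ∈ Z, ∑ w ∈ Z, (if β v = β w then 0 else A v w) =
      ∑ v ∈ Z, ∑ w ∈ Z, (if β v < β w then A v w else 0) +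
        ∑ v ∈ Z, ∑ w ∈ Z, (if β w < β v then A v w else 0) := by
    rw [← Finset.sum_add_distrib]
    refine Finset.sum_congr rfl fun v _ => ?_
    rw [← Finset.sum_add_distrib]
    refine Finset.sum_congr rfl fun w _ => ?_
    rcases lt_trichotomy (β v) (β w) with h | h | h
    · rw [if_neg h.ne, if_pos h, if_neg (not_lt_of_gt h), add_zero]
    · simp [h]
    · rw [if_neg h.ne', if_neg (not_lt_of_gt h), if_pos h, zero_add]
  have hswap : ∑ v ∈ Z, ∑ w ∈ Z, (if β w < β v then A v w else 0) =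
      ∑ v ∈ Z, ∑ w ∈ Z, (if β v < β w then A v w else 0) := by
    rw [Finset.sum_comm]
    refine Finset.sum_congr rfl fun v _ => Finset.sum_congr rfl fun w _ => ?_
    rw [hA.symm w v]
  rw [hsplit, hswap]
  linarith

end Pool.Agent.Lib.MP_7cecc1_co.SL
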