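import Mathlib
import Pool.Agent.Lib.MP_7cecc1_co.SL.Basic

/-! Cauchy-Schwarz bound of the swap error (P4a2 of the lower bound, helper23 for helper82). -/

namespace Pool.Agent.Lib.MP_7cecc1_co.SL

open Finset

private lemma wcs {V : Type*} [Fintype V] (C X : V → V → ℝ) (hnn : ∀ v w, 0 ≤ C v w) (K : ℝ)
    (hK : ∑ v, ∑ w, C v w * X v w ^ 2 ≤ K) :
    ∑ v, ∑ w, C v w * X v w ≤ √((∑ v, ∑ w, C v w) * K) := by
  have h := Finset.sum_mul_sq_le_sq_mul_sq (univ : Finset (V × V))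
    (fun p => √(C p.1 p.2)) (fun p => √(C p.1 p.2) * X p.1 p.2)
  have e1 : ∑ p : V × V, √(C p.1 p.2) * (√(C p.1 p.2) * X p.1 p.2) =
      ∑ v, ∑ w, C v w * X v w := by
    rw [Fintype.sum_prod_type]
    refine Finset.sum_congr rfl fun v _ => Finset.sum_congr rfl fun w _ => ?_
    rw [← mul_assoc, Real.mul_self_sqrt (hnn v w)]
  have e2 : ∑ p : V × V, √(C p.1 p.2) ^ 2 = ∑ v, ∑ w, C v w := by
    rw [Fintype.sum_prod_type]
    refine Finset.sum_congr rfl fun v _ => Finset.sum_congr rfl fun w _ => ?_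
    rw [Real.sq_sqrt (hnn v w)]
  have e3 : ∑ p : V × V, (√(C p.1 p.2) * X p.1 p.2) ^ 2 = ∑ v, ∑ w, C v w * X v w ^ 2 := by
    rw [Fintype.sum_prod_type]
    refine Finset.sum_congr rfl fun v _ => Finset.sum_congr rfl fun w _ => ?_
    rw [mul_pow, Real.sq_sqrt (hnn v w)]
  rw [e1, e2, e3] at h
  have hC : 0 ≤ ∑ v, ∑ w, C v w := Finset.sum_nonneg fun v _ => Finset.sum_nonneg fun w _ => hnn v w
  exact Real.le_sqrt_of_sq_le (h.trans (mul_le_mul_of_nonneg_left hK hC))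

private lemma sg_split (r k : ℕ) :
    sg r k = (if r < k then (1 : ℝ) else 0) - (if k < r then (1 : ℝ) else 0) := by
  unfold sg
  rcases lt_trichotomy r k with h | h | h
  · rw [if_pos h, if_pos h, if_neg (by omega)]; norm_num
  · subst h; simp
  · rw [if_neg (by omega), if_pos h, if_neg (by omega), if_pos h]; norm_num

private lemma abs_quot (Nv Nw Dv Dw Ds : ℝ) (hDs : 0 < Ds) (hN : |Nw| ≤ Dw) :
    |Nv / max Dv Ds - Nw / max Dw Ds| ≤ (|Nv - Nw| + |Dv - Dw|) / Ds := by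
  have hv : Ds ≤ max Dv Ds := le_max_right _ _
  have hw : Ds ≤ max Dw Ds := le_max_right _ _
  have hv0 : 0 < max Dv Ds := lt_of_lt_of_le hDs hv
  have hw0 : 0 < max Dw Ds := lt_of_lt_of_le hDs hw
  have hM : |max Dw Ds - max Dv Ds| ≤ |Dv - Dw| := by
    rw [abs_sub_comm Dv Dw]
    have := abs_max_sub_max_le_abs Dw Dv Ds
    exact this
  have e : Nv / max Dv Ds - Nw / max Dw Ds =
      (Nv - Nw) / max Dv Ds + Nw / max Dw Ds * ((max Dw Ds - max Dv Ds) / max Dv Ds) := by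
    field_simp
    ring
  rw [e]
  have h1 : |(Nv - Nw) / max Dv Ds| ≤ |Nv - Nw| / Ds := by
    rw [abs_div, abs_of_pos hv0]
    exact div_le_div_of_nonneg_left (abs_nonneg _) hDs hv
  have h2 : |Nw / max Dw Ds * ((max Dw Ds - max Dv Ds) / max Dv Ds)| ≤ |Dv - Dw| / Ds := by
    rw [abs_mul, abs_div, abs_div, abs_of_pos hv0, abs_of_pos hw0]
    have h3 : |Nw| / max Dw Ds ≤ 1 := by
      rw [div_le_one hw0]
      exact hN.trans (le_max_left _ _)
    have h4 : |max Dw Ds - max Dv Ds| / max Dv Ds ≤ |Dv - Dw| / Ds := by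
      calc |max Dw Ds - max Dv Ds| / max Dv Ds ≤ |Dv - Dw| / max Dv Ds :=
            div_le_div_of_nonneg_right hM hv0.le
        _ ≤ |Dv - Dw| / Ds := div_le_div_of_nonneg_left (abs_nonneg _) hDs hv
    calc |Nw| / max Dw Ds * (|max Dw Ds - max Dv Ds| / max Dv Ds)
        ≤ 1 * (|Dv - Dw| / Ds) := mul_le_mul h3 h4 (by positivity) (by norm_num)
      _ = |Dv - Dw| / Ds := one_mul _
  calc |(Nv - Nw) / max Dv Ds + Nw / max Dw Ds * ((max Dw Ds - max Dv Ds) / max Dv Ds)|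
      ≤ |(Nv - Nw) / max Dv Ds| + |Nw / max Dw Ds * ((max Dw Ds - max Dv Ds) / max Dv Ds)| :=
        abs_add_le _ _
    _ ≤ |Nv - Nw| / Ds + |Dv - Dw| / Ds := add_le_add h1 h2
    _ = (|Nv - Nw| + |Dv - Dw|) / Ds := by ring

/-- P4a2. Cauchy-Schwarz bound of the swap error. -/
theorem swapErr_le {V : Type*} [Fintype V] (C : V → V → ℝ)
    (hsymm : ∀ v w, C v w = C w v) (hnn : ∀ v w, 0 ≤ C v w) (q : V → ℕ)
    (Ds : ℝ) (hDs : 0 < Ds) (H : ℝ)
    (hD : ∑ v, ∑ w, C v w * (∑ u, C v u - ∑ u, C w u) ^ 2 ≤ H)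
    (hF : ∑ v, ∑ w, C v w * (∑ u, C v u * (if q v < q u then 1 else 0) -
      ∑ u, C w u * (if q v < q u then 1 else 0)) ^ 2 ≤ H)
    (hB : ∑ v, ∑ w, C v w * (∑ u, C v u * (if q u < q v then 1 else 0) -
      ∑ u, C w u * (if q u < q v then 1 else 0)) ^ 2 ≤ H) :
    swapErr C q Ds ≤ 3 * √((∑ v, ∑ w, C v w) * H) / Ds := by
  set D : V → ℝ := fun v => ∑ u, C v u with hDdef
  set F : ℕ → V → ℝ := fun r v => ∑ u, C v u * (if r < q u then 1 else 0) with hFdef
  set B : ℕ → V → ℝ := fun r v => ∑ u, C v u * (if q u < r then 1 else 0) with hBdef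
  have hN : ∀ r v, ∑ w, C v w * sg r (q w) = F r v - B r v := by
    intro r v
    rw [hFdef, hBdef]
    simp only
    rw [← Finset.sum_sub_distrib]
    refine Finset.sum_congr rfl fun w _ => ?_
    rw [sg_split]; ring
  have hNabs : ∀ r v, |F r v - B r v| ≤ D v := by
    intro r v
    rw [← hN]
    refine (Finset.abs_sum_le_sum_abs _ _).trans ?_
    refine Finset.sum_le_sum fun w _ => ?_
    rw [abs_mul, abs_of_nonneg (hnn v w)]
    have : |sg r (q w)| ≤ 1 := by
      unfold sg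
      split_ifs <;> norm_num
    calc C v w * |sg r (q w)| ≤ C v w * 1 := mul_le_mul_of_nonneg_left this (hnn v w)
      _ = C v w := mul_one _
  set X : V → V → ℝ := fun v w => |F (q v) v - F (q v) w| + |B (q v) v - B (q v) w| + |D v - D w|
    with hX
  have hstep : swapErr C q Ds ≤ (∑ v, ∑ w, C v w * X v w) / Ds := by
    rw [Finset.sum_div]
    unfold swapErr
    refine Finset.sum_le_sum fun v _ => ?_
    rw [Finset.sum_div]
    refine Finset.sum_le_sum fun w _ => ?_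
    rw [mul_div_assoc]
    refine mul_le_mul_of_nonneg_left ?_ (hnn v w)
    unfold sigma
    rw [hN, hN]
    refine (abs_quot _ _ _ _ Ds hDs (hNabs (q v) w)).trans ?_
    refine div_le_div_of_nonneg_right ?_ hDs.le
    have : |F (q v) v - B (q v) v - (F (q v) w - B (q v) w)| ≤
        |F (q v) v - F (q v) w| + |B (q v) v - B (q v) w| := by
      have e : F (q v) v - B (q v) v - (F (q v) w - B (q v) w) =
        (F (q v) v - F (q v) w) - (B (q v) v - B (q v) w) := by ring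
      rw [e]
      exact abs_sub _ _
    have h2 : |∑ w, C v w - ∑ w', C w w'| = |D v - D w| := rfl
    rw [hX]
    simp only
    linarith
  have hX2 : ∑ v, ∑ w, C v w * X v w ^ 2 ≤ 9 * H := by
    have h1 : ∀ v w, C v w * X v w ^ 2 ≤ 3 * (C v w * (F (q v) v - F (q v) w) ^ 2) +
        3 * (C v w * (B (q v) v - B (q v) w) ^ 2) + 3 * (C v w * (D v - D w) ^ 2) := by
      intro v w
      have h2 : X v w ^ 2 ≤ 3 * ((F (q v) v - F (q v) w) ^ 2 + (B (q v) v - B (q v) w) ^ 2 +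
          (D v - D w) ^ 2) := by
        rw [hX]
        simp only
        rw [← sq_abs (F (q v) v - F (q v) w), ← sq_abs (B (q v) v - B (q v) w),
          ← sq_abs (D v - D w)]
        nlinarith [sq_nonneg (|F (q v) v - F (q v) w| - |B (q v) v - B (q v) w|),
          sq_nonneg (|F (q v) v - F (q v) w| - |D v - D w|),
          sq_nonneg (|B (q v) v - B (q v) w| - |D v - D w|)]
      have := mul_le_mul_of_nonneg_left h2 (hnn v w)
      linarith
    calc ∑ v, ∑ w, C v w * X v w ^ 2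
        ≤ ∑ v, ∑ w, (3 * (C v w * (F (q v) v - F (q v) w) ^ 2) +
          3 * (C v w * (B (q v) v - B (q v) w) ^ 2) + 3 * (C v w * (D v - D w) ^ 2)) :=
          Finset.sum_le_sum fun v _ => Finset.sum_le_sum fun w _ => h1 v w
      _ = 3 * (∑ v, ∑ w, C v w * (F (q v) v - F (q v) w) ^ 2) +
          3 * (∑ v, ∑ w, C v w * (B (q v) v - B (q v) w) ^ 2) +
          3 * (∑ v, ∑ w, C v w * (D v - D w) ^ 2) := by
          simp only [Finset.sum_add_distrib, Finset.mul_sum]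
      _ ≤ 3 * H + 3 * H + 3 * H := by
          have a1 : ∑ v, ∑ w, C v w * (F (q v) v - F (q v) w) ^ 2 ≤ H := hF
          have a2 : ∑ v, ∑ w, C v w * (B (q v) v - B (q v) w) ^ 2 ≤ H := hB
          have a3 : ∑ v, ∑ w, C v w * (D v - D w) ^ 2 ≤ H := hD
          linarith
      _ = 9 * H := by ring
  have hfin := wcs C X hnn (9 * H) hX2
  refine hstep.trans (div_le_div_of_nonneg_right (hfin.trans ?_) hDs.le)
  have e : (∑ v, ∑ w, C v w) * (9 * H) = 3 ^ 2 * ((∑ v, ∑ w, C v w) * H) := by ring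
  rw [e, Real.sqrt_mul (by norm_num), Real.sqrt_sq (by norm_num)]

end Pool.Agent.Lib.MP_7cecc1_co.SL
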