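import Pool.Agent.Lib.MP_7cecc1_co.SL.Window
import Pool.Agent.Lib.MP_7cecc1_co.SL.SwapErr
import Pool.Agent.Lib.MP_7cecc1_co.SL.BlockErr
import Pool.Agent.Lib.MP_7cecc1_co.SL.Scale

/-! The level lemma for the lower bound `α₀(S) ≥ 5/7` of MP_7cecc1_co. -/

namespace Pool.Agent.Lib.MP_7cecc1_co.SL

open Finset

theorem Adj.nonneg {V : Type*} {A : V → V → ℝ} (hA : Adj A) (u v : V) : 0 ≤ A u v := by
  rcases hA.zero_one u v with h | h <;> rw [h]
  exact zero_le_one

theorem Adj.le_one {V : Type*} {A : V → V → ℝ} (hA : Adj A) (u v : V) : A u v ≤ 1 := by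
  rcases hA.zero_one u v with h | h <;> rw [h]
  exact zero_le_one

theorem blk_nonneg' {V : Type*} [DecidableEq V] {A : V → V → ℝ} (hA : Adj A) (Z : Finset V)
    (β : V → ℕ) (v w : V) : 0 ≤ blk A Z β v w := by
  unfold blk
  split_ifs
  · exact hA.nonneg v w
  · exact le_rfl

theorem blk_le' {V : Type*} [DecidableEq V] {A : V → V → ℝ} (hA : Adj A) (Z : Finset V)
    (β : V → ℕ) (v w : V) : blk A Z β v w ≤ A v w := by
  unfold blk
  split_ifs
  · exact le_rfl
  · exact hA.nonneg v w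

theorem blk_symm' {V : Type*} [DecidableEq V] {A : V → V → ℝ} (hA : Adj A) (Z : Finset V)
    (β : V → ℕ) (v w : V) : blk A Z β v w = blk A Z β w v := by
  unfold blk
  rw [hA.symm v w]
  by_cases h : v ∈ Z ∧ w ∈ Z ∧ β v = β w
  · rw [if_pos h, if_pos ⟨h.2.1, h.1, h.2.2.symm⟩]
  · rw [if_neg h, if_neg fun h' => h ⟨h'.2.1, h'.1, h'.2.2.symm⟩]

/-- going down along the scales -/
theorem descend (d : ℕ → ℝ) (Ds : ℝ) (hDs : 0 < Ds) (hanti : ∀ k, d (k + 1) ≤ d k)
    (hnn : ∀ k, 0 ≤ d k) (K : ℕ) :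
    d 0 - max (d K) (Ds / 2) ≤
      2 * ∑ k ∈ range K, min 1 (d k / Ds) * (d k - d (k + 1)) := by
  induction K with
  | zero =>
    simp only [range_zero, sum_empty, mul_zero]
    linarith [le_max_left (d 0) (Ds / 2)]
  | succ K ih =>
    rw [sum_range_succ, mul_add]
    have hstep : max (d K) (Ds / 2) - max (d (K + 1)) (Ds / 2) ≤
        2 * (min 1 (d K / Ds) * (d K - d (K + 1))) := by
      have h0 : 0 ≤ d K - d (K + 1) := sub_nonneg.2 (hanti K)
      have h1 : 0 ≤ min 1 (d K / Ds) := le_min zero_le_one (div_nonneg (hnn K) hDs.le)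
      rcases le_or_gt (d K) (Ds / 2) with h | h
      · rw [max_eq_right h, max_eq_right ((hanti K).trans h), sub_self]
        positivity
      · have h2 : 1 / 2 ≤ min 1 (d K / Ds) := by
          refine le_min (by norm_num) ?_
          rw [le_div_iff₀ hDs]
          linarith
        rw [max_eq_left h.le]
        have h3 : d (K + 1) ≤ max (d (K + 1)) (Ds / 2) := le_max_left _ _
        nlinarith
    linarith

/-- geometric growth of the potential -/
theorem geom (Φ : ℕ → ℝ) (e : ℝ) (h : ∀ k, Φ (k + 1) ≤ 4 * Φ k + e) (K : ℕ) :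
    ∑ k ∈ range K, (Φ k + e / 3) ≤ (4 ^ K - 1) / 3 * (Φ 0 + e / 3) := by
  have h1 : ∀ k, Φ k + e / 3 ≤ 4 ^ k * (Φ 0 + e / 3) := by
    intro k
    induction k with
    | zero => simp
    | succ k ih =>
      rw [pow_succ]
      linarith [h k]
  have h2 : ∑ k ∈ range K, (4 : ℝ) ^ k = (4 ^ K - 1) / 3 := by
    rw [geom_sum_eq (by norm_num)]
    norm_num
  calc ∑ k ∈ range K, (Φ k + e / 3) ≤ ∑ k ∈ range K, 4 ^ k * (Φ 0 + e / 3) :=
        sum_le_sum fun k _ => h1 k
    _ = (4 ^ K - 1) / 3 * (Φ 0 + e / 3) := by rw [← sum_mul, h2]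

theorem abs_sigma_le {V : Type*} [Fintype V] (C : V → V → ℝ) (hnn : ∀ v w, 0 ≤ C v w)
    (q : V → ℕ) (Ds : ℝ) (hDs : 0 < Ds) (v : V) (r : ℕ) :
    |sigma C q Ds v r| ≤ min 1 ((∑ w, C v w) / Ds) := by
  unfold sigma
  have hD : 0 ≤ ∑ w, C v w := sum_nonneg fun w _ => hnn v w
  have hmax : 0 < max (∑ w, C v w) Ds := lt_max_of_lt_right hDs
  have hnum : |∑ w, C v w * sg r (q w)| ≤ ∑ w, C v w := by
    refine (abs_sum_le_sum_abs _ _).trans (sum_le_sum fun w _ => ?_)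
    rw [abs_mul, abs_of_nonneg (hnn v w)]
    refine mul_le_of_le_one_right (hnn v w) ?_
    unfold sg
    split_ifs <;> simp
  rw [abs_div, abs_of_pos hmax]
  refine le_min ?_ ?_
  · rw [div_le_one hmax]
    exact hnum.trans (le_max_left _ _)
  · exact div_le_div₀ hD hnum hDs (le_max_right _ _)

/-- the bound of the swap error at one scale -/
theorem swapErr_scale {V : Type*} [Fintype V] [LinearOrder V] (A : V → V → ℝ) (t : V → ℝ)
    (m S : ℝ) (hd : Data A t m S) (Z : Finset V) (Δ τ Ds c0 : ℝ) (L : ℕ) (hL : 0 < L)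
    (hDs : 0 < Ds) (hc0 : 0 < c0)
    (hreg : ∀ W Y : Finset V, W ⊆ Z → Y ⊆ W →
      ∑ v ∈ W, ∑ w ∈ W, A v w * (∑ y ∈ Y, A v y - ∑ y ∈ Y, A w y) ^ 2 ≤
      36 * Δ * τ * √(∑ v ∈ W, t v) * (∑ v ∈ W, ∑ w ∈ W, A v w + τ * ∑ v ∈ W, t v))
    (htZ : ∀ v ∈ Z, t v ≤ τ) (hτ0 : 0 ≤ τ) (hτΔ : τ ≤ Δ)
    (hτc : τ ≤ c0) (hτm : τ * S ≤ m) (k : ℕ) :
    swapErr (blk A Z (beta t Z c0 L k)) (beta t Z c0 L (k + 1)) Ds ≤
      53 * m * √(L * Δ * τ * √c0) / Ds := by
  have ht0 : ∀ v, 0 ≤ t v := fun v => zero_le_one.trans (hd.t_one v)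
  have hm0 : 0 ≤ m := by
    have : 0 ≤ ∑ u, ∑ v, A u v := sum_nonneg fun u _ => sum_nonneg fun v _ => hd.adj.nonneg u v
    rw [hd.edges] at this
    linarith
  have hΔ0 : 0 ≤ Δ := hτ0.trans hτΔ
  have hbe : beta t Z c0 L k = fun v => beta t Z c0 L (k + 1) v / L := by
    funext v
    exact beta_succ t ht0 Z c0 hc0 L hL k v
  have hT : ∀ j, ∑ v ∈ Z with beta t Z c0 L (k + 1) v / L = j, t v ≤ 2 * c0 := by
    intro j
    have h1 := beta_block t ht0 Z c0 hc0 L hL k τ hτ0 htZ j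
    rw [hbe] at h1
    refine h1.trans ?_
    have h2 : c0 / (L : ℝ) ^ k ≤ c0 := by
      apply div_le_self hc0.le
      exact one_le_pow₀ (by exact_mod_cast hL)
    linarith
  have hbl := fun (P : ℕ → V → Prop) (hP : ∀ r u, Decidable (P r u)) =>
    @block_err_of V _ _ A hd.adj t hd.t_one m S hd.edges hd.t_sum Z τ Δ (2 * c0) hτ0 hτΔ
      hreg L hL (beta t Z c0 L (k + 1)) hT P hP
  set H : ℝ := L * (36 * Δ * τ * √(2 * c0) * (2 * m + τ * S)) with hH
  have hC2 : ∑ v, ∑ w, blk A Z (beta t Z c0 L k) v w ≤ 2 * m := by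
    rw [← hd.edges]
    exact sum_le_sum fun v _ => sum_le_sum fun w _ => blk_le' hd.adj _ _ _ _
  have hC0 : 0 ≤ ∑ v, ∑ w, blk A Z (beta t Z c0 L k) v w :=
    sum_nonneg fun v _ => sum_nonneg fun w _ => blk_nonneg' hd.adj _ _ _ _
  have hsw := swapErr_le (blk A Z (beta t Z c0 L k)) (blk_symm' hd.adj Z _)
    (blk_nonneg' hd.adj Z _) (beta t Z c0 L (k + 1)) Ds hDs H
    (by
      have h := hbl (fun _ _ => True) (fun _ _ => inferInstance)
      simp only [if_true, mul_one] at h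
      rw [← hbe] at h
      exact h)
    (by
      have h := hbl (fun r u => r < beta t Z c0 L (k + 1) u) (fun _ _ => inferInstance)
      rw [← hbe] at h
      exact h)
    (by
      have h := hbl (fun r u => beta t Z c0 L (k + 1) u < r) (fun _ _ => inferInstance)
      rw [← hbe] at h
      exact h)
  refine hsw.trans ?_
  apply div_le_div_of_nonneg_right _ hDs.le
  have hH0 : 0 ≤ H := by
    rw [hH]
    have hS0 : 0 ≤ S := (sum_nonneg fun v _ => ht0 v).trans hd.t_sum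
    positivity
  have hLr : (0 : ℝ) ≤ L := Nat.cast_nonneg L
  have hs2 : √(2 * c0) = √2 * √c0 := Real.sqrt_mul (by norm_num) _
  have hs2' : √2 ≤ 1.4143 := by
    rw [Real.sqrt_le_left (by norm_num)]
    norm_num
  have hkey : (∑ v, ∑ w, blk A Z (beta t Z c0 L k) v w) * H ≤
      (53 / 3 * m) ^ 2 * (L * Δ * τ * √c0) := by
    have h1 : H ≤ L * (36 * Δ * τ * (1.4143 * √c0) * (3 * m)) := by
      rw [hH, hs2]
      have h3 : 2 * m + τ * S ≤ 3 * m := by linarith
      have h4 : √2 * √c0 ≤ 1.4143 * √c0 := mul_le_mul_of_nonneg_right hs2' (Real.sqrt_nonneg _)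
      have h5 : 0 ≤ 2 * m + τ * S := by
        have hS0 : 0 ≤ S := (sum_nonneg fun v _ => ht0 v).trans hd.t_sum
        positivity
      gcongr
    calc (∑ v, ∑ w, blk A Z (beta t Z c0 L k) v w) * H
        ≤ (2 * m) * (L * (36 * Δ * τ * (1.4143 * √c0) * (3 * m))) := by
          apply mul_le_mul hC2 h1 hH0 (by linarith)
      _ = 305.4888 * (m ^ 2 * (L * Δ * τ * √c0)) := by ring
      _ ≤ (53 / 3) ^ 2 * (m ^ 2 * (L * Δ * τ * √c0)) := by
          apply mul_le_mul_of_nonneg_right (by norm_num)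
          positivity
      _ = (53 / 3 * m) ^ 2 * (L * Δ * τ * √c0) := by ring
  calc 3 * √((∑ v, ∑ w, blk A Z (beta t Z c0 L k) v w) * H)
      ≤ 3 * √((53 / 3 * m) ^ 2 * (L * Δ * τ * √c0)) := by
        apply mul_le_mul_of_nonneg_left (Real.sqrt_le_sqrt hkey) (by norm_num)
    _ = 3 * (53 / 3 * m * √(L * Δ * τ * √c0)) := by
        rw [Real.sqrt_mul (sq_nonneg _), Real.sqrt_sq (by positivity)]
    _ = 53 * m * √(L * Δ * τ * √c0) := by ring

/-- P4b. The level lemma; `hreg` is the conclusion of `degree_reg` in all blocks. -/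
theorem level_of {V : Type*} [Fintype V] [LinearOrder V] (A : V → V → ℝ) (t : V → ℝ) (m S : ℝ)
    (hd : Data A t m S) (E0 : ℝ)
    (hE0 : ∀ c : V → ℝ, (∀ v, |c v| ≤ 1) → |∑ v, c v * ∑ w, A v w * sg v w| ≤ E0)
    (Z : Finset V) (Δ τ Ds c0 : ℝ) (L K : ℕ) (hL : 0 < L) (hDs : 0 < Ds) (hc0 : 0 < c0)
    (hreg : ∀ W Y : Finset V, W ⊆ Z → Y ⊆ W →
      ∑ v ∈ W, ∑ w ∈ W, A v w * (∑ y ∈ Y, A v y - ∑ y ∈ Y, A w y) ^ 2 ≤
      36 * Δ * τ * √(∑ v ∈ W, t v) * (∑ v ∈ W, ∑ w ∈ W, A v w + τ * ∑ v ∈ W, t v))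
    (htZ : ∀ v ∈ Z, t v ≤ τ) (hτ0 : 0 ≤ τ) (hτΔ : τ ≤ Δ)
    (hτc : τ ≤ c0) (hτD : τ ≤ Ds / 4) (hcK : c0 / (L : ℝ) ^ K ≤ Ds / 4) (hτm : τ * S ≤ m) :
    ∑ v ∈ Z with Ds ≤ ∑ w ∈ Z, A v w, ∑ w ∈ Z, A v w ≤
      3 * 4 ^ (K + 1) * (∑ v ∈ Z, ∑ w ∈ Zᶜ, A v w + S / c0 * E0 +
        (3 * E0 + 7 / 2 * (53 * m * √(L * Δ * τ * √c0) / Ds))) := by
  have hA := hd.adj
  have ht0 : ∀ v, 0 ≤ t v := fun v => zero_le_one.trans (hd.t_one v)
  have hS0 : 0 ≤ S := (sum_nonneg fun v _ => ht0 v).trans hd.t_sum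
  have hm0 : 0 ≤ m := by
    have : 0 ≤ ∑ u, ∑ v, A u v := sum_nonneg fun u _ => sum_nonneg fun v _ => hA.nonneg u v
    rw [hd.edges] at this
    linarith
  have hΔ0 : 0 ≤ Δ := hτ0.trans hτΔ
  have hE00 : 0 ≤ E0 := by
    have := hE0 (fun _ => 0) (fun _ => by simp)
    simpa using this
  set ε : ℝ := 3 * E0 + 7 / 2 * (53 * m * √(L * Δ * τ * √c0) / Ds) with hε
  have hε0 : 0 ≤ ε := by rw [hε]; positivity
  -- notation
  let C : ℕ → V → V → ℝ := fun k => blk A Z (beta t Z c0 L k)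
  let D : ℕ → V → ℝ := fun k v => ∑ w, C k v w
  let ω : ℕ → V → ℝ := fun k v => min 1 (D k v / Ds)
  let Out : ℕ → V → ℝ := fun k v => ∑ w, A v w - D k v
  have hCnn : ∀ k v w, 0 ≤ C k v w := fun k => blk_nonneg' hA Z _
  have hCle : ∀ k v w, C k v w ≤ A v w := fun k => blk_le' hA Z _
  have hD0 : ∀ k v, 0 ≤ D k v := fun k v => sum_nonneg fun w _ => hCnn k v w
  have hω0 : ∀ k v, 0 ≤ ω k v := fun k v => le_min zero_le_one (div_nonneg (hD0 k v) hDs.le)
  have hω1 : ∀ k v, ω k v ≤ 1 := fun k v => min_le_left _ _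
  have hOut0 : ∀ k v, 0 ≤ Out k v := fun k v =>
    sub_nonneg.2 (sum_le_sum fun w _ => hCle k v w)
  have hmid : ∀ k v, ∑ w, (if beta t Z c0 L (k + 1) w = beta t Z c0 L (k + 1) v then 0
      else C k v w) = D k v - D (k + 1) v := by
    intro k v
    rw [eq_sub_iff_add_eq]
    change _ + ∑ w, C (k + 1) v w = ∑ w, C k v w
    rw [← sum_add_distrib]
    refine sum_congr rfl fun w _ => ?_
    by_cases h : beta t Z c0 L (k + 1) w = beta t Z c0 L (k + 1) v
    · rw [if_pos h, zero_add]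
      have h2 : beta t Z c0 L k v = beta t Z c0 L k w := by
        rw [beta_succ t ht0 Z c0 hc0 L hL k v, beta_succ t ht0 Z c0 hc0 L hL k w, h]
      change blk A Z (beta t Z c0 L (k + 1)) v w = blk A Z (beta t Z c0 L k) v w
      unfold blk
      by_cases hZ : v ∈ Z ∧ w ∈ Z
      · rw [if_pos ⟨hZ.1, hZ.2, h.symm⟩, if_pos ⟨hZ.1, hZ.2, h2⟩]
      · rw [if_neg fun h' => hZ ⟨h'.1, h'.2.1⟩, if_neg fun h' => hZ ⟨h'.1, h'.2.1⟩]
    · rw [if_neg h]
      have : C (k + 1) v w = 0 := by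
        change blk A Z (beta t Z c0 L (k + 1)) v w = 0
        unfold blk
        rw [if_neg fun h' => h h'.2.2.symm]
      rw [this, add_zero]
  have hmid0 : ∀ k v, 0 ≤ D k v - D (k + 1) v := by
    intro k v
    rw [← hmid k v]
    refine sum_nonneg fun w _ => ?_
    split_ifs
    · exact le_rfl
    · exact hCnn k v w
  -- the window inequality at scale k
  have hwin : ∀ k, ∑ v, ω k v * (D k v - D (k + 1) v) ≤
      3 * ∑ v, ω k v * Out k v + ε := by
    intro k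
    have h1 := window (C k) (blk_symm' hA Z _) (hCnn k) (beta t Z c0 L (k + 1))
      (beta_mono t ht0 Z c0 hc0 L (k + 1)) Ds hDs
    have h2 : ∑ v, sigma (C k) (beta t Z c0 L (k + 1)) Ds v (beta t Z c0 L (k + 1) v) *
        ∑ w, C k v w * sg v w ≤ E0 + ∑ v, ω k v * Out k v := by
      set s : V → ℝ := fun v =>
        sigma (C k) (beta t Z c0 L (k + 1)) Ds v (beta t Z c0 L (k + 1) v) with hs
      have hsω : ∀ v, |s v| ≤ ω k v := fun v => abs_sigma_le (C k) (hCnn k) _ Ds hDs v _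
      have h3 := hE0 s fun v => (hsω v).trans (hω1 k v)
      have h4 : ∑ v, s v * ∑ w, C k v w * sg v w =
          ∑ v, s v * ∑ w, A v w * sg v w - ∑ v, s v * ∑ w, (A v w - C k v w) * sg v w := by
        rw [← sum_sub_distrib]
        refine sum_congr rfl fun v _ => ?_
        rw [← mul_sub, ← sum_sub_distrib]
        congr 1
        refine sum_congr rfl fun w _ => ?_
        ring
      have h5 : -∑ v, s v * ∑ w, (A v w - C k v w) * sg v w ≤ ∑ v, ω k v * Out k v := by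
        rw [← sum_neg_distrib]
        refine sum_le_sum fun v _ => ?_
        have h6 : |∑ w, (A v w - C k v w) * sg v w| ≤ Out k v := by
          refine (abs_sum_le_sum_abs _ _).trans ?_
          change _ ≤ ∑ w, A v w - ∑ w, C k v w
          rw [← sum_sub_distrib]
          refine sum_le_sum fun w _ => ?_
          rw [abs_mul, abs_of_nonneg (sub_nonneg.2 (hCle k v w))]
          refine mul_le_of_le_one_right (sub_nonneg.2 (hCle k v w)) ?_
          unfold sg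
          split_ifs <;> simp
        calc -(s v * ∑ w, (A v w - C k v w) * sg v w)
            ≤ |s v * ∑ w, (A v w - C k v w) * sg v w| := neg_le_abs _
          _ = |s v| * |∑ w, (A v w - C k v w) * sg v w| := abs_mul _ _
          _ ≤ ω k v * Out k v := mul_le_mul (hsω v) h6 (abs_nonneg _) (hω0 k v)
      have h7 : ∑ v, s v * ∑ w, A v w * sg v w ≤ E0 := (le_abs_self _).trans h3
      rw [h4]
      linarith
    have h8 := swapErr_scale A t m S hd Z Δ τ Ds c0 L hL hDs hc0 hreg htZ hτ0 hτΔ hτc hτm k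
    have h9 : ∑ v, ω k v * (D k v - D (k + 1) v) =
        ∑ v, min 1 ((∑ w, C k v w) / Ds) * ∑ w, (if beta t Z c0 L (k + 1) w =
          beta t Z c0 L (k + 1) v then 0 else C k v w) := by
      refine sum_congr rfl fun v _ => ?_
      rw [hmid k v]
    rw [h9]
    refine h1.trans ?_
    rw [hε]
    linarith
  -- the potential
  let Φ : ℕ → ℝ := fun k => ∑ v, ω k v * Out k v
  have hΦ : ∀ k, Φ (k + 1) ≤ 4 * Φ k + ε := by
    intro k
    have h1 : Φ (k + 1) ≤ ∑ v, (ω k v * Out k v + ω k v * (D k v - D (k + 1) v)) := by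
      refine sum_le_sum fun v _ => ?_
      rw [← mul_add]
      have h2 : Out (k + 1) v = Out k v + (D k v - D (k + 1) v) := by
        change ∑ w, A v w - D (k + 1) v = ∑ w, A v w - D k v + (D k v - D (k + 1) v)
        ring
      rw [h2]
      refine mul_le_mul_of_nonneg_right ?_ (add_nonneg (hOut0 k v) (hmid0 k v))
      refine min_le_min le_rfl ?_
      exact div_le_div_of_nonneg_right (sub_nonneg.1 (hmid0 k v)) hDs.le
    rw [sum_add_distrib] at h1
    have h2 := hwin k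
    change _ ≤ 3 * Φ k + ε at h2
    change _ ≤ Φ k + _ at h1
    linarith
  have hgeom := geom Φ ε hΦ K
  -- the start
  set out : ℝ := ∑ v ∈ Z, ∑ w ∈ Zᶜ, A v w with hout
  have hout0 : 0 ≤ out := sum_nonneg fun v _ => sum_nonneg fun w _ => hA.nonneg v w
  let g : V → ℝ := fun v =>
    ∑ w ∈ Z, (if beta t Z c0 L 0 v = beta t Z c0 L 0 w then 0 else A v w)
  have hg0 : ∀ v, 0 ≤ g v := by
    intro v
    refine sum_nonneg fun w _ => ?_
    split_ifs
    · exact le_rfl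
    · exact hA.nonneg v w
  have hgs : ∑ v ∈ Z, g v ≤ 2 * (S / c0 * E0) :=
    beta_zero_split A hA t ht0 S E0 hd.t_sum hE0 Z c0 hc0 L
  have hgD : ∀ v ∈ Z, ∑ w ∈ Z, A v w = g v + D 0 v := by
    intro v hv
    have h1 : D 0 v = ∑ w ∈ Z, (if beta t Z c0 L 0 v = beta t Z c0 L 0 w then A v w else 0) := by
      change ∑ w, blk A Z (beta t Z c0 L 0) v w = _
      rw [← sum_filter_add_sum_filter_not univ (· ∈ Z)]
      have h2 : ∑ w with w ∉ Z, blk A Z (beta t Z c0 L 0) v w = 0 := by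
        refine sum_eq_zero fun w hw => ?_
        rw [mem_filter] at hw
        unfold blk
        rw [if_neg fun h => hw.2 h.2.1]
      rw [h2, add_zero, filter_univ_mem]
      refine sum_congr rfl fun w hw => ?_
      unfold blk
      by_cases h : beta t Z c0 L 0 v = beta t Z c0 L 0 w
      · rw [if_pos ⟨hv, hw, h⟩, if_pos h]
      · rw [if_neg fun h' => h h'.2.2, if_neg h]
    rw [h1]
    change _ = ∑ w ∈ Z, _ + _
    rw [← sum_add_distrib]
    refine sum_congr rfl fun w _ => ?_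
    split_ifs <;> simp
  have hDZ : ∀ k v, v ∉ Z → D k v = 0 := by
    intro k v hv
    refine sum_eq_zero fun w _ => ?_
    change blk A Z _ v w = 0
    unfold blk
    rw [if_neg fun h => hv h.1]
  have hΦ0 : Φ 0 ≤ out + 2 * (S / c0 * E0) := by
    have h1 : Φ 0 = ∑ v ∈ Z, ω 0 v * Out 0 v := by
      symm
      refine sum_subset (subset_univ Z) fun v _ hv => ?_
      have : ω 0 v = 0 := by
        change min 1 (D 0 v / Ds) = 0
        rw [hDZ 0 v hv]
        simp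
      rw [this, zero_mul]
    have h2 : ∀ v ∈ Z, ω 0 v * Out 0 v ≤ ∑ w ∈ Zᶜ, A v w + g v := by
      intro v hv
      refine (mul_le_of_le_one_left (hOut0 0 v) (hω1 0 v)).trans ?_
      change ∑ w, A v w - D 0 v ≤ _
      rw [← sum_add_sum_compl Z, hgD v hv]
      linarith
    rw [h1]
    refine (sum_le_sum h2).trans ?_
    rw [sum_add_distrib]
    linarith
  -- the end
  have hDK : ∀ v, D K v ≤ Ds / 2 := by
    intro v
    have h1 : D K v ≤ ∑ w ∈ Z with beta t Z c0 L K w = beta t Z c0 L K v, t w := by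
      rw [sum_filter]
      change ∑ w, blk A Z (beta t Z c0 L K) v w ≤ _
      rw [← sum_filter_add_sum_filter_not univ (· ∈ Z)]
      have h2 : ∑ w with w ∉ Z, blk A Z (beta t Z c0 L K) v w = 0 := by
        refine sum_eq_zero fun w hw => ?_
        rw [mem_filter] at hw
        unfold blk
        rw [if_neg fun h => hw.2 h.2.1]
      rw [h2, add_zero, filter_univ_mem]
      refine sum_le_sum fun w _ => ?_
      by_cases h : beta t Z c0 L K w = beta t Z c0 L K v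
      · rw [if_pos h]
        exact (blk_le' hA _ _ _ _).trans ((hA.le_one _ _).trans (hd.t_one w))
      · rw [if_neg h]
        unfold blk
        rw [if_neg fun h' => h h'.2.2.symm]
    refine h1.trans ((beta_block t ht0 Z c0 hc0 L hL K τ hτ0 htZ _).trans ?_)
    linarith
  have hvert : ∀ v ∈ Z, Ds ≤ ∑ w ∈ Z, A v w → ∑ w ∈ Z, A v w ≤
      2 * g v + 4 * ∑ k ∈ range K, ω k v * (D k v - D (k + 1) v) := by
    intro v hv hbig
    have h1 := descend (fun k => D k v) Ds hDs (fun k => sub_nonneg.1 (hmid0 k v))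
      (fun k => hD0 k v) K
    change D 0 v - max (D K v) (Ds / 2) ≤
      2 * ∑ k ∈ range K, ω k v * (D k v - D (k + 1) v) at h1
    rw [max_eq_right (hDK v)] at h1
    have h2 := hgD v hv
    linarith
  have hsum : ∑ v ∈ Z with Ds ≤ ∑ w ∈ Z, A v w, ∑ w ∈ Z, A v w ≤
      2 * ∑ v ∈ Z, g v + 4 * ∑ k ∈ range K, (3 * Φ k + ε) := by
    have hn : ∀ v, 0 ≤ 2 * g v + 4 * ∑ k ∈ range K, ω k v * (D k v - D (k + 1) v) := fun v =>
      add_nonneg (mul_nonneg (by norm_num) (hg0 v)) (mul_nonneg (by norm_num)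
        (sum_nonneg fun k _ => mul_nonneg (hω0 k v) (hmid0 k v)))
    calc ∑ v ∈ Z with Ds ≤ ∑ w ∈ Z, A v w, ∑ w ∈ Z, A v w
        ≤ ∑ v ∈ Z with Ds ≤ ∑ w ∈ Z, A v w,
            (2 * g v + 4 * ∑ k ∈ range K, ω k v * (D k v - D (k + 1) v)) := by
          refine sum_le_sum fun v hv => ?_
          rw [mem_filter] at hv
          exact hvert v hv.1 hv.2
      _ ≤ ∑ v ∈ Z, (2 * g v + 4 * ∑ k ∈ range K, ω k v * (D k v - D (k + 1) v)) :=
          sum_le_sum_of_subset_of_nonneg (filter_subset _ _) fun v _ _ => hn v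
      _ = 2 * ∑ v ∈ Z, g v +
            4 * ∑ k ∈ range K, ∑ v ∈ Z, ω k v * (D k v - D (k + 1) v) := by
          rw [sum_add_distrib, ← mul_sum, ← mul_sum]
          congr 2
          exact sum_comm
      _ ≤ 2 * ∑ v ∈ Z, g v + 4 * ∑ k ∈ range K, (3 * Φ k + ε) := by
          have : ∑ k ∈ range K, ∑ v ∈ Z, ω k v * (D k v - D (k + 1) v) ≤
              ∑ k ∈ range K, (3 * Φ k + ε) := by
            refine sum_le_sum fun k _ => ?_
            refine le_trans ?_ (hwin k)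
            exact sum_le_sum_of_subset_of_nonneg (subset_univ Z) fun v _ _ =>
              mul_nonneg (hω0 k v) (hmid0 k v)
          linarith
  have h3 : ∑ k ∈ range K, (3 * Φ k + ε) = 3 * ∑ k ∈ range K, (Φ k + ε / 3) := by
    rw [mul_sum]
    refine sum_congr rfl fun k _ => ?_
    ring
  rw [h3] at hsum
  set G : ℝ := S / c0 * E0 with hG
  have hG0 : 0 ≤ G := by rw [hG]; positivity
  have hΦ00 : 0 ≤ Φ 0 := sum_nonneg fun v _ => mul_nonneg (hω0 0 v) (hOut0 0 v)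
  have h4K : (1 : ℝ) ≤ 4 ^ K := one_le_pow₀ (by norm_num)
  have h5 : (4 ^ K - 1) / 3 * (Φ 0 + ε / 3) ≤ 4 ^ K / 3 * (out + 2 * G + ε / 3) := by
    apply mul_le_mul
    · linarith
    · linarith
    · linarith
    · positivity
  have h6 : ∑ v ∈ Z with Ds ≤ ∑ w ∈ Z, A v w, ∑ w ∈ Z, A v w ≤
      4 * G + 4 * 4 ^ K * (out + 2 * G + ε / 3) := by
    refine hsum.trans ?_
    linarith
  refine h6.trans ?_
  rw [pow_succ]
  nlinarith [mul_nonneg (sub_nonneg.2 h4K) hG0, mul_nonneg (sub_nonneg.2 h4K) hout0,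
    mul_nonneg (sub_nonneg.2 h4K) hε0]

end Pool.Agent.Lib.MP_7cecc1_co.SL
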