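import Mathlib
import Pool.Agent.Lib.MP_7cecc1_co.SL.Basic

/-! The window inequality (helper56). -/

namespace Pool.Agent.Lib.MP_7cecc1_co.SL

open Finset

theorem win_sg_abs_le {α : Type*} [LinearOrder α] (a b : α) : |sg a b| ≤ 1 := by
  unfold sg; split_ifs <;> simp

theorem win_sg_self {α : Type*} [LinearOrder α] (a : α) : sg a a = 0 := by
  unfold sg; simp

theorem win_sg_anti {α : Type*} [LinearOrder α] (a b : α) : sg a b = - sg b a := by
  unfold sg
  rcases lt_trichotomy a b with h | h | h
  · rw [if_pos h, if_neg (not_lt.2 h.le), if_pos h]; ring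
  · subst h; simp
  · rw [if_neg (not_lt.2 h.le), if_pos h, if_pos h]

theorem win_sg_of_lt {α : Type*} [LinearOrder α] {a b : α} (h : a < b) : sg a b = 1 := by
  unfold sg; rw [if_pos h]

theorem win_sg_of_gt {α : Type*} [LinearOrder α] {a b : α} (h : b < a) : sg a b = -1 := by
  unfold sg; rw [if_neg (not_lt.2 h.le), if_pos h]

theorem win_min_div_eq (D Ds : ℝ) (hDs : 0 < Ds) : min 1 (D / Ds) = D / max D Ds := by
  rcases le_total D Ds with h | h
  · rw [max_eq_right h, min_eq_right ((div_le_one hDs).2 h)]
  · rw [max_eq_left h, min_eq_left ((one_le_div hDs).2 h), div_self (hDs.trans_le h).ne']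

section
variable {V : Type*} [Fintype V]

/-- antisymmetric double sums vanish -/
theorem win_antisum (f : V → V → ℝ) (h : ∀ u v, f u v = - f v u) : ∑ u, ∑ v, f u v = 0 := by
  have h1 : ∑ u, ∑ v, f u v = - ∑ u, ∑ v, f u v := by
    calc ∑ u, ∑ v, f u v = ∑ u, ∑ v, - f v u := by
          refine sum_congr rfl fun u _ => sum_congr rfl fun v _ => h u v
      _ = - ∑ u, ∑ v, f v u := by simp [sum_neg_distrib]
      _ = - ∑ u, ∑ v, f u v := by rw [sum_comm]
  linarith

/-- The quadratic identity: with weights `a`, thresholds `q` and centre `r`. -/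
theorem win_quad (a : V → ℝ) (q : V → ℕ) (r : ℕ) :
    ∑ v, ∑ u, a v * a u * (sg (q v) (q u) * sg (q v) r) =
      2 * (∑ v, (if q v < r then a v else 0)) * (∑ v, (if r < q v then a v else 0)) +
      ((∑ v, (if q v < r then a v else 0)) + (∑ v, (if r < q v then a v else 0))) *
        (∑ v, (if q v = r then a v else 0)) := by
  classical
  set b : V → ℝ := fun v => if q v < r then a v else 0 with hb
  set o : V → ℝ := fun v => if r < q v then a v else 0 with ho
  set i : V → ℝ := fun v => if q v = r then a v else 0 with hi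
  have key : ∑ v, ∑ u, (a v * a u * (sg (q v) (q u) * sg (q v) r) -
      (b v * o u + o v * b u + b v * i u + o v * i u)) = 0 := by
    apply win_antisum
    intro u v
    simp only [hb, ho, hi]
    rcases lt_trichotomy (q u) r with h1 | h1 | h1 <;> rcases lt_trichotomy (q v) r with h2 | h2 | h2
    · rw [win_sg_of_lt h1, win_sg_of_lt h2, win_sg_anti (q u) (q v)]
      simp only [if_pos h1, if_pos h2, if_neg (not_lt.2 h1.le), if_neg (not_lt.2 h2.le),
        if_neg h1.ne, if_neg h2.ne]
      ring
    · subst h2
      rw [win_sg_of_lt h1, win_sg_self]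
      simp only [if_pos h1, if_neg (not_lt.2 h1.le), if_neg h1.ne, lt_self_iff_false, if_false,
        if_true]
      ring
    · have h3 := h1.trans h2
      rw [win_sg_of_lt h1, win_sg_of_gt h2, win_sg_of_lt h3, win_sg_of_gt h3]
      simp only [if_pos h1, if_pos h2, if_neg (not_lt.2 h1.le), if_neg (not_lt.2 h2.le),
        if_neg h1.ne, if_neg h2.ne']
      ring
    · subst h1
      rw [win_sg_of_lt h2, win_sg_self]
      simp only [if_pos h2, if_neg (not_lt.2 h2.le), if_neg h2.ne, lt_self_iff_false, if_false,
        if_true]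
      ring
    · rw [h1, h2, win_sg_self]
      simp
    · subst h1
      rw [win_sg_of_gt h2, win_sg_self]
      simp only [if_pos h2, if_neg (not_lt.2 h2.le), if_neg h2.ne', lt_self_iff_false, if_false,
        if_true]
      ring
    · have h3 := h2.trans h1
      rw [win_sg_of_lt h2, win_sg_of_gt h1, win_sg_of_lt h3, win_sg_of_gt h3]
      simp only [if_pos h1, if_pos h2, if_neg (not_lt.2 h1.le), if_neg (not_lt.2 h2.le),
        if_neg h1.ne', if_neg h2.ne]
      ring
    · subst h2
      rw [win_sg_of_gt h1, win_sg_self]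
      simp only [if_pos h1, if_neg (not_lt.2 h1.le), if_neg h1.ne', lt_self_iff_false, if_false,
        if_true]
      ring
    · rw [win_sg_of_gt h1, win_sg_of_gt h2, win_sg_anti (q u) (q v)]
      simp only [if_pos h1, if_pos h2, if_neg (not_lt.2 h1.le), if_neg (not_lt.2 h2.le),
        if_neg h1.ne', if_neg h2.ne']
      ring
  have e : ∑ v, ∑ u, (b v * o u + o v * b u + b v * i u + o v * i u) =
      2 * (∑ v, b v) * (∑ v, o v) + ((∑ v, b v) + (∑ v, o v)) * (∑ v, i v) := by
    simp only [sum_add_distrib, ← mul_sum, ← sum_mul]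
    ring
  simp only [sum_sub_distrib] at key
  rw [← e]
  linarith [key]

end

/-- P4a1. The window inequality (`D v = ∑ w, C v w`). -/
theorem window {V : Type*} [Fintype V] [LinearOrder V] (C : V → V → ℝ)
    (hsymm : ∀ v w, C v w = C w v) (hnn : ∀ v w, 0 ≤ C v w) (q : V → ℕ) (hq : Monotone q)
    (Ds : ℝ) (hDs : 0 < Ds) :
    ∑ v, min 1 ((∑ w, C v w) / Ds) * ∑ w, (if q w = q v then 0 else C v w) ≤
      3 * ∑ v, sigma C q Ds v (q v) * ∑ w, C v w * sg v w + 7 / 2 * swapErr C q Ds := by
  set E := swapErr C q Ds with hE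
  set Dm : V → ℝ := fun v => max (∑ w, C v w) Ds with hDm
  have hDm0 : ∀ v, 0 < Dm v := fun v => hDs.trans_le (le_max_right _ _)
  set b : V → ℝ := fun w => ∑ v, (if q v < q w then C w v else 0) with hb
  set o : V → ℝ := fun w => ∑ v, (if q w < q v then C w v else 0) with ho
  set i : V → ℝ := fun w => ∑ v, (if q v = q w then C w v else 0) with hi
  have b0 : ∀ w, 0 ≤ b w := fun w => sum_nonneg fun v _ => by split_ifs <;> simp [hnn]
  have o0 : ∀ w, 0 ≤ o w := fun w => sum_nonneg fun v _ => by split_ifs <;> simp [hnn]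
  have i0 : ∀ w, 0 ≤ i w := fun w => sum_nonneg fun v _ => by split_ifs <;> simp [hnn]
  have hD : ∀ w, ∑ v, C w v = o w + b w + i w := by
    intro w
    simp only [ho, hb, hi]
    rw [← sum_add_distrib, ← sum_add_distrib]
    refine sum_congr rfl fun v _ => ?_
    rcases lt_trichotomy (q v) (q w) with h | h | h
    · simp [h, h.ne, not_lt.2 h.le]
    · simp [h]
    · simp [h, h.ne', not_lt.2 h.le]
  have hob : ∀ w, ∑ v, C w v * sg (q w) (q v) = o w - b w := by
    intro w
    simp only [ho, hb]
    rw [← sum_sub_distrib]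
    refine sum_congr rfl fun v _ => ?_
    rcases lt_trichotomy (q v) (q w) with h | h | h
    · rw [win_sg_of_gt h]; simp [h, not_lt.2 h.le]
    · rw [h, win_sg_self]; simp
    · rw [win_sg_of_lt h]; simp [h, not_lt.2 h.le]
  have hobs : ∀ w, ∑ v, (if q v = q w then 0 else C w v) = o w + b w := by
    intro w
    simp only [ho, hb]
    rw [← sum_add_distrib]
    refine sum_congr rfl fun v _ => ?_
    rcases lt_trichotomy (q v) (q w) with h | h | h
    · simp [h, h.ne, not_lt.2 h.le]
    · simp [h]
    · simp [h, h.ne', not_lt.2 h.le]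
  set s : V → ℝ := fun v => sigma C q Ds v (q v) with hs
  have hsv : ∀ v, s v = (o v - b v) / Dm v := by
    intro v
    simp only [hs, sigma, hob, hDm]
  set X : ℝ := ∑ v, s v * (o v - b v) with hX
  set X' : ℝ := ∑ v, ∑ w, C v w * sigma C q Ds w (q v) * sg (q v) (q w) with hX'
  have hXe : X = ∑ v, ∑ w, C v w * sigma C q Ds v (q v) * sg (q v) (q w) := by
    rw [hX]
    refine sum_congr rfl fun v _ => ?_
    rw [← hob v, mul_sum]
    refine sum_congr rfl fun w _ => ?_
    simp only [hs]
    ring
  have hXX' : X' - X ≤ E := by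
    rw [hXe, hX', hE, swapErr, ← sum_sub_distrib]
    refine sum_le_sum fun v _ => ?_
    rw [← sum_sub_distrib]
    refine sum_le_sum fun w _ => ?_
    have h1 := win_sg_abs_le (q v) (q w)
    have h2 : C v w * sigma C q Ds w (q v) * sg (q v) (q w) -
        C v w * sigma C q Ds v (q v) * sg (q v) (q w) =
        C v w * (-((sigma C q Ds v (q v) - sigma C q Ds w (q v)) * sg (q v) (q w))) := by ring
    rw [h2]
    refine mul_le_mul_of_nonneg_left ?_ (hnn v w)
    refine (neg_le_abs _).trans ?_
    rw [abs_mul]
    calc _ ≤ |sigma C q Ds v (q v) - sigma C q Ds w (q v)| * 1 := by gcongr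
      _ = _ := mul_one _
  have hY : X' = ∑ w, (2 * b w * o w + (b w + o w) * i w) / Dm w := by
    rw [hX', sum_comm]
    refine sum_congr rfl fun w _ => ?_
    rw [← win_quad (fun v => C w v) q (q w), sum_div]
    refine sum_congr rfl fun v _ => ?_
    simp only [sigma]
    rw [show (max (∑ w_1, C w w_1) Ds) = Dm w from rfl, sum_div, mul_sum, sum_mul, sum_div]
    refine sum_congr rfl fun u _ => ?_
    rw [hsymm v w]
    ring
  have hXd : X = ∑ v, (o v - b v) ^ 2 / Dm v := by
    rw [hX]
    refine sum_congr rfl fun v _ => ?_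
    rw [hsv]; ring
  have hL : ∑ v, min 1 ((∑ w, C v w) / Ds) * ∑ w, (if q w = q v then 0 else C v w) ≤ X + 2 * X' := by
    rw [hXd, hY, mul_sum, ← sum_add_distrib]
    refine sum_le_sum fun v _ => ?_
    rw [hobs, win_min_div_eq _ _ hDs, hD v]
    have e1 : max (o v + b v + i v) Ds = Dm v := by simp only [hDm, hD]
    rw [e1, div_mul_eq_mul_div, ← mul_div_assoc, ← add_div]
    refine div_le_div_of_nonneg_right ?_ (hDm0 v).le
    nlinarith [b0 v, o0 v, i0 v, mul_nonneg (b0 v) (i0 v), mul_nonneg (o0 v) (i0 v)]
  have hlast : X ≤ ∑ v, sigma C q Ds v (q v) * ∑ w, C v w * sg v w + E / 2 := by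
    have e1 : ∀ v w : V, C v w * sg v w = C v w * sg (q v) (q w) +
        C v w * (if q v = q w then sg v w else 0) := by
      intro v w
      rcases lt_trichotomy (q v) (q w) with h | h | h
      · have : v < w := by
          by_contra h'
          exact absurd (hq (not_lt.1 h')) (not_le.2 h)
        rw [win_sg_of_lt h, win_sg_of_lt this, if_neg h.ne]; ring
      · rw [if_pos h, h, win_sg_self]; ring
      · have : w < v := by
          by_contra h'
          exact absurd (hq (not_lt.1 h')) (not_le.2 h)
        rw [win_sg_of_gt h, win_sg_of_gt this, if_neg h.ne']; ring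
    have e2 : ∑ v, sigma C q Ds v (q v) * ∑ w, C v w * sg v w = X +
        ∑ v, ∑ w, s v * (C v w * (if q v = q w then sg v w else 0)) := by
      rw [hX, ← sum_add_distrib]
      refine sum_congr rfl fun v _ => ?_
      rw [sum_congr rfl fun w _ => e1 v w, sum_add_distrib, hob, mul_add, mul_sum]
    have e3 : ∑ v, ∑ w, s v * (C v w * (if q v = q w then sg v w else 0)) =
        1 / 2 * ∑ v, ∑ w, (C v w * (if q v = q w then sg v w else 0)) * (s v - s w) := by
      have e4 : ∑ v, ∑ w, s w * (C v w * (if q v = q w then sg v w else 0)) =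
          - ∑ v, ∑ w, s v * (C v w * (if q v = q w then sg v w else 0)) := by
        rw [sum_comm, ← sum_neg_distrib]
        refine sum_congr rfl fun v _ => ?_
        rw [← sum_neg_distrib]
        refine sum_congr rfl fun w _ => ?_
        rw [hsymm w v, win_sg_anti w v]
        by_cases h : q v = q w
        · rw [if_pos h, if_pos h.symm]; ring
        · rw [if_neg h, if_neg (fun h' => h h'.symm)]; ring
      have e5 : ∑ v, ∑ w, (C v w * (if q v = q w then sg v w else 0)) * (s v - s w) =
          ∑ v, ∑ w, s v * (C v w * (if q v = q w then sg v w else 0)) -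
          ∑ v, ∑ w, s w * (C v w * (if q v = q w then sg v w else 0)) := by
        rw [← sum_sub_distrib]
        refine sum_congr rfl fun v _ => ?_
        rw [← sum_sub_distrib]
        refine sum_congr rfl fun w _ => ?_
        ring
      rw [e5, e4]; ring
    have e6 : - ∑ v, ∑ w, (C v w * (if q v = q w then sg v w else 0)) * (s v - s w) ≤ E := by
      rw [hE, swapErr, ← sum_neg_distrib]
      refine sum_le_sum fun v _ => ?_
      rw [← sum_neg_distrib]
      refine sum_le_sum fun w _ => ?_
      by_cases h : q v = q w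
      · rw [if_pos h]
        have h2 : -(C v w * sg v w * (s v - s w)) =
            C v w * (-((sigma C q Ds v (q v) - sigma C q Ds w (q v)) * sg v w)) := by
          simp only [hs]
          rw [← h]; ring
        rw [h2]
        refine mul_le_mul_of_nonneg_left ?_ (hnn v w)
        refine (neg_le_abs _).trans ?_
        rw [abs_mul]
        have h1 := win_sg_abs_le v w
        calc _ ≤ |sigma C q Ds v (q v) - sigma C q Ds w (q v)| * 1 := by gcongr
          _ = _ := mul_one _
      · rw [if_neg h]
        have := mul_nonneg (hnn v w) (abs_nonneg (sigma C q Ds v (q v) - sigma C q Ds w (q v)))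
        simpa using this
    rw [e2, e3]
    linarith
  linarith

end Pool.Agent.Lib.MP_7cecc1_co.SL
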